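import Mathlib
import Pool.Agent.Lib.P0c8ca5.DGN
import Pool.Agent.Lib.P0c8ca5.LHS

/-!
# Rank one modules: representations as functions on the ambient group

A representation of the subgroup `N` of `A` on `V` is a function `R : A → End V` that is
multiplicative on `N`.  `hc R R' g f = R'(g) f R(g⁻¹)` is the action on linear maps, `trS K` the full
trace over the subgroup `K`, `RT X` the sum over the finite set `X` (a set of representatives of the
cosets `K / D`, `Reps X K D`), `ac R c` the action of an element of the group algebra, `InP N` the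
set of the maps that are full traces from the trivial subgroup.
-/

namespace Pool.Agent.Lib.P0c8ca5.Rk

open MonoidAlgebra

variable {p : ℕ} {k : Type*} [Field k] {A : Type*} [Group A]
variable {V V' V'' : Type*} [AddCommGroup V] [Module k V] [AddCommGroup V'] [Module k V']
  [AddCommGroup V''] [Module k V'']

/-- `R` is multiplicative on the subgroup `N` -/
structure IsRep (N : Subgroup A) (R : A → Module.End k V) : Prop where
  one : R 1 = 1
  mul : ∀ g ∈ N, ∀ h ∈ N, R (g * h) = R g * R h

/-- `f` commutes with the action of `N` -/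
def Eqv (N : Subgroup A) (R : A → Module.End k V) (R' : A → Module.End k V') (f : V →ₗ[k] V') :
    Prop := ∀ g ∈ N, ∀ v, f (R g v) = R' g (f v)

/-- the representation `R` of `N` is irreducible -/
def Irr (N : Subgroup A) (R : A → Module.End k V) : Prop :=
  Nontrivial V ∧ ∀ W : Submodule k V, (∀ g ∈ N, ∀ w ∈ W, R g w ∈ W) → W = ⊥ ∨ W = ⊤

/-- conjugation of a linear map by `g` -/
def hc (R : A → Module.End k V) (R' : A → Module.End k V') (g : A) (f : V →ₗ[k] V') : V →ₗ[k] V' :=
  R' g ∘ₗ f ∘ₗ R g⁻¹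

open Classical in
/-- the full trace over the subgroup `K` -/
noncomputable def trS [Fintype A] (K : Subgroup A) (R : A → Module.End k V)
    (R' : A → Module.End k V') (f : V →ₗ[k] V') : V →ₗ[k] V' :=
  ∑ g ∈ Finset.univ.filter (fun g => g ∈ K), hc R R' g f

/-- the sum of the conjugates by the elements of `X` -/
def RT (X : Finset A) (R : A → Module.End k V) (R' : A → Module.End k V') (f : V →ₗ[k] V') :
    V →ₗ[k] V' := ∑ q ∈ X, hc R R' q f

/-- `X` is a set of representatives of the cosets `g D` in `K` -/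
structure Reps (X : Finset A) (K D : Subgroup A) : Prop where
  mem : ∀ q ∈ X, q ∈ K
  uniq : ∀ g ∈ K, ∃! q, q ∈ X ∧ q⁻¹ * g ∈ D

/-- the action of an element of the group algebra -/
noncomputable def ac [Fintype A] (R : A → Module.End k V) (c : MonoidAlgebra k A) :
    Module.End k V := ∑ g, c.coeff g • R g

/-- `f` is a full trace over `N` -/
def InP [Fintype A] (N : Subgroup A) (R : A → Module.End k V) (R' : A → Module.End k V')
    (f : V →ₗ[k] V') : Prop := ∃ θ : V →ₗ[k] V', f = trS N R R' θ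

open Classical in
/-- a representation of `N`, extended by zero -/
noncomputable def ofRep {N : Subgroup A} (τ : Representation k N V) : A → Module.End k V := fun g =>
  if h : g ∈ N then τ ⟨g, h⟩ else 0

/-- the representation of `N` given by `R` -/
def toRep {N : Subgroup A} {R : A → Module.End k V} (h : IsRep N R) : Representation k N V where
  toFun g := R g
  map_one' := h.one
  map_mul' x y := h.mul x x.2 y y.2

theorem ofRep_mem {N : Subgroup A} (τ : Representation k N V) {g : A} (h : g ∈ N) :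
    ofRep τ g = τ ⟨g, h⟩ := dif_pos h

theorem isRep_ofRep {N : Subgroup A} (τ : Representation k N V) : IsRep N (ofRep τ) where
  one := by
    rw [ofRep_mem τ N.one_mem]
    exact map_one τ
  mul g hg h hh := by
    rw [ofRep_mem τ hg, ofRep_mem τ hh, ofRep_mem τ (N.mul_mem hg hh), ← map_mul]
    rfl

theorem IsRep.mono {N N' : Subgroup A} {R : A → Module.End k V} (h : IsRep N R) (hN : N' ≤ N) :
    IsRep N' R := ⟨h.one, fun g hg x hx => h.mul g (hN hg) x (hN hx)⟩

theorem Eqv.mono {N N' : Subgroup A} {R : A → Module.End k V} {R' : A → Module.End k V'}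
    {f : V →ₗ[k] V'} (h : Eqv N R R' f) (hN : N' ≤ N) : Eqv N' R R' f :=
  fun g hg v => h g (hN hg) v

theorem irr_toRep {N : Subgroup A} {R : A → Module.End k V} (h : IsRep N R) :
    Irr' (toRep h) ↔ Irr N R :=
  ⟨fun h' => ⟨h'.nontriv, fun W hW => h'.sub W (fun g w hw => hW g g.2 w hw)⟩,
    fun h' => ⟨h'.1, fun W hW => h'.2 W (fun g hg w hw => hW ⟨g, hg⟩ w hw)⟩⟩

theorem irr_ofRep {N : Subgroup A} (τ : Representation k N V) : Irr' τ ↔ Irr N (ofRep τ) := by
  constructor
  · intro h
    refine ⟨h.nontriv, fun W hW => h.sub W (fun g w hw => ?_)⟩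
    have h1 := hW g g.2 w hw
    rwa [ofRep_mem τ g.2] at h1
  · intro h
    refine ⟨h.1, fun W hW => h.2 W (fun g hg w hw => ?_)⟩
    rw [ofRep_mem τ hg]
    exact hW ⟨g, hg⟩ w hw

theorem act_toRep [Fintype A] {N : Subgroup A} {R : A → Module.End k V} (h : IsRep N R)
    {c : MonoidAlgebra k A} (hc : SuppIn N c) : act (toRep h) c = ac R c := by
  classical
  have : Fintype N := Fintype.ofFinite N
  apply LinearMap.ext
  intro v
  rw [act_apply, ac, LinearMap.sum_apply]
  apply Fintype.sum_of_injective (fun y : N => (y : A)) Subtype.val_injective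
  · intro y hy
    have : c.coeff y = 0 := by
      by_contra h
      exact hy ⟨⟨y, hc y h⟩, rfl⟩
    rw [this, zero_smul]
    rfl
  · intro y
    rfl

theorem ac_ofRep [Fintype A] {N : Subgroup A} (τ : Representation k N V)
    (c : MonoidAlgebra k A) : ac (ofRep τ) c = act τ c := by
  classical
  have : Fintype N := Fintype.ofFinite N
  apply LinearMap.ext
  intro v
  rw [act_apply, ac, LinearMap.sum_apply]
  symm
  apply Fintype.sum_of_injective (fun y : N => (y : A)) Subtype.val_injective
  · intro y hy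
    have h1 : y ∉ N := fun h => hy ⟨⟨y, h⟩, rfl⟩
    rw [ofRep, dif_neg h1, smul_zero]
    rfl
  · intro y
    rw [ofRep_mem τ y.2]
    rfl

section hc
variable {N : Subgroup A} {R : A → Module.End k V} {R' : A → Module.End k V'}
  {R'' : A → Module.End k V''}

theorem IsRep.inv_mul (h : IsRep N R) {g : A} (hg : g ∈ N) : R g⁻¹ * R g = 1 := by
  rw [← h.mul _ (N.inv_mem hg) _ hg, inv_mul_cancel, h.one]

theorem IsRep.mul_inv (h : IsRep N R) {g : A} (hg : g ∈ N) : R g * R g⁻¹ = 1 := by
  rw [← h.mul _ hg _ (N.inv_mem hg), mul_inv_cancel, h.one]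

theorem IsRep.inv_apply (h : IsRep N R) {g : A} (hg : g ∈ N) (v : V) : R g⁻¹ (R g v) = v := by
  rw [← Module.End.mul_apply, h.inv_mul hg]; rfl

theorem IsRep.apply_inv (h : IsRep N R) {g : A} (hg : g ∈ N) (v : V) : R g (R g⁻¹ v) = v := by
  rw [← Module.End.mul_apply, h.mul_inv hg]; rfl

theorem hc_apply (g : A) (f : V →ₗ[k] V') (v : V) : hc R R' g f v = R' g (f (R g⁻¹ v)) := rfl

theorem hc_one (hR : IsRep N R) (hR' : IsRep N R') (f : V →ₗ[k] V') : hc R R' 1 f = f := by
  ext v
  rw [hc_apply, inv_one, hR.one, hR'.one]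
  rfl

theorem hc_mul (hR : IsRep N R) (hR' : IsRep N R') {g h : A} (hg : g ∈ N) (hh : h ∈ N)
    (f : V →ₗ[k] V') : hc R R' (g * h) f = hc R R' g (hc R R' h f) := by
  ext v
  rw [hc_apply, hc_apply, hc_apply, hR'.mul g hg h hh, mul_inv_rev,
    hR.mul _ (N.inv_mem hh) _ (N.inv_mem hg)]
  rfl

theorem hc_add (g : A) (f f' : V →ₗ[k] V') : hc R R' g (f + f') = hc R R' g f + hc R R' g f' := by
  ext v
  simp only [hc_apply, LinearMap.add_apply, map_add]

theorem hc_zero (g : A) : hc R R' g (0 : V →ₗ[k] V') = 0 := by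
  ext v
  simp only [hc_apply, LinearMap.zero_apply, map_zero]

theorem hc_smul (g : A) (c : k) (f : V →ₗ[k] V') : hc R R' g (c • f) = c • hc R R' g f := by
  ext v
  simp only [hc_apply, LinearMap.smul_apply, map_smul]

theorem hc_neg (g : A) (f : V →ₗ[k] V') : hc R R' g (-f) = - hc R R' g f := by
  ext v
  simp only [hc_apply, LinearMap.neg_apply, map_neg]

theorem hc_sum {ι : Type*} (S : Finset ι) (f : ι → (V →ₗ[k] V')) (g : A) :
    hc R R' g (∑ i ∈ S, f i) = ∑ i ∈ S, hc R R' g (f i) := by
  ext v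
  simp only [hc_apply, LinearMap.sum_apply, map_sum]

theorem hc_comp (hR' : IsRep N R') {g : A} (hg : g ∈ N) (f' : V' →ₗ[k] V'') (f : V →ₗ[k] V') :
    hc R R'' g (f' ∘ₗ f) = hc R' R'' g f' ∘ₗ hc R R' g f := by
  ext v
  simp only [hc_apply, LinearMap.comp_apply]
  rw [hR'.inv_apply hg]

theorem hc_of_eqv (hR : IsRep N R) {f : V →ₗ[k] V'} (hf : Eqv N R R' f) {g : A} (hg : g ∈ N) :
    hc R R' g f = f := by
  ext v
  rw [hc_apply, ← hf g hg, hR.apply_inv hg]

theorem eqv_of_hc (hR : IsRep N R) {f : V →ₗ[k] V'}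
    (hf : ∀ g ∈ N, hc R R' g f = f) : Eqv N R R' f := by
  intro g hg v
  have h1 := LinearMap.congr_fun (hf g hg) (R g v)
  rw [hc_apply, hR.inv_apply hg] at h1
  exact h1.symm

theorem Eqv.comp {f' : V' →ₗ[k] V''} {f : V →ₗ[k] V'} (hf' : Eqv N R' R'' f') (hf : Eqv N R R' f) :
    Eqv N R R'' (f' ∘ₗ f) := by
  intro g hg v
  rw [LinearMap.comp_apply, hf g hg, hf' g hg]
  rfl

theorem Eqv.add {f f' : V →ₗ[k] V'} (hf : Eqv N R R' f) (hf' : Eqv N R R' f') :
    Eqv N R R' (f + f') := by
  intro g hg v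
  rw [LinearMap.add_apply, hf g hg, hf' g hg, LinearMap.add_apply, map_add]

theorem Eqv.sub {f f' : V →ₗ[k] V'} (hf : Eqv N R R' f) (hf' : Eqv N R R' f') :
    Eqv N R R' (f - f') := by
  intro g hg v
  rw [LinearMap.sub_apply, hf g hg, hf' g hg, LinearMap.sub_apply, map_sub]

end hc

end Pool.Agent.Lib.P0c8ca5.Rk
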