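import Mathlib
import Pool.Agent.Lib.P0c8ca5R.Defs
import Pool.Agent.Lib.P0c8ca5.Trace

/-!
# Module Ac: the action of the group algebra
-/

namespace Pool.Agent.Lib.P0c8ca5.Rk

open MonoidAlgebra

variable {p : ℕ} {k : Type*} [Field k] {A : Type*} [Group A]
variable {V V' V'' : Type*} [AddCommGroup V] [Module k V] [AddCommGroup V'] [Module k V']
  [AddCommGroup V''] [Module k V'']

section
variable [Fintype A] {K N : Subgroup A} {X : Finset A} {R : A → Module.End k V}
  {R' : A → Module.End k V'}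

theorem ac_mul (hR : IsRep N R) {c c' : MonoidAlgebra k A} (hc : SuppIn N c)
    (hc' : SuppIn N c') : ac R (c * c') = ac R c * ac R c' := by
  rw [← act_toRep hR hc, ← act_toRep hR hc', ← act_toRep hR (hc.mul hc'), act_mul _ hc]

theorem ac_one (hR : IsRep N R) : ac R (1 : MonoidAlgebra k A) = 1 := by
  classical
  rw [ac, Finset.sum_eq_single 1]
  · rw [hR.one]
    change (Finsupp.single (1 : A) (1 : k)) 1 • (1 : Module.End k V) = 1
    rw [Finsupp.single_eq_same, one_smul]
  · intro x _ hx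
    change (Finsupp.single (1 : A) (1 : k)) x • R x = 0
    rw [Finsupp.single_eq_of_ne hx, zero_smul]
  · intro h; exact absurd (Finset.mem_univ _) h

theorem ac_add (c c' : MonoidAlgebra k A) : ac R (c + c') = ac R c + ac R c' := by
  rw [ac, ac, ac, ← Finset.sum_add_distrib]
  refine Finset.sum_congr rfl (fun g _ => ?_)
  change (c.coeff g + c'.coeff g) • R g = _
  rw [add_smul]

theorem ac_sum {ι : Type*} (S : Finset ι) (f : ι → MonoidAlgebra k A) :
    ac R (∑ i ∈ S, f i) = ∑ i ∈ S, ac R (f i) := by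
  classical
  induction S using Finset.induction_on with
  | empty =>
    rw [Finset.sum_empty, Finset.sum_empty, ac]
    apply Finset.sum_eq_zero
    intro g _
    exact zero_smul _ _
  | insert i S hi ih => rw [Finset.sum_insert hi, Finset.sum_insert hi, ac_add, ih]

theorem hc_ac (hR : IsRep N R) {g : A} (hg : g ∈ N) {c : MonoidAlgebra k A} (hc : SuppIn N c) :
    Rk.hc R R g (ac R c) = ac R (cj g c) := by
  ext v
  rw [hc_apply, ac, ac, LinearMap.sum_apply, LinearMap.sum_apply, map_sum]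
  refine Fintype.sum_equiv (MulAut.conj g).toEquiv _ _ (fun x => ?_)
  change R g ((c.coeff x • R x) (R g⁻¹ v)) = ((cj g c).coeff (g * x * g⁻¹) • R (g * x * g⁻¹)) v
  have e1 : g⁻¹ * (g * x * g⁻¹) * g = x := by group
  rw [coeff_cj, e1, LinearMap.smul_apply, LinearMap.smul_apply, map_smul]
  by_cases hx : x ∈ N
  · rw [hR.mul _ (N.mul_mem hg hx) _ (N.inv_mem hg), hR.mul g hg x hx]
    rfl
  · have h0 : c.coeff x = 0 := by
      by_contra h; exact hx (hc x h)
    rw [h0, zero_smul, zero_smul]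

theorem ac_eqv (hR : IsRep N R) {M : Subgroup A} (hM : M ≤ N) {c : MonoidAlgebra k A}
    (hc : SuppIn N c) (hinv : InvBy M c) : Eqv M R R (ac R c) := by
  apply eqv_of_hc (hR.mono hM)
  intro g hg
  rw [hc_ac hR (hM hg) hc, invBy_iff_cj.1 hinv g hg]

theorem comp_ac {f : V →ₗ[k] V'} (hf : Eqv N R R' f) {c : MonoidAlgebra k A}
    (hc : SuppIn N c) : f ∘ₗ ac R c = ac R' c ∘ₗ f := by
  ext v
  rw [LinearMap.comp_apply, LinearMap.comp_apply, ac, ac, LinearMap.sum_apply,
    LinearMap.sum_apply, map_sum]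
  refine Finset.sum_congr rfl (fun x _ => ?_)
  rw [LinearMap.smul_apply, LinearMap.smul_apply, map_smul]
  by_cases hx : x ∈ N
  · rw [hf x hx]
  · have h0 : c.coeff x = 0 := by
      by_contra h; exact hx (hc x h)
    rw [h0, zero_smul, zero_smul]

theorem RT_ac (hX : ∀ q ∈ X, q ∈ N) (hR : IsRep N R) {c : MonoidAlgebra k A}
    (hc : SuppIn N c) : RT X R R (ac R c) = ac R (∑ q ∈ X, cj q c) := by
  rw [RT, ac_sum]
  exact Finset.sum_congr rfl (fun q hq => hc_ac hR (hX q hq) hc)

theorem trS_ac (hR : IsRep N R) (hK : K ≤ N) {u : MonoidAlgebra k A} (hu : SuppIn N u) :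
    trS K R R (ac R u) = ac R (trK K u) := by
  classical
  rw [trS, trK, ac_sum]
  refine Finset.sum_congr ?_ (fun q hq => hc_ac hR (hK (Finset.mem_filter.1 hq).2) hu)
  ext q
  simp

end

end Pool.Agent.Lib.P0c8ca5.Rk
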