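import Mathlib
import Pool.Agent.Lib.P0c8ca5R.Defs

/-!
# Module Comp: traces and composition with equivariant maps

`hc R R'' g (φ ∘ θ) = R''(g) φ θ R(g⁻¹) = φ R'(g) θ R(g⁻¹)` if `φ` is equivariant, similarly
on the other side; then sum over `K` or over `X`.
-/

namespace Pool.Agent.Lib.P0c8ca5.Rk

open MonoidAlgebra

variable {p : ℕ} {k : Type*} [Field k] {A : Type*} [Group A]
variable {V V' V'' : Type*} [AddCommGroup V] [Module k V] [AddCommGroup V'] [Module k V']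
  [AddCommGroup V''] [Module k V'']

section
variable {K : Subgroup A} {X : Finset A} {R : A → Module.End k V} {R' : A → Module.End k V'}
  {R'' : A → Module.End k V''}

theorem RT_comp_left (hX : ∀ q ∈ X, q ∈ K) {φ : V' →ₗ[k] V''} (hφ : Eqv K R' R'' φ)
    (θ : V →ₗ[k] V') : RT X R R'' (φ ∘ₗ θ) = φ ∘ₗ RT X R R' θ := by
  ext v
  rw [RT, RT, LinearMap.sum_apply, LinearMap.comp_apply, LinearMap.sum_apply, map_sum]
  refine Finset.sum_congr rfl (fun q hq => ?_)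
  rw [hc_apply, hc_apply, LinearMap.comp_apply, hφ q (hX q hq)]

theorem RT_comp_right (hX : ∀ q ∈ X, q ∈ K) {φ : V →ₗ[k] V'} (hφ : Eqv K R R' φ)
    (θ : V' →ₗ[k] V'') : RT X R R'' (θ ∘ₗ φ) = RT X R' R'' θ ∘ₗ φ := by
  ext v
  rw [RT, RT, LinearMap.sum_apply, LinearMap.comp_apply, LinearMap.sum_apply]
  refine Finset.sum_congr rfl (fun q hq => ?_)
  rw [hc_apply, hc_apply, LinearMap.comp_apply, hφ q⁻¹ (K.inv_mem (hX q hq))]

variable [Fintype A]

theorem trS_comp_left {φ : V' →ₗ[k] V''} (hφ : Eqv K R' R'' φ)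
    (θ : V →ₗ[k] V') : trS K R R'' (φ ∘ₗ θ) = φ ∘ₗ trS K R R' θ := by
  classical
  ext v
  rw [trS, trS, LinearMap.sum_apply, LinearMap.comp_apply, LinearMap.sum_apply, map_sum]
  refine Finset.sum_congr rfl (fun q hq => ?_)
  rw [hc_apply, hc_apply, LinearMap.comp_apply, hφ q (Finset.mem_filter.1 hq).2]

theorem trS_comp_right {φ : V →ₗ[k] V'} (hφ : Eqv K R R' φ)
    (θ : V' →ₗ[k] V'') : trS K R R'' (θ ∘ₗ φ) = trS K R' R'' θ ∘ₗ φ := by
  classical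
  ext v
  rw [trS, trS, LinearMap.sum_apply, LinearMap.comp_apply, LinearMap.sum_apply]
  refine Finset.sum_congr rfl (fun q hq => ?_)
  rw [hc_apply, hc_apply, LinearMap.comp_apply, hφ q⁻¹ (K.inv_mem (Finset.mem_filter.1 hq).2)]

theorem trS_add (θ θ' : V →ₗ[k] V') :
    trS K R R' (θ + θ') = trS K R R' θ + trS K R R' θ' := by
  classical
  rw [trS, trS, trS, ← Finset.sum_add_distrib]
  exact Finset.sum_congr rfl (fun q _ => hc_add q θ θ')

theorem trS_neg (θ : V →ₗ[k] V') : trS K R R' (-θ) = - trS K R R' θ := by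
  classical
  rw [trS, trS, ← Finset.sum_neg_distrib]
  exact Finset.sum_congr rfl (fun q _ => hc_neg q θ)

theorem inP_zero : InP K R R' (0 : V →ₗ[k] V') := by
  classical
  refine ⟨0, ?_⟩
  rw [trS]
  exact (Finset.sum_eq_zero (fun q _ => hc_zero q)).symm

theorem InP.add {f f' : V →ₗ[k] V'} (hf : InP K R R' f) (hf' : InP K R R' f') :
    InP K R R' (f + f') := by
  obtain ⟨θ, rfl⟩ := hf
  obtain ⟨θ', rfl⟩ := hf'
  exact ⟨θ + θ', (trS_add θ θ').symm⟩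

theorem InP.neg {f : V →ₗ[k] V'} (hf : InP K R R' f) : InP K R R' (-f) := by
  obtain ⟨θ, rfl⟩ := hf
  exact ⟨-θ, (trS_neg θ).symm⟩

theorem InP.smul {f : V →ₗ[k] V'} (hf : InP K R R' f) (c : k) : InP K R R' (c • f) := by
  classical
  obtain ⟨θ, rfl⟩ := hf
  refine ⟨c • θ, ?_⟩
  rw [trS, trS, Finset.smul_sum]
  exact Finset.sum_congr rfl (fun q _ => (hc_smul q c θ).symm)

theorem InP.comp_left {f : V →ₗ[k] V'} (hf : InP K R R' f) {φ : V' →ₗ[k] V''}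
    (hφ : Eqv K R' R'' φ) : InP K R R'' (φ ∘ₗ f) := by
  obtain ⟨θ, rfl⟩ := hf
  exact ⟨φ ∘ₗ θ, (trS_comp_left hφ θ).symm⟩

theorem InP.comp_right {f : V' →ₗ[k] V''} (hf : InP K R' R'' f) {φ : V →ₗ[k] V'}
    (hφ : Eqv K R R' φ) : InP K R R'' (f ∘ₗ φ) := by
  obtain ⟨θ, rfl⟩ := hf
  exact ⟨θ ∘ₗ φ, (trS_comp_right hφ θ).symm⟩

end

end Pool.Agent.Lib.P0c8ca5.Rk
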