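import Mathlib
import Pool.Agent.Lib.P0c8ca5R.Defs

/-!
# Module Tr: sums over coset representatives
-/

namespace Pool.Agent.Lib.P0c8ca5.Rk

open MonoidAlgebra

variable {p : ℕ} {k : Type*} [Field k] {A : Type*} [Group A]
variable {V V' V'' : Type*} [AddCommGroup V] [Module k V] [AddCommGroup V'] [Module k V']
  [AddCommGroup V''] [Module k V'']

theorem exists_reps [Fintype A] {K D : Subgroup A} (hDK : D ≤ K) : ∃ X : Finset A, Reps X K D := by
  classical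
  let s : Setoid A := QuotientGroup.leftRel D
  let rep : A → A := fun g => (Quotient.mk s g).out
  have h1 : ∀ g, (rep g)⁻¹ * g ∈ D := by
    intro g
    have h : s.r (rep g) g := Quotient.exact (Quotient.out_eq _)
    exact QuotientGroup.leftRel_apply.1 h
  have h2 : ∀ g h, g⁻¹ * h ∈ D → rep g = rep h := by
    intro g h hgh
    have h3 : Quotient.mk s g = Quotient.mk s h :=
      Quotient.sound (QuotientGroup.leftRel_apply.2 hgh)
    simp only [rep, h3]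
  refine ⟨(Finset.univ.filter (fun g => g ∈ K)).image rep, ?_, ?_⟩
  · intro q hq
    obtain ⟨g, hg, rfl⟩ := Finset.mem_image.1 hq
    have hgK := (Finset.mem_filter.1 hg).2
    have h3 := K.mul_mem hgK (K.inv_mem (hDK (h1 g)))
    have e1 : g * ((rep g)⁻¹ * g)⁻¹ = rep g := by group
    rwa [e1] at h3
  · intro g hg
    refine ⟨rep g, ⟨Finset.mem_image.2 ⟨g, by simp [hg], rfl⟩, h1 g⟩, ?_⟩
    rintro q ⟨hq, hqg⟩
    obtain ⟨g', hg', rfl⟩ := Finset.mem_image.1 hq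
    apply h2
    have h3 := D.mul_mem (D.inv_mem (h1 g')) hqg
    have e1 : ((rep g')⁻¹ * g')⁻¹ * ((rep g')⁻¹ * g) = g'⁻¹ * g := by group
    rwa [e1] at h3

open Classical in
theorem Reps.filter {X : Finset A} {D N : Subgroup A} (hX : Reps X ⊤ D) (hDN : D ≤ N) :
    Reps (X.filter (fun q => q ∈ N)) N D where
  mem q hq := (Finset.mem_filter.1 hq).2
  uniq g hg := by
    obtain ⟨q, ⟨hq1, hq2⟩, hq3⟩ := hX.uniq g (Subgroup.mem_top g)
    refine ⟨q, ⟨Finset.mem_filter.2 ⟨hq1, ?_⟩, hq2⟩, ?_⟩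
    · have h3 := N.mul_mem hg (N.inv_mem (hDN hq2))
      have e1 : g * (q⁻¹ * g)⁻¹ = q := by group
      rwa [e1] at h3
    · rintro q' ⟨hq', hq''⟩
      exact hq3 q' ⟨(Finset.mem_filter.1 hq').1, hq''⟩

namespace TrAux

theorem reps_eq {X : Finset A} {K D : Subgroup A} (hX : Reps X K D) {g q q' : A} (hg : g ∈ K)
    (hq : q ∈ X) (hq' : q' ∈ X) (h : q⁻¹ * g ∈ D) (h' : q'⁻¹ * g ∈ D) : q = q' := by
  obtain ⟨r, -, hr⟩ := hX.uniq g hg
  rw [hr q ⟨hq, h⟩, hr q' ⟨hq', h'⟩]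

theorem reps_eq' {X : Finset A} {K D : Subgroup A} (hX : Reps X K D) {q q' : A}
    (hq : q ∈ X) (hq' : q' ∈ X) (h : q⁻¹ * q' ∈ D) : q = q' :=
  reps_eq hX (hX.mem q' hq') hq hq' h (by rw [inv_mul_cancel]; exact D.one_mem)

end TrAux

open TrAux

section
variable {K D : Subgroup A} {X : Finset A} {R : A → Module.End k V} {R' : A → Module.End k V'}

theorem RT_eqv (hX : Reps X K D) (hDK : D ≤ K) (hR : IsRep K R) (hR' : IsRep K R')
    {f : V →ₗ[k] V'} (hf : Eqv D R R' f) : Eqv K R R' (RT X R R' f) := by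
  classical
  apply eqv_of_hc hR
  intro g hg
  choose! rp hrp using fun g hg => (hX.uniq g hg).exists
  rw [RT, hc_sum]
  have h1 : ∀ q ∈ X, hc R R' g (hc R R' q f) = hc R R' (rp (g * q)) f := by
    intro q hq
    have hqK := hX.mem q hq
    have hgq := K.mul_mem hg hqK
    obtain ⟨h2, h3⟩ := hrp _ hgq
    rw [← hc_mul hR hR' hg hqK]
    have e1 : g * q = rp (g * q) * ((rp (g * q))⁻¹ * (g * q)) := by group
    conv_lhs => rw [e1]
    rw [hc_mul hR hR' (hX.mem _ h2) (hDK h3), hc_of_eqv (hR.mono hDK) hf h3]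
  rw [Finset.sum_congr rfl h1]
  refine Finset.sum_bij (fun q _ => rp (g * q)) ?_ ?_ ?_ ?_
  · intro q hq
    exact (hrp _ (K.mul_mem hg (hX.mem q hq))).1
  · intro q hq q' hq' h
    have h2 := (hrp _ (K.mul_mem hg (hX.mem q hq))).2
    have h3 := (hrp _ (K.mul_mem hg (hX.mem q' hq'))).2
    rw [← h] at h3
    apply reps_eq' hX hq hq'
    have h4 := D.mul_mem (D.inv_mem h2) h3
    have e1 : ((rp (g * q))⁻¹ * (g * q))⁻¹ * ((rp (g * q))⁻¹ * (g * q')) = q⁻¹ * q' := by group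
    rwa [e1] at h4
  · intro r hr
    have hgr : g⁻¹ * r ∈ K := K.mul_mem (K.inv_mem hg) (hX.mem r hr)
    obtain ⟨h2, h3⟩ := hrp _ hgr
    refine ⟨rp (g⁻¹ * r), h2, ?_⟩
    have h4 : g * rp (g⁻¹ * r) ∈ K := K.mul_mem hg (hX.mem _ h2)
    obtain ⟨h5, h6⟩ := hrp _ h4
    apply reps_eq' hX h5 hr
    have h7 := D.mul_mem h6 h3
    have e1 : (rp (g * rp (g⁻¹ * r)))⁻¹ * (g * rp (g⁻¹ * r)) * ((rp (g⁻¹ * r))⁻¹ * (g⁻¹ * r))
        = (rp (g * rp (g⁻¹ * r)))⁻¹ * r := by group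
    rwa [e1] at h7
  · intro q hq
    rfl

theorem RT_trS [Fintype A] (hX : Reps X K D) (hDK : D ≤ K) (hR : IsRep K R) (hR' : IsRep K R')
    (θ : V →ₗ[k] V') : RT X R R' (trS D R R' θ) = trS K R R' θ := by
  classical
  have h1 : RT X R R' (trS D R R' θ)
      = ∑ q ∈ X, ∑ d ∈ Finset.univ.filter (fun g => g ∈ D), hc R R' (q * d) θ := by
    rw [RT]
    refine Finset.sum_congr rfl (fun q hq => ?_)
    rw [trS, hc_sum]
    refine Finset.sum_congr (by ext; simp) (fun d hd => ?_)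
    rw [hc_mul hR hR' (hX.mem q hq) (hDK (Finset.mem_filter.1 hd).2)]
  rw [h1, ← Finset.sum_product', trS]
  refine Finset.sum_bij (fun x _ => x.1 * x.2) ?_ ?_ ?_ ?_
  · rintro ⟨q, d⟩ hx
    rw [Finset.mem_product, Finset.mem_filter] at hx
    rw [Finset.mem_filter]
    exact ⟨Finset.mem_univ _, K.mul_mem (hX.mem q hx.1) (hDK hx.2.2)⟩
  · rintro ⟨q, d⟩ hx ⟨q', d'⟩ hx' h
    rw [Finset.mem_product, Finset.mem_filter] at hx hx'
    change q * d = q' * d' at h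
    have h2 : q = q' := by
      apply reps_eq hX (K.mul_mem (hX.mem q hx.1) (hDK hx.2.2)) hx.1 hx'.1
      · rw [inv_mul_cancel_left]; exact hx.2.2
      · rw [h, inv_mul_cancel_left]; exact hx'.2.2
    subst h2
    rw [mul_left_cancel h]
  · intro g hg
    rw [Finset.mem_filter] at hg
    obtain ⟨q, ⟨hq, hq'⟩, -⟩ := hX.uniq g hg.2
    refine ⟨(q, q⁻¹ * g), ?_, ?_⟩
    · rw [Finset.mem_product, Finset.mem_filter]
      exact ⟨hq, Finset.mem_univ _, hq'⟩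
    · change q * (q⁻¹ * g) = g
      rw [mul_inv_cancel_left]
  · rintro ⟨q, d⟩ _
    rfl

theorem trS_eqv [Fintype A] (hR : IsRep K R) (hR' : IsRep K R') (θ : V →ₗ[k] V') :
    Eqv K R R' (trS K R R' θ) := by
  classical
  apply eqv_of_hc hR
  intro g hg
  rw [trS, hc_sum]
  refine Finset.sum_bij (fun x _ => g * x) ?_ ?_ ?_ ?_
  · intro x hx
    rw [Finset.mem_filter] at hx ⊢
    exact ⟨Finset.mem_univ _, K.mul_mem hg hx.2⟩
  · intro x _ y _ h
    exact mul_left_cancel h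
  · intro y hy
    rw [Finset.mem_filter] at hy
    refine ⟨g⁻¹ * y, ?_, ?_⟩
    · rw [Finset.mem_filter]
      exact ⟨Finset.mem_univ _, K.mul_mem (K.inv_mem hg) hy.2⟩
    · rw [mul_inv_cancel_left]
  · intro x hx
    rw [Finset.mem_filter] at hx
    rw [hc_mul hR hR' hg hx.2]

theorem exists_trS_sub [Fintype A] (hDK : D ≤ K) (hR : IsRep K R) (hR' : IsRep K R')
    (θ : V →ₗ[k] V') : ∃ θ' : V →ₗ[k] V', trS K R R' θ = trS D R R' θ' := by
  classical
  obtain ⟨Y, hY⟩ := exists_reps hDK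
  refine ⟨∑ q ∈ Y, hc R R' q⁻¹ θ, ?_⟩
  have h1 : trS D R R' (∑ q ∈ Y, hc R R' q⁻¹ θ)
      = ∑ d ∈ Finset.univ.filter (fun g => g ∈ D), ∑ q ∈ Y, hc R R' (d * q⁻¹) θ := by
    rw [trS]
    refine Finset.sum_congr (by ext; simp) (fun d hd => ?_)
    rw [hc_sum]
    refine Finset.sum_congr rfl (fun q hq => ?_)
    rw [hc_mul hR hR' (hDK (Finset.mem_filter.1 hd).2) (K.inv_mem (hY.mem q hq))]
  rw [h1, ← Finset.sum_product', trS]
  symm
  refine Finset.sum_bij (fun x _ => x.1 * x.2⁻¹) ?_ ?_ ?_ ?_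
  · rintro ⟨d, q⟩ hx
    rw [Finset.mem_product, Finset.mem_filter] at hx
    rw [Finset.mem_filter]
    exact ⟨Finset.mem_univ _, K.mul_mem (hDK hx.1.2) (K.inv_mem (hY.mem q hx.2))⟩
  · rintro ⟨d, q⟩ hx ⟨d', q'⟩ hx' h
    rw [Finset.mem_product, Finset.mem_filter] at hx hx'
    change d * q⁻¹ = d' * q'⁻¹ at h
    have h2 : q = q' := by
      apply reps_eq' hY hx.2 hx'.2
      have h3 : q⁻¹ * q' = d⁻¹ * d' := by
        calc q⁻¹ * q' = d⁻¹ * (d * q⁻¹) * q' := by group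
          _ = d⁻¹ * (d' * q'⁻¹) * q' := by rw [h]
          _ = d⁻¹ * d' := by group
      rw [h3]
      exact D.mul_mem (D.inv_mem hx.1.2) hx'.1.2
    subst h2
    rw [mul_right_cancel h]
  · intro g hg
    rw [Finset.mem_filter] at hg
    obtain ⟨q, ⟨hq, hq'⟩, -⟩ := hY.uniq g⁻¹ (K.inv_mem hg.2)
    refine ⟨((q⁻¹ * g⁻¹)⁻¹, q), ?_, ?_⟩
    · rw [Finset.mem_product, Finset.mem_filter]
      exact ⟨⟨Finset.mem_univ _, D.inv_mem hq'⟩, hq⟩
    · change (q⁻¹ * g⁻¹)⁻¹ * q⁻¹ = g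
      group
  · rintro ⟨d, q⟩ _
    rfl

end

end Pool.Agent.Lib.P0c8ca5.Rk
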