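import Mathlib
import Pool.Agent.Lib.P0c8ca5R.Ac
import Pool.Agent.Lib.P0c8ca5R.Tr
import Pool.Agent.Lib.P0c8ca5R.Comp
import Pool.Agent.Lib.P0c8ca5N.ChB
import Pool.Agent.Lib.P0c8ca5N.ChD

/-!
# Module CardDZ: a block of defect zero has exactly one irreducible representation

`f = trK K a`.  If `ρ`, `ρ'` were not isomorphic irreducible representations in `f`, density gives
`v` in `kK` acting as `a` on `ρ` and as `0` on `ρ'`; the central element `trK K v` acts as `f`, i.e.
as `1`, on `ρ` and as `0` on `ρ'`, which contradicts the primitivity of `f`.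
-/

namespace Pool.Agent.Lib.P0c8ca5.Rk

open MonoidAlgebra

variable {p : ℕ} {k : Type*} [Field k] {A : Type*} [Group A]

namespace CardDZAux

/-- pushing `kK` into `kA` -/
noncomputable def up (K : Subgroup A) (a : MonoidAlgebra k K) : MonoidAlgebra k A :=
  tr (Subgroup.topEquiv : (⊤ : Subgroup K) ≃* K) a

theorem coeff_up (K : Subgroup A) (a : MonoidAlgebra k K) (x : K) :
    (up K a).coeff (x : A) = a.coeff x := by
  have h := coeff_tr (Subgroup.topEquiv : (⊤ : Subgroup K) ≃* K) a ⟨x, Subgroup.mem_top x⟩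
  exact h

theorem up_suppIn (K : Subgroup A) (a : MonoidAlgebra k K) : SuppIn K (up K a) :=
  tr_suppIn _ _

theorem act_up [Finite A] {K : Subgroup A} {n : ℕ} (ρ : Rp k K n) (a : MonoidAlgebra k K) :
    act ρ (up K a) = ρ.asAlgebraHom a := by
  classical
  have : Fintype K := Fintype.ofFinite K
  have h1 : ρ.asAlgebraHom a = ∑ h : K, a.coeff h • ρ h := by
    rw [Representation.asAlgebraHom_def, MonoidAlgebra.lift_apply]
    exact Finsupp.sum_fintype _ _ (fun h => zero_smul _ _)
  rw [h1]
  apply LinearMap.ext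
  intro v
  rw [act_apply, LinearMap.sum_apply]
  refine Finset.sum_congr rfl (fun x _ => ?_)
  rw [coeff_up]
  rfl

/-- left multiplication by the elements of `K` on `kA` -/
noncomputable def lreg (K : Subgroup A) : Representation k K (MonoidAlgebra k A) where
  toFun g := LinearMap.mulLeft k (single (g : A) (1 : k))
  map_one' := by
    ext v
    simp [MonoidAlgebra.one_def]
  map_mul' x y := by
    apply LinearMap.ext
    intro v
    change single ((x * y : K) : A) (1 : k) * v = single (x : A) 1 * (single (y : A) 1 * v)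
    rw [← mul_assoc, single_mul_single, one_mul]
    rfl

theorem lreg_apply (K : Subgroup A) (g : K) (v : MonoidAlgebra k A) :
    lreg K g v = single (g : A) (1 : k) * v := rfl

theorem sum_lreg [Fintype A] (K : Subgroup A) [Fintype K] {c : MonoidAlgebra k A}
    (hc : SuppIn K c) (v : MonoidAlgebra k A) :
    ∑ x : K, c.coeff (x : A) • lreg K x v = c * v := by
  classical
  have h1 : c = ∑ x : K, c.coeff (x : A) • single (x : A) (1 : k) := by
    ext y
    rw [coeff_sum, Finsupp.finsetSum_apply]
    by_cases hy : y ∈ K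
    · rw [Finset.sum_eq_single ⟨y, hy⟩]
      · rw [coeff_smul_apply]
        change _ = c.coeff y • (Finsupp.single y (1 : k)) y
        rw [Finsupp.single_eq_same, smul_eq_mul, mul_one]
      · intro x _ hx
        rw [coeff_smul_apply]
        change c.coeff (x : A) • (Finsupp.single (x : A) (1 : k)) y = 0
        rw [Finsupp.single_eq_of_ne (fun h => hx (Subtype.ext h.symm)), smul_zero]
      · intro h; exact absurd (Finset.mem_univ _) h
    · have h2 : c.coeff y = 0 := by
        by_contra h; exact hy (hc y h)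
      rw [h2]
      symm
      apply Finset.sum_eq_zero
      intro x _
      rw [coeff_smul_apply]
      change c.coeff (x : A) • (Finsupp.single (x : A) (1 : k)) y = 0
      have h3 : y ≠ (x : A) := by
        rintro rfl
        exact hy x.2
      rw [Finsupp.single_eq_of_ne h3, smul_zero]
  conv_rhs => rw [h1, Finset.sum_mul]
  refine Finset.sum_congr rfl (fun x _ => ?_)
  rw [lreg_apply, smul_mul_assoc]

theorem exists_rep [Fintype A] {K : Subgroup A} {f : MonoidAlgebra k A} (hf : IsBlock K f) :
    ∃ (n : ℕ) (ρ : Rp k K n), Irr' ρ ∧ act ρ f = 1 := by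
  classical
  have : Fintype K := Fintype.ofFinite K
  let W : Submodule k (MonoidAlgebra k A) := LinearMap.range (LinearMap.mulLeft k f)
  have hmem : ∀ w ∈ W, f * w = w := by
    rintro _ ⟨v, rfl⟩
    change f * (f * v) = f * v
    rw [← mul_assoc, hf.idem]
  have hW : ∀ (g : K), ∀ w ∈ W, lreg K g w ∈ W := by
    intro g w hw
    refine ⟨lreg K g w, ?_⟩
    change f * (single (g : A) (1 : k) * w) = single (g : A) (1 : k) * w
    have h1 := ((invBy_iff_commute.1 hf.invBy) g g.2)
    rw [← mul_assoc, ← h1.eq, mul_assoc, hmem w hw]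
  have hnt : Nontrivial W := by
    rw [Submodule.nontrivial_iff_ne_bot]
    intro h
    have h1 : f ∈ W := ⟨f, hf.idem⟩
    rw [h, Submodule.mem_bot] at h1
    exact hf.ne_zero h1
  obtain ⟨W', hW', n, σ, E, -, hσ, hE⟩ := exists_irr_sub_fin (subRep (lreg (k := k) K) W hW)
  refine ⟨n, σ, hσ, ?_⟩
  apply LinearMap.ext
  intro v
  obtain ⟨w, rfl⟩ := E.surjective v
  rw [act_apply]
  have h1 : ∀ x : K, f.coeff (x : A) • σ x (E w)
      = E (f.coeff (x : A) • subRep (subRep (lreg (k := k) K) W hW) W' hW' x w) := by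
    intro x
    rw [map_smul, hE]
  rw [Finset.sum_congr rfl (fun x _ => h1 x), ← map_sum]
  change _ = E w
  congr 1
  apply Subtype.ext
  apply Subtype.ext
  have h2 : (((∑ x : K, f.coeff (x : A) • subRep (subRep (lreg (k := k) K) W hW) W' hW' x w :
      W') : W) : MonoidAlgebra k A)
      = ∑ x : K, f.coeff (x : A) • lreg (k := k) K x ((w : W) : MonoidAlgebra k A) := by
    rw [Submodule.coe_sum, Submodule.coe_sum]
    rfl
  rw [h2, sum_lreg K hf.suppIn]
  exact hmem _ (w : W).2

theorem unique_rep [Fact p.Prime] [CharP k p] [IsAlgClosed k] [Fintype A] {K : Subgroup A}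
    {f : MonoidAlgebra k A} (hf : IsDZ p K f) {n m : ℕ} {ρ : Rp k K n} {σ : Rp k K m}
    (hρ : Irr' ρ) (hσ : Irr' σ) (h1 : act ρ f = 1) (h2 : act σ f = 1) : Iso ρ σ := by
  classical
  obtain ⟨P, a, -, -, -, -, -, haK, -, hfa, -⟩ := lemC hf hf.blk.invBy (le_refl K)
    Subgroup.le_normalizer (fun x hx => ⟨0, by simpa using hx⟩)
  by_contra hne
  have hne' : IsEmpty (ρ.Equiv σ) := by
    rw [← not_nonempty_iff]
    exact fun h => hne (iso_iff.2 h)
  let nn : Bool → ℕ := fun b => Bool.rec m n b
  let rr : ∀ b, Rp k K (nn b) := fun b => Bool.rec σ ρ b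
  obtain ⟨v₀, hv1, hv2⟩ := ChBAux.density nn rr
    (fun b => by cases b; exacts [irr_iff.2 hσ, irr_iff.2 hρ])
    (fun i j hij => by
      cases i <;> cases j
      · exact absurd rfl hij
      · exact ⟨fun e => hne'.false e.symm⟩
      · exact hne'
      · exact absurd rfl hij) true (act ρ a)
  set v := up K v₀ with hv
  have hvK : SuppIn K v := up_suppIn K v₀
  have hvρ : act ρ v = act ρ a := by
    rw [hv, act_up]; exact hv2
  have hvσ : act σ v = 0 := by
    rw [hv, act_up]; exact hv1 false (by decide)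
  set z := trK K v with hz
  have hzmem : z ∈ fixAlg k K K :=
    mem_fixAlg.2 ⟨trK_suppIn Subgroup.le_normalizer hvK, trK_invBy K v⟩
  have hzρ : act ρ z = 1 := by
    rw [← ac_ofRep, hz, ← trS_ac (isRep_ofRep ρ) (le_refl K) hvK, ac_ofRep, hvρ, ← ac_ofRep,
      trS_ac (isRep_ofRep ρ) (le_refl K) haK, ← hfa, ac_ofRep, h1]
  have hzσ : act σ z = 0 := by
    rw [← ac_ofRep, hz, ← trS_ac (isRep_ofRep σ) (le_refl K) hvK, ac_ofRep, hvσ, trS]
    exact Finset.sum_eq_zero (fun g _ => hc_zero g)
  have hA : IsArtinianRing (fixAlg k K K) := IsArtinianRing.of_finite k _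
  have hntρ := hρ.nontriv
  have hntσ := hσ.nontriv
  rcases hf.blk.primIdem.nilp_or_unit ⟨z, hzmem⟩ with ⟨r, hr⟩ | ⟨w, hw⟩
  · have h3 : (z * f) ^ r = 0 := by
      have := congrArg Subtype.val hr
      exact this
    have h4 : ∀ r : ℕ, act ρ ((z * f) ^ (r + 1)) = 1 := by
      intro r
      induction r with
      | zero =>
        rw [zero_add, pow_one, act_mul ρ (mem_fixAlg.1 hzmem).1, hzρ, h1, one_mul]
      | succ r ih =>
        rw [pow_succ', act_mul ρ ((mem_fixAlg.1 hzmem).1.mul hf.blk.suppIn), ih,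
          act_mul ρ (mem_fixAlg.1 hzmem).1, hzρ, h1, one_mul, one_mul]
    have h5 := h4 r
    rw [pow_succ, h3, zero_mul] at h5
    have h6 : act ρ (0 : MonoidAlgebra k A) = 0 := by
      have : Fintype K := Fintype.ofFinite K
      apply LinearMap.ext
      intro u
      rw [act_apply]
      apply Finset.sum_eq_zero
      intro x _
      exact zero_smul _ _
    rw [h6] at h5
    exact zero_ne_one h5
  · have h3 : z * w.1 * f = f := congrArg Subtype.val hw
    have h4 : act σ f = 0 := by
      rw [← h3, mul_assoc, act_mul σ (mem_fixAlg.1 hzmem).1, hzσ, zero_mul]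
    rw [h4] at h2
    exact zero_ne_one h2

end CardDZAux

open CardDZAux in
theorem card_irr_dz [Fact p.Prime] [CharP k p] [IsAlgClosed k] [Fintype A] {K : Subgroup A}
    {f : MonoidAlgebra k A} (hf : IsDZ p K f) :
    Nat.card (Quotient (irrInvSetoid K ⊥ f)) = 1 := by
  obtain ⟨n, ρ, hρ, h1⟩ := exists_rep hf.blk
  have hne : Nonempty (Quotient (irrInvSetoid K ⊥ f)) := ⟨Quotient.mk _ (mkIrr ρ hρ h1)⟩
  have hsub : Subsingleton (Quotient (irrInvSetoid K ⊥ f)) := by
    refine ⟨fun x y => ?_⟩
    induction x using Quotient.inductionOn with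
    | _ a =>
      induction y using Quotient.inductionOn with
      | _ b =>
        exact mk_eq_mk.2 (unique_rep hf (irr_iff.1 a.irr) (irr_iff.1 b.irr) (act_iff.2 a.blk)
          (act_iff.2 b.blk))
  exact Nat.card_eq_one_iff_unique.2 ⟨hsub, hne⟩

end Pool.Agent.Lib.P0c8ca5.Rk
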