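import Mathlib
import Pool.Agent.Lib.P0c8ca5R.CardDZ
import Pool.Agent.Lib.P0c8ca5.Official
import Pool.Agent.Lib.P0c8ca5N.WSum

/-!
# Module Base0: weights with trivial first component; blocks of defect zero

PROOF of `card_w_bot`.  `NQ ⊥ = N_A(1)/1` is isomorphic to `A` by `x ↦ qm ⊥ x _`, `sec K ⊥` corresponds
to `K` and `proj ⊥ c` to `c` (`coeff_proj`: `(proj ⊥ c).coeff (qm ⊥ n _) = c.coeff n`).  Under this
isomorphism `{f | IsDZ p (sec K ⊥) f ∧ f * proj ⊥ e = f}` becomes the set of the blocks `f` of defect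
zero of `K` with `f * e = f`, i.e. `f = e` (`IsBlock.eq_or_mul_eq_zero`).  (Transport with `tr` of
P0c8ca5.Transport along `K ≃* sec K ⊥`, or directly.)
PROOF of `base_zero`.  `card_irr_eq`, `card_irr_dz`: the left side is 1.  By `sum_DZ_eq` with `D` = all
p-subgroups: `|A| * ∑_{Q ∈ T} |DZ Q| = ∑_{Q ∈ D} |N(Q)| w(Q)`; if `w(Q) ≠ 0` then `proj Q e ≠ 0`,
`HasBr Q e` (`hasBr_of_proj`), `Q = ⊥`; `w(⊥) = 1` by `card_w_bot`, `|N(⊥)| = |A|`.
-/

namespace Pool.Agent.Lib.P0c8ca5.Rk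

open MonoidAlgebra

variable {p : ℕ} {k : Type*} [Field k] {A : Type*} [Group A]

namespace Base0Aux

theorem mem_norm_bot (x : A) : x ∈ Subgroup.normalizer ((⊥ : Subgroup A) : Set A) := by
  rw [Subgroup.normalizer_eq_top]
  exact Subgroup.mem_top x

theorem exists_iso_bot (K : Subgroup A) :
    ∃ ψ : ↥K ≃* ↥(sec K ⊥), ∀ x : ↥K,
      ((ψ x : ↥(sec K ⊥)) : NQ (⊥ : Subgroup A)) = qm ⊥ (x : A) (mem_norm_bot _) := by
  let β : ↥K →* NQ (⊥ : Subgroup A) :=
    { toFun := fun x => qm ⊥ (x : A) (mem_norm_bot _)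
      map_one' := rfl
      map_mul' := fun _ _ => rfl }
  obtain ⟨ψ, hψ⟩ := exists_iso_of_ker (C₁ := K) (C₂ := sec K ⊥) K.subtype β
    (fun x => by
      change (x : A) = 1 ↔ qm ⊥ (x : A) (mem_norm_bot _) = 1
      rw [qm_eq_one_iff, Subgroup.mem_bot])
    K.range_subtype
    (by
      ext w
      rw [MonoidHom.mem_range, mem_sec]
      constructor
      · rintro ⟨x, rfl⟩
        exact ⟨x, x.2, mem_norm_bot _, rfl⟩
      · rintro ⟨x, hx, hx', rfl⟩
        exact ⟨⟨x, hx⟩, rfl⟩)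
  exact ⟨ψ, fun x => hψ x x rfl⟩

theorem tr_eq_proj [Fintype A] {K : Subgroup A} {e : MonoidAlgebra k A} (he : SuppIn K e)
    {ψ : ↥K ≃* ↥(sec K ⊥)} (hψ : ∀ x : ↥K,
      ((ψ x : ↥(sec K ⊥)) : NQ (⊥ : Subgroup A)) = qm ⊥ (x : A) (mem_norm_bot _)) :
    tr ψ e = proj ⊥ e := by
  classical
  ext w
  by_cases hw : w ∈ sec K ⊥
  · obtain ⟨n, hn⟩ := ψ.surjective ⟨w, hw⟩
    have h1 : w = ((ψ n : ↥(sec K ⊥)) : NQ (⊥ : Subgroup A)) := by rw [hn]
    rw [h1, coeff_tr, hψ, coeff_proj, Finset.sum_eq_single (n : A)]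
    · rw [if_pos (by rw [inv_mul_cancel]; exact Subgroup.one_mem _)]
    · intro x _ hx
      rw [if_neg]
      intro h
      rw [Subgroup.mem_bot, inv_mul_eq_one] at h
      exact hx h.symm
    · intro h; exact absurd (Finset.mem_univ _) h
  · rw [coeff_tr_of_notMem ψ e hw]
    by_contra h
    exact hw (proj_suppIn he ⊥ w (fun h' => h h'.symm))

end Base0Aux

open Base0Aux

theorem card_w_bot [Fact p.Prime] [CharP k p] [Fintype A] {K : Subgroup A}
    {e : MonoidAlgebra k A} (he : IsBlock K e) :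
    (IsDZ p K e → Nat.card {f : MonoidAlgebra k (NQ (⊥ : Subgroup A)) |
      IsDZ p (sec K ⊥) f ∧ f * proj ⊥ e = f} = 1) ∧
    (¬ IsDZ p K e → Nat.card {f : MonoidAlgebra k (NQ (⊥ : Subgroup A)) |
      IsDZ p (sec K ⊥) f ∧ f * proj ⊥ e = f} = 0) := by
  obtain ⟨ψ, hψ⟩ := exists_iso_bot K
  have hpr : tr ψ e = proj ⊥ e := tr_eq_proj he.suppIn hψ
  have hblk : IsBlock (sec K ⊥) (tr ψ e) := tr_isBlock ψ he
  rw [← hpr]
  have hS : ∀ f : MonoidAlgebra k (NQ (⊥ : Subgroup A)), IsDZ p (sec K ⊥) f →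
      f * tr ψ e = f → f = tr ψ e := by
    intro f hf hfe
    rcases hf.blk.eq_or_mul_eq_zero hblk with h | h
    · exact h
    · exact absurd (hfe.symm.trans h) hf.blk.ne_zero
  constructor
  · intro hdz
    have h1 : {f : MonoidAlgebra k (NQ (⊥ : Subgroup A)) |
        IsDZ p (sec K ⊥) f ∧ f * tr ψ e = f} = {tr ψ e} := by
      ext f
      constructor
      · rintro ⟨h1, h2⟩
        exact hS f h1 h2
      · intro h
        have h' : f = tr ψ e := h
        rw [h']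
        exact ⟨tr_isDZ ψ hdz, hblk.idem⟩
    rw [h1]
    exact Nat.card_unique
  · intro hdz
    have h1 : {f : MonoidAlgebra k (NQ (⊥ : Subgroup A)) |
        IsDZ p (sec K ⊥) f ∧ f * tr ψ e = f} = ∅ := by
      apply Set.eq_empty_of_forall_notMem
      rintro f ⟨h1, h2⟩
      apply hdz
      rw [hS f h1 h2] at h1
      have h3 := tr_isDZ ψ.symm h1
      rwa [tr_symm_tr ψ he.suppIn] at h3
    rw [h1]
    exact Nat.card_of_isEmpty

theorem base_zero [Fact p.Prime] [CharP k p] [IsAlgClosed k] [Fintype A]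
    {e : MonoidAlgebra k A} (he : IsDZ p (⊤ : Subgroup A) e) : NavarroEq p ⊤ ⊤ e := by
  classical
  intro T hT1 hT2
  rw [card_irr_eq, card_irr_dz he]
  let D : Finset (Subgroup A) := Finset.univ.filter (fun R => R ≤ ⊤ ∧ IsPGroup p R)
  have hD : ∀ R, R ∈ D ↔ R ≤ ⊤ ∧ IsPGroup p R := by
    intro R
    rw [Finset.mem_filter]
    exact ⟨fun h => h.2, fun h => ⟨Finset.mem_univ _, h⟩⟩
  have h1 := sum_DZ_eq he.blk T hT1 hT2 D hD
  rw [Finset.sum_eq_single_of_mem (s := D) (⊥ : Subgroup A)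
    ((hD _).2 ⟨bot_le, IsPGroup.of_bot⟩)] at h1
  · rw [(card_w_bot he.blk).1 he, mul_one] at h1
    have h2 : (⊤ : Subgroup A) ⊓ Subgroup.normalizer ((⊥ : Subgroup A) : Set A) = ⊤ := by
      rw [Subgroup.normalizer_eq_top, inf_top_eq]
    rw [h2] at h1
    have h3 : Nat.card (⊤ : Subgroup A) * ∑ Q ∈ T, Nat.card (DZ p ⊤ e Q)
        = Nat.card (⊤ : Subgroup A) * 1 := by rw [h1, mul_one]
    exact (Nat.eq_of_mul_eq_mul_left Nat.card_pos h3).symm
  · intro R hR hne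
    obtain ⟨h2, h3⟩ := (hD R).1 hR
    have h4 : Nat.card {f : MonoidAlgebra k (NQ R) | IsDZ p (sec ⊤ R) f ∧ f * proj R e = f} = 0 := by
      have h5 : {f : MonoidAlgebra k (NQ R) | IsDZ p (sec ⊤ R) f ∧ f * proj R e = f} = ∅ := by
        apply Set.eq_empty_of_forall_notMem
        rintro f ⟨h6, h7⟩
        apply hne
        apply he.dz R h2 h3
        apply hasBr_of_proj (p := p) h3 (he.blk.invBy.mono h2)
        intro h8
        rw [h8, mul_zero] at h7
        exact h6.blk.ne_zero h7.symm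
      rw [h5]
      exact Nat.card_of_isEmpty
    rw [h4, mul_zero]

end Pool.Agent.Lib.P0c8ca5.Rk
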