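import Mathlib
import Pool.Agent.Lib.P0c8ca5R.Comp
import Pool.Agent.Lib.P0c8ca5R.Ac
import Pool.Agent.Lib.P0c8ca5R.Tr

/-!
# Module Dev1: devissage in the first variable

Suppose all `N`-homomorphisms `τ → R` are full traces for all irreducible `τ` with `act τ b = 1`.
Then the same holds for every finite dimensional `S` with `ac S b = 1`.

PROOF. Let `α : W → V` be `N`-equivariant.  Among the `N`-stable submodules `U` of `W` for which
there is `θ` with `α u = (trS N S R θ) u` for all `u ∈ U` choose a maximal one (`⊥` is one, `W` is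
finite dimensional).  Suppose `U ≠ ⊤`; let `θ` belong to `U` and `β = α - trS N S R θ`, which is
`N`-equivariant (`trS_eqv`) and vanishes on `U`.  `W ⧸ U` is a nonzero representation of `N`
(`quotRep` in P0c8ca5.Rep applied to `toRep hS`); `exists_irr_sub` gives an irreducible
subrepresentation, i.e. an `N`-stable `U' > U` such that `U' / U` is irreducible; transport it to
`Fin n → k` (`trRep`, a basis) to get `τ : Rp k N n`, irreducible, and an `N`-equivariant surjection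
`π : U' → (Fin n → k)` with kernel `U`.  `act τ b = 1` because `ac S b = 1` (`act` commutes with
equivariant maps).  `β|U'` factors as `β̄ ∘ π`, `β̄ : (Fin n → k) → V` `N`-equivariant, so by
hypothesis `β̄ = trS N (ofRep τ) R θ̄`.  Let `θ'' : W → V` be a linear extension of `θ̄ ∘ π : U' → V`.
For `u ∈ U'`: `(trS N S R θ'') u = ∑_{g ∈ N} R g (θ̄ (π (S g⁻¹ u))) = ∑ R g (θ̄ (τ g⁻¹ (π u))) = β̄ (π u)
= β u`, so `α = trS N S R (θ + θ'')` on `U'`: contradiction to maximality.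
-/

namespace Pool.Agent.Lib.P0c8ca5.Rk

open MonoidAlgebra

variable {p : ℕ} {k : Type*} [Field k] {A : Type*} [Group A]
variable {V W : Type*} [AddCommGroup V] [Module k V] [AddCommGroup W] [Module k W]

namespace Dev1Aux

/-- an irreducible section above a proper stable submodule -/
theorem section_above {N : Subgroup A} [Module.Finite k W] {S : A → Module.End k W}
    (hS : IsRep N S) {U : Submodule k W} (hU : ∀ g ∈ N, ∀ w ∈ U, S g w ∈ U) (hUt : U ≠ ⊤) :
    ∃ (U' : Submodule k W) (n : ℕ) (σ : Rp k N n) (P : W →ₗ[k] (Fin n → k))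
      (L : (Fin n → k) →ₗ[k] (W ⧸ U)),
      U < U' ∧ (∀ g ∈ N, ∀ w ∈ U', S g w ∈ U') ∧ Irr' σ ∧
      (∀ y, ∃ u ∈ U', P u = y) ∧ (∀ g (hg : g ∈ N), ∀ u ∈ U', P (S g u) = σ ⟨g, hg⟩ (P u)) ∧
      (∀ u ∈ U', L (P u) = U.mkQ u) := by
  have hnt : Nontrivial (W ⧸ U) := Submodule.Quotient.nontrivial_iff.2 hUt
  obtain ⟨W₁, hW₁, n, σ, E, hirr, hσ, hE⟩ :=
    exists_irr_sub_fin (quotRep (toRep hS) U (fun g w hw => hU g g.2 w hw))
  have hmem : ∀ u : W, u ∈ W₁.comap U.mkQ ↔ U.mkQ u ∈ W₁ := fun u => Iff.rfl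
  have hq : ∀ (g : A) (hg : g ∈ N) (u : W), U.mkQ (S g u) =
      quotRep (toRep hS) U (fun g w hw => hU g g.2 w hw) ⟨g, hg⟩ (U.mkQ u) := by
    intro g hg u
    rfl
  obtain ⟨P, hP⟩ := LinearMap.exists_extend
    (E.toLinearMap ∘ₗ (U.mkQ.restrict (p := W₁.comap U.mkQ) (q := W₁) (fun u hu => hu)))
  have hP' : ∀ u (hu : u ∈ W₁.comap U.mkQ), P u = E ⟨U.mkQ u, hu⟩ := by
    intro u hu
    have := LinearMap.congr_fun hP ⟨u, hu⟩
    exact this
  have hst : ∀ g ∈ N, ∀ w ∈ W₁.comap U.mkQ, S g w ∈ W₁.comap U.mkQ := by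
    intro g hg w hw
    rw [hmem, hq g hg]
    exact hW₁ ⟨g, hg⟩ _ hw
  refine ⟨W₁.comap U.mkQ, n, σ, P, W₁.subtype ∘ₗ E.symm.toLinearMap, ?_, hst, hσ, ?_, ?_, ?_⟩
  · refine lt_of_le_of_ne ?_ ?_
    · intro u hu
      rw [hmem]
      have : U.mkQ u = 0 := (Submodule.Quotient.mk_eq_zero U).2 hu
      rw [this]
      exact W₁.zero_mem
    · intro h
      have := hirr.nontriv
      obtain ⟨⟨w, hw⟩, hw0⟩ := exists_ne (0 : W₁)
      obtain ⟨u, rfl⟩ := U.mkQ_surjective w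
      have hu : u ∈ U := by
        rw [h]
        exact hw
      apply hw0
      apply Subtype.ext
      exact (Submodule.Quotient.mk_eq_zero U).2 hu
  · intro y
    obtain ⟨u, hu⟩ := U.mkQ_surjective (E.symm y : W ⧸ U)
    have hu' : u ∈ W₁.comap U.mkQ := by
      rw [hmem, hu]
      exact (E.symm y).2
    refine ⟨u, hu', ?_⟩
    rw [hP' u hu']
    have : (⟨U.mkQ u, hu'⟩ : W₁) = E.symm y := Subtype.ext hu
    rw [this, LinearEquiv.apply_symm_apply]
  · intro g hg u hu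
    rw [hP' _ (hst g hg u hu), hP' u hu, hE]
    rfl
  · intro u hu
    rw [hP' u hu, LinearMap.comp_apply, LinearEquiv.coe_coe, LinearEquiv.symm_apply_apply]
    rfl

end Dev1Aux

open Dev1Aux

theorem dev1 [Fintype A] {N : Subgroup A} {b : MonoidAlgebra k A} (hb : SuppIn N b)
    {R : A → Module.End k V} (hR : IsRep N R)
    (h : ∀ (n : ℕ) (τ : Rp k N n), Irr' τ → act τ b = 1 → ∀ α : (Fin n → k) →ₗ[k] V,
      Eqv N (ofRep τ) R α → InP N (ofRep τ) R α)
    [Module.Finite k W] {S : A → Module.End k W} (hS : IsRep N S) (hSb : ac S b = 1)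
    {α : W →ₗ[k] V} (hα : Eqv N S R α) : InP N S R α := by
  classical
  have : Fintype N := Fintype.ofFinite N
  let 𝒮 : Set (Submodule k W) := {U | (∀ g ∈ N, ∀ w ∈ U, S g w ∈ U) ∧
    ∃ θ : W →ₗ[k] V, ∀ u ∈ U, α u = trS N S R θ u}
  have hne : 𝒮.Nonempty := by
    refine ⟨⊥, fun g _ w hw => ?_, 0, fun u hu => ?_⟩
    · rw [Submodule.mem_bot] at hw ⊢
      rw [hw, map_zero]
    · rw [Submodule.mem_bot] at hu
      rw [hu, map_zero, map_zero]
  obtain ⟨U, ⟨hU, θ, hθ⟩, hmax⟩ := (wellFounded_gt (α := Submodule k W)).has_min 𝒮 hne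
  by_cases hUt : U = ⊤
  · refine ⟨θ, ?_⟩
    ext u
    exact hθ u (hUt ▸ Submodule.mem_top)
  exfalso
  obtain ⟨U', n, σ, P, L, hlt, hst, hσ, hsurj, heq, hL⟩ := section_above hS hU hUt
  have hact : act σ b = 1 := by
    apply LinearMap.ext
    intro y
    obtain ⟨u, hu, rfl⟩ := hsurj y
    rw [act_apply]
    have h1 : ∀ x : N, b.coeff (x : A) • σ x (P u) = P (b.coeff (x : A) • S x u) := by
      intro x
      rw [map_smul, heq x x.2 u hu]
    rw [Finset.sum_congr rfl fun x _ => h1 x, ← map_sum]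
    have h2 : ∑ x : N, b.coeff (x : A) • S x u = act (toRep hS) b u := by
      rw [act_apply]
      rfl
    rw [h2, act_toRep hS hb, hSb]
    rfl
  set β : W →ₗ[k] V := α - trS N S R θ with hβ
  have hβe : Eqv N S R β := hα.sub (trS_eqv hS hR θ)
  have hβ0 : U ≤ LinearMap.ker β := by
    intro u hu
    rw [LinearMap.mem_ker, hβ, LinearMap.sub_apply, hθ u hu, sub_self]
  set γ : (Fin n → k) →ₗ[k] V := U.liftQ β hβ0 ∘ₗ L with hγ
  have hγP : ∀ u ∈ U', γ (P u) = β u := by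
    intro u hu
    rw [hγ, LinearMap.comp_apply, hL u hu]
    rfl
  have hγe : Eqv N (ofRep σ) R γ := by
    intro g hg y
    obtain ⟨u, hu, rfl⟩ := hsurj y
    rw [ofRep_mem σ hg, ← heq g hg u hu, hγP _ (hst g hg u hu), hγP u hu, hβe g hg]
  obtain ⟨θ', hθ'⟩ := h n σ hσ hact γ hγe
  refine hmax U' ⟨hst, θ + θ' ∘ₗ P, fun u hu => ?_⟩ hlt
  rw [trS_add, LinearMap.add_apply]
  have h3 : trS N S R (θ' ∘ₗ P) u = γ (P u) := by
    rw [hθ', trS, trS, LinearMap.sum_apply, LinearMap.sum_apply]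
    refine Finset.sum_congr rfl fun g hg => ?_
    have hg' := N.inv_mem (Finset.mem_filter.1 hg).2
    rw [hc_apply, hc_apply, LinearMap.comp_apply, ofRep_mem σ hg', heq _ hg' u hu]
  rw [h3, hγP u hu, hβ, LinearMap.sub_apply]
  abel

end Pool.Agent.Lib.P0c8ca5.Rk
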