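import Mathlib
import Pool.Agent.Lib.P0c8ca5R.Defs

/-!
# The data attached to a block with a defect group of order `p`

`D = ⟨x⟩` has order `p`, `N` is its normalizer, `X` a set of representatives of the cosets `g D`,
`b` is the part of the block idempotent `e` of `kA` supported in the centralizer of `D`,
`b = ∑_{q ∈ X ∩ N} q a q⁻¹` and the central element `∑_{q ∈ X} q a q⁻¹` is invertible modulo `e`.
-/

namespace Pool.Agent.Lib.P0c8ca5.Rk

open MonoidAlgebra

variable {p : ℕ} {k : Type*} [Field k] {A : Type*} [Group A]

open Classical in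
/-- the data attached to a block `e` with a defect group `D = ⟨x⟩` of order `p` -/
structure Data (p : ℕ) (e a b : MonoidAlgebra k A) (x : A) (D N : Subgroup A) (X : Finset A) :
    Prop where
  ord : orderOf x = p
  hD : D = Subgroup.zpowers x
  hN : N = Subgroup.normalizer (D : Set A)
  reps : Reps X ⊤ D
  blk : IsBlock ⊤ e
  br : HasBr D e
  bsupp : SuppIn (Subgroup.centralizer (D : Set A)) b
  binv : InvBy N b
  bb : b * b = b
  be : ∀ c ∈ Subgroup.centralizer (D : Set A), b.coeff c = e.coeff c
  asupp : SuppIn (Subgroup.centralizer (D : Set A)) a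
  ab : a * b = a
  trb : ∑ q ∈ X.filter (fun q => q ∈ N), cj q a = b
  unit : ∃ w ∈ fixAlg k ⊤ ⊤, (∑ q ∈ X, cj q a) * w * e = e

section
variable {e a b : MonoidAlgebra k A} {x : A} {D N : Subgroup A} {X : Finset A}

theorem Data.mem (h : Data p e a b x D N X) : x ∈ D := by
  rw [h.hD]; exact Subgroup.mem_zpowers x

theorem Data.le (h : Data p e a b x D N X) : D ≤ N := by
  rw [h.hN]; exact Subgroup.le_normalizer

theorem Data.card (h : Data p e a b x D N X) : Nat.card D = p := by
  rw [h.hD, Nat.card_zpowers, h.ord]

theorem Data.isPGroup [Fact p.Prime] (h : Data p e a b x D N X) : IsPGroup p D :=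
  IsPGroup.of_card (n := 1) (by rw [h.card, pow_one])

theorem Data.cent_le (h : Data p e a b x D N X) : Subgroup.centralizer (D : Set A) ≤ N := by
  rw [h.hN]; exact Subgroup.centralizer_le_normalizer _

theorem Data.bN (h : Data p e a b x D N X) : SuppIn N b := h.bsupp.mono h.cent_le

theorem Data.aN (h : Data p e a b x D N X) : SuppIn N a := h.asupp.mono h.cent_le

theorem Data.ainv (h : Data p e a b x D N X) : InvBy D a := invBy_of_supp h.asupp

end

end Pool.Agent.Lib.P0c8ca5.Rk
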