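import Mathlib
import Pool.Agent.Lib.P0c8ca5R.PartA2
import Pool.Agent.Lib.P0c8ca5R.Dev1

/-!
# Module PartA: every irreducible `ρ` in `e` is related to some irreducible `τ` of `N` in `b`

PROOF. Suppose not; `R = ofRep ρ`.  `W = range (ac R b)` is an `N`-stable submodule of `Fin n → k`
(`ac_eqv`, `h.bN`, `h.binv`); let `S g` be the restriction of `R g` to `W` for `g ∈ N` and `0`
otherwise: `IsRep N S`, `ac S b = 1` (`b * b = b`, `ac_mul`).  The inclusion `ι : W → V` is
`N`-equivariant, so by `dev1` `ι = trS N S R θ`.  `ac R b = ι ∘ β` with `β : V → W`, `v ↦ ac R b v`,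
`N`-equivariant, so `ac R b = trS N S R θ ∘ β = trS N R R (θ ∘ β)` (`trS_comp_right`), contradiction
to `partA2`.
-/

namespace Pool.Agent.Lib.P0c8ca5.Rk

open MonoidAlgebra

variable {p : ℕ} {k : Type*} [Field k] {A : Type*} [Group A]

theorem partA [Fact p.Prime] [CharP k p] [IsAlgClosed k] [Fintype A] {e a b : MonoidAlgebra k A}
    {x : A} {D N : Subgroup A} {X : Finset A} (h : Data p e a b x D N X) {n : ℕ}
    (ρ : Rp k (⊤ : Subgroup A) n) (hρ : Irr' ρ) (he : act ρ e = 1) :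
    ∃ (m : ℕ) (τ : Rp k N m), Irr' τ ∧ act τ b = 1 ∧ ∃ α : (Fin m → k) →ₗ[k] (Fin n → k),
      Eqv N (ofRep τ) (ofRep ρ) α ∧ ¬ InP N (ofRep τ) (ofRep ρ) α := by
  classical
  by_contra hcon
  have hcon' : ∀ (m : ℕ) (τ : Rp k N m), Irr' τ → act τ b = 1 → ∀ α : (Fin m → k) →ₗ[k] (Fin n → k),
      Eqv N (ofRep τ) (ofRep ρ) α → InP N (ofRep τ) (ofRep ρ) α := by
    intro m τ h1 h2 α h3
    by_contra h4
    exact hcon ⟨m, τ, h1, h2, α, h3, h4⟩
  have hR : IsRep ⊤ (ofRep ρ) := isRep_ofRep ρ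
  have hRN : IsRep N (ofRep ρ) := hR.mono le_top
  have hbN : SuppIn N b := h.bN
  have hbT : SuppIn (⊤ : Subgroup A) b := fun y _ => Subgroup.mem_top y
  have hE : Eqv N (ofRep ρ) (ofRep ρ) (ac (ofRep ρ) b) := ac_eqv hR le_top hbT h.binv
  have hst : ∀ g ∈ N, ∀ w ∈ LinearMap.range (ac (ofRep ρ) b),
      ofRep ρ g w ∈ LinearMap.range (ac (ofRep ρ) b) := by
    rintro g hg w ⟨v, rfl⟩
    exact ⟨ofRep ρ g v, hE g hg v⟩
  set S : A → Module.End k (LinearMap.range (ac (ofRep ρ) b)) := fun g =>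
    if hg : g ∈ N then (ofRep ρ g).restrict (hst g hg) else 0 with hSdef
  have hSap : ∀ g ∈ N, ∀ w, ((S g w : LinearMap.range (ac (ofRep ρ) b)) : Fin n → k) =
      ofRep ρ g (w : Fin n → k) := by
    intro g hg w
    rw [hSdef]
    simp only [dif_pos hg]
    rfl
  have hS : IsRep N S := by
    refine ⟨?_, ?_⟩
    · apply LinearMap.ext
      intro w
      apply Subtype.ext
      rw [hSap 1 N.one_mem, hR.one]
      rfl
    · intro g hg g' hg'
      apply LinearMap.ext
      intro w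
      apply Subtype.ext
      rw [hSap _ (N.mul_mem hg hg'), hRN.mul g hg g' hg', Module.End.mul_apply, Module.End.mul_apply,
        hSap g hg, hSap g' hg']
  have hι : Eqv N S (ofRep ρ) (LinearMap.range (ac (ofRep ρ) b)).subtype := fun g hg w => hSap g hg w
  have hidem : ac (ofRep ρ) b * ac (ofRep ρ) b = ac (ofRep ρ) b := by
    rw [← ac_mul hR hbT hbT, h.bb]
  have hSb : ac S b = 1 := by
    apply LinearMap.ext
    intro w
    apply Subtype.ext
    have h1 := LinearMap.congr_fun (comp_ac hι hbN) w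
    rw [LinearMap.comp_apply, LinearMap.comp_apply, Submodule.subtype_apply, Submodule.subtype_apply] at h1
    rw [h1]
    obtain ⟨w, v, rfl⟩ := w
    have h2 := LinearMap.congr_fun hidem v
    rw [Module.End.mul_apply] at h2
    exact h2
  obtain ⟨θ, hθ⟩ := (dev1 hbN hRN hcon' hS hSb hι).comp_right
    (φ := (ac (ofRep ρ) b).rangeRestrict) (R := ofRep ρ) (by
      intro g hg v
      apply Subtype.ext
      rw [hSap g hg]
      exact hE g hg v)
  refine partA2 h ρ hρ he θ ?_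
  rw [← hθ]
  rfl

end Pool.Agent.Lib.P0c8ca5.Rk
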