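import Mathlib
import Pool.Agent.Lib.P0c8ca5R.Defs

/-!
# Module Coind: the induced representation

CONSTRUCTION. `Y = {F : A → W | F (n g) = T n (F g) for n ∈ N, g ∈ A}`, `(R h F) g = F (g h)`,
`i w g = T g w` for `g ∈ N` and `0` otherwise, `r F = F 1`.
* `i` is `N`-equivariant: `(R n (i w)) g = i w (g n) = T (g n) w = T g (T n w) = i (T n w) g` (both `0`
  for `g ∉ N`).  `r (R n F) = F n = T n (F 1)`.
* `r (ac R c (i w)) = ∑_h c h • (i w) h = ∑_{h ∈ N} c h • T h w = ac T (resS N c) w`.
-/

namespace Pool.Agent.Lib.P0c8ca5.Rk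

open MonoidAlgebra

variable {p : ℕ} {k : Type*} [Field k] {A : Type*} [Group A]
variable {W : Type*} [AddCommGroup W] [Module k W]

theorem exists_coind [Fintype A] {N : Subgroup A} {T : A → Module.End k W} (hT : IsRep N T) :
    ∃ (Y : Submodule k (A → W)) (R : A → Module.End k Y) (i : W →ₗ[k] Y) (r : Y →ₗ[k] W),
      IsRep ⊤ R ∧ Eqv N T R i ∧ Eqv N R T r ∧
      ∀ (c : MonoidAlgebra k A) (w : W), r (ac R c (i w)) = ac T (resS (N : Set A) c) w := by
  classical
  let Y : Submodule k (A → W) :=
    { carrier := {F | ∀ n ∈ N, ∀ g, F (n * g) = T n (F g)}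
      add_mem' := by
        intro F F' hF hF' n hn g
        change F (n * g) + F' (n * g) = T n (F g + F' g)
        rw [hF n hn g, hF' n hn g, map_add]
      zero_mem' := by
        intro n _ g
        change (0 : W) = T n 0
        rw [map_zero]
      smul_mem' := by
        intro c F hF n hn g
        change c • F (n * g) = T n (c • F g)
        rw [hF n hn g, map_smul] }
  let R : A → Module.End k Y := fun h =>
    { toFun := fun F => ⟨fun g => F.1 (g * h), fun n hn g => by
        change F.1 (n * g * h) = T n (F.1 (g * h))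
        rw [mul_assoc]
        exact F.2 n hn (g * h)⟩
      map_add' := fun F F' => rfl
      map_smul' := fun c F => rfl }
  have hRapp : ∀ h (F : Y) g, (R h F).1 g = F.1 (g * h) := fun _ _ _ => rfl
  let i : W →ₗ[k] Y :=
    { toFun := fun w => ⟨fun g => if g ∈ N then T g w else 0, fun n hn g => by
        change (if n * g ∈ N then T (n * g) w else 0) = T n (if g ∈ N then T g w else 0)
        by_cases hg : g ∈ N
        · rw [if_pos hg, if_pos (N.mul_mem hn hg), hT.mul n hn g hg]
          rfl
        · have h1 : n * g ∉ N := fun h => hg ((N.mul_mem_cancel_left hn).1 h)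
          rw [if_neg hg, if_neg h1, map_zero]⟩
      map_add' := fun w w' => by
        apply Subtype.ext
        funext g
        change (if g ∈ N then T g (w + w') else 0) =
          (if g ∈ N then T g w else 0) + (if g ∈ N then T g w' else 0)
        split_ifs
        · rw [map_add]
        · rw [add_zero]
      map_smul' := fun c w => by
        apply Subtype.ext
        funext g
        change (if g ∈ N then T g (c • w) else 0) = c • (if g ∈ N then T g w else 0)
        split_ifs
        · rw [map_smul]
        · rw [smul_zero] }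
  have hiapp : ∀ w g, (i w).1 g = if g ∈ N then T g w else 0 := fun _ _ => rfl
  let r : Y →ₗ[k] W :=
    { toFun := fun F => F.1 1
      map_add' := fun _ _ => rfl
      map_smul' := fun _ _ => rfl }
  have hrapp : ∀ F : Y, r F = F.1 1 := fun _ => rfl
  refine ⟨Y, R, i, r, ⟨?_, ?_⟩, ?_, ?_, ?_⟩
  · apply LinearMap.ext
    intro F
    apply Subtype.ext
    funext g
    rw [hRapp, mul_one]
    rfl
  · intro a _ c _
    apply LinearMap.ext
    intro F
    apply Subtype.ext
    funext g
    rw [hRapp, Module.End.mul_apply, hRapp, hRapp, mul_assoc]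
  · intro n hn w
    apply Subtype.ext
    funext g
    rw [hRapp, hiapp, hiapp]
    by_cases hg : g ∈ N
    · rw [if_pos hg, if_pos (N.mul_mem hg hn), hT.mul g hg n hn]
      rfl
    · have h1 : g * n ∉ N := fun h => hg ((N.mul_mem_cancel_right hn).1 h)
      rw [if_neg hg, if_neg h1]
  · intro n hn F
    rw [hrapp, hrapp, hRapp, one_mul]
    have h1 := F.2 n hn 1
    rw [mul_one] at h1
    exact h1
  · intro c w
    rw [ac, ac, LinearMap.sum_apply, LinearMap.sum_apply, map_sum]
    refine Finset.sum_congr rfl fun g _ => ?_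
    rw [LinearMap.smul_apply, LinearMap.smul_apply, map_smul, hrapp, hRapp, one_mul, hiapp,
      coeff_resS]
    by_cases hg : g ∈ N
    · rw [if_pos hg, if_pos (show g ∈ (N : Set A) from hg)]
    · rw [if_neg hg, if_neg (show g ∉ (N : Set A) from hg), smul_zero, zero_smul]

end Pool.Agent.Lib.P0c8ca5.Rk
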