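import Mathlib
import Pool.Agent.Lib.P0c8ca5R.Comp
import Pool.Agent.Lib.P0c8ca5R.Ac
import Pool.Agent.Lib.P0c8ca5R.Tr

/-!
# Module Dev2: devissage in the second variable

Suppose all `N`-homomorphisms `T → ρ` are full traces over `N` for all irreducible representations
`ρ` of `A` with `act ρ e = 1`.  Then the same holds for every finite dimensional representation `R`
of `A` with `ac R e = 1`.

PROOF. Let `α : W → V` be `N`-equivariant.  Among the `A`-stable submodules `U` of `V` for which there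
is `θ` with `α w - (trS N T R θ) w ∈ U` for all `w` choose a minimal one (`⊤` is one, `V` is finite
dimensional).  Suppose `U ≠ ⊥`; let `β = α - trS N T R θ`, an `N`-equivariant map with image in `U`.
`exists_irr_quot` in P0c8ca5.Rep applied to the representation `U` (`subRep`) gives an `A`-stable
`U' < U` with `U / U'` irreducible; transport the quotient to `Fin n → k` (`trRep`): `ρ` irreducible,
`π : U → (Fin n → k)` `A`-equivariant, surjective with kernel `U'`, `act ρ e = 1` as `ac R e = 1`.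
`π ∘ β` is `N`-equivariant, so `π ∘ β = trS N T (ofRep ρ) θ̄`.  Lift `θ̄` along the surjection `π` to a
linear map `θ'' : W → U ⊆ V` (`π ∘ θ'' = θ̄`).  Then `π (β w - (trS N T R θ'') w) = 0`, i.e.
`α - trS N T R (θ + θ'')` has image in `U'`: contradiction to minimality.  So `U = ⊥` and
`α = trS N T R θ`.
-/

namespace Pool.Agent.Lib.P0c8ca5.Rk

open MonoidAlgebra

variable {p : ℕ} {k : Type*} [Field k] {A : Type*} [Group A]
variable {V W : Type*} [AddCommGroup V] [Module k V] [AddCommGroup W] [Module k W]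

theorem dev2 [Fintype A] {N : Subgroup A} {e : MonoidAlgebra k A}
    {T : A → Module.End k W} (hT : IsRep N T)
    (h : ∀ (n : ℕ) (ρ : Rp k (⊤ : Subgroup A) n), Irr' ρ → act ρ e = 1 →
      ∀ α : W →ₗ[k] (Fin n → k), Eqv N T (ofRep ρ) α → InP N T (ofRep ρ) α)
    [Module.Finite k V] {R : A → Module.End k V} (hR : IsRep ⊤ R) (hRe : ac R e = 1)
    {α : W →ₗ[k] V} (hα : Eqv N T R α) : InP N T R α := by
  classical
  let S : Set (Submodule k V) := {U | (∀ g : A, ∀ u ∈ U, R g u ∈ U) ∧
    ∃ θ : W →ₗ[k] V, ∀ w, α w - trS N T R θ w ∈ U}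
  have hS : S.Nonempty := ⟨⊤, fun _ _ _ => Submodule.mem_top, 0, fun _ => Submodule.mem_top⟩
  obtain ⟨U, ⟨hU, θ, hθ⟩, hmin⟩ := (wellFounded_lt (α := Submodule k V)).has_min S hS
  by_cases hbot : U = ⊥
  · refine ⟨θ, ?_⟩
    ext w
    have h1 := hθ w
    rw [hbot, Submodule.mem_bot, sub_eq_zero] at h1
    exact h1
  exfalso
  have hnt : Nontrivial U := (Submodule.nontrivial_iff_ne_bot).2 hbot
  have hU1 : ∀ (g : (⊤ : Subgroup A)), ∀ u ∈ U, toRep hR g u ∈ U := fun g u hu => hU g u hu
  obtain ⟨U', hU', hirr⟩ := exists_irr_quot (subRep (toRep hR) U hU1)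
  set n := Module.finrank k (U ⧸ U') with hn
  let E : (U ⧸ U') ≃ₗ[k] (Fin n → k) := (Module.finBasis k (U ⧸ U')).equivFun
  let ρ : Rp k (⊤ : Subgroup A) n := trRep (quotRep (subRep (toRep hR) U hU1) U' hU') E
  have hρ : Irr' ρ := hirr.trRep E
  let π : U →ₗ[k] (Fin n → k) := E.toLinearMap ∘ₗ U'.mkQ
  have hπs : Function.Surjective π := E.surjective.comp (Submodule.mkQ_surjective U')
  have hπk : ∀ z : U, π z = 0 → z ∈ U' := by
    intro z hz
    have h1 : E (U'.mkQ z) = 0 := hz
    have h2 : U'.mkQ z = 0 := by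
      apply E.injective
      rw [h1, map_zero]
    exact (Submodule.Quotient.mk_eq_zero U').1 h2
  have hP : ∀ (g : A) (u : U), ofRep ρ g (π u) = π ⟨R g u, hU g u u.2⟩ := by
    intro g u
    rw [ofRep_mem ρ (Subgroup.mem_top g)]
    change trRep (quotRep (subRep (toRep hR) U hU1) U' hU') E ⟨g, _⟩ (E (U'.mkQ u)) = _
    rw [trRep_apply]
    rfl
  have hact : act ρ e = 1 := by
    rw [← ac_ofRep]
    apply LinearMap.ext
    intro v
    obtain ⟨u, rfl⟩ := hπs v
    rw [ac, LinearMap.sum_apply]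
    have h1 : ∀ g : A, (e.coeff g • ofRep ρ g) (π u) = π (e.coeff g • ⟨R g u, hU g u u.2⟩) := by
      intro g
      rw [LinearMap.smul_apply, hP, map_smul]
    rw [Finset.sum_congr rfl (fun g _ => h1 g), ← map_sum]
    change _ = π u
    congr 1
    apply Subtype.ext
    rw [Submodule.coe_sum]
    have h2 : ac R e (u : V) = u := by rw [hRe]; rfl
    conv_rhs => rw [← h2]
    rw [ac, LinearMap.sum_apply]
    rfl
  have hβe : Eqv N T R (α - trS N T R θ) := hα.sub (trS_eqv hT (hR.mono le_top) θ)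
  let β : W →ₗ[k] U := LinearMap.codRestrict U (α - trS N T R θ) hθ
  have hβ : ∀ w, ((β w : U) : V) = α w - trS N T R θ w := fun w => rfl
  have hπβ : Eqv N T (ofRep ρ) (π ∘ₗ β) := by
    intro g hg w
    change π (β (T g w)) = ofRep ρ g (π (β w))
    rw [hP]
    congr 1
    apply Subtype.ext
    exact hβe g hg w
  obtain ⟨θb, hθb⟩ := h n ρ hρ hact _ hπβ
  obtain ⟨θU, hθU⟩ := Module.projective_lifting_property π LinearMap.id hπs
  let θ1 : W →ₗ[k] U := θU ∘ₗ θb
  have hθ1 : ∀ w, π (θ1 w) = θb w := fun w => LinearMap.congr_fun hθU (θb w)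
  let θ2 : W →ₗ[k] V := U.subtype ∘ₗ θ1
  have hmem : U'.map U.subtype ∈ S := by
    refine ⟨?_, θ + θ2, ?_⟩
    · rintro g _ ⟨u, hu, rfl⟩
      exact ⟨_, hU' ⟨g, Subgroup.mem_top g⟩ u hu, rfl⟩
    · intro w
      let z : U := β w - ∑ g ∈ Finset.univ.filter (fun g => g ∈ N),
        ⟨R g (θ1 (T g⁻¹ w)), hU g _ (θ1 (T g⁻¹ w)).2⟩
      have hz : ((z : U) : V) = α w - trS N T R (θ + θ2) w := by
        rw [trS_add, LinearMap.add_apply]
        change ((β w : U) : V) - ((∑ g ∈ Finset.univ.filter (fun g => g ∈ N),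
          (⟨R g (θ1 (T g⁻¹ w)), hU g _ (θ1 (T g⁻¹ w)).2⟩ : U) : U) : V) = _
        rw [hβ, Submodule.coe_sum, sub_add_eq_sub_sub]
        congr 1
        rw [trS, LinearMap.sum_apply]
        refine Finset.sum_congr ?_ (fun g _ => rfl)
        ext g
        simp
      have hzk : π z = 0 := by
        change π (β w - ∑ g ∈ Finset.univ.filter (fun g => g ∈ N),
          (⟨R g (θ1 (T g⁻¹ w)), hU g _ (θ1 (T g⁻¹ w)).2⟩ : U)) = 0
        rw [map_sub, map_sum, sub_eq_zero]
        have h1 : π (β w) = trS N T (ofRep ρ) θb w := LinearMap.congr_fun hθb w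
        rw [h1, trS, LinearMap.sum_apply]
        refine Finset.sum_congr ?_ (fun g _ => ?_)
        · ext g
          simp
        · rw [← hP, hθ1]
          rfl
      rw [← hz]
      exact ⟨z, hπk z hzk, rfl⟩
  have hlt : U'.map U.subtype < U := by
    refine lt_of_le_of_ne (Submodule.map_subtype_le U U') ?_
    intro heq
    have htop : U' = ⊤ := by
      rw [eq_top_iff]
      intro u _
      have h1 : (u : V) ∈ U'.map U.subtype := by rw [heq]; exact u.2
      obtain ⟨u', hu', h2⟩ := h1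
      have h3 : u' = u := Subtype.ext h2
      rwa [← h3]
    have h4 := hirr.nontriv
    rw [Submodule.Quotient.nontrivial_iff] at h4
    exact h4 htop
  exact hmin _ hmem hlt

end Pool.Agent.Lib.P0c8ca5.Rk
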