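import Mathlib
import Pool.Agent.Lib.P0c8ca5R.Defs
import Pool.Agent.Lib.P0c8ca5R.Tr
import Pool.Agent.Lib.P0c8ca5N.Rad

/-!
# Module Triv: normal p-subgroups

* `irr_trivial`: a normal p-subgroup `Q` of `K` acts trivially on every irreducible finite
  dimensional representation of `K` in characteristic `p`: the subspace of the `Q`-fixed vectors is
  `K`-stable and nonzero (`exists_fixed`, used in P0c8ca5N.Rad; or `IsPGroup` acting on a nonzero
  `k[Q]`-module), hence everything.
* `trS_eq_zero`: if `x ∈ K` has order `p`, `T x = 1` and `T' x = 1`, then every full trace over `K`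
  from `T` to `T'` is zero: `hc (g x) θ = hc g (hc x θ) = hc g θ`, so the terms of the sum are constant on
  the cosets `g ⟨x⟩`, which have `p` elements (or: `∑_{g ∈ K} hc g θ = RT Y (trS ⟨x⟩ θ)` and
  `trS ⟨x⟩ θ = p • θ = 0`).
* `sum_cj_fixed`: if `T x = 1` for all `x` in the p-subgroup `Q` of `N` and `c` is `Q`-invariant with support in
  `N`, `N` normalizes `Q`, then only the part of `c` in the centralizer of `Q` matters: `Q` acts on
  `N` by conjugation, `T (d g d⁻¹) = T g` (as `g⁻¹ d g ∈ Q` acts trivially), now use `sum_conj_eq` of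
  P0c8ca5.Basic (applied to the matrix coefficients, or to `sum_eq_sum_fixed`).
-/

namespace Pool.Agent.Lib.P0c8ca5.Rk

open MonoidAlgebra

variable {p : ℕ} {k : Type*} [Field k] {A : Type*} [Group A]
variable {V V' : Type*} [AddCommGroup V] [Module k V] [AddCommGroup V'] [Module k V']

theorem irr_trivial [Fact p.Prime] [CharP k p] [Fintype A] {K Q : Subgroup A} (hQK : Q ≤ K)
    (hn : K ≤ Subgroup.normalizer (Q : Set A)) (hQ : IsPGroup p Q) [Module.Finite k V]
    {T : A → Module.End k V} (hT : IsRep K T) (hirr : Irr K T) : ∀ d ∈ Q, T d = 1 := by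
  obtain ⟨hnt, hsub⟩ := hirr
  obtain ⟨x, hx⟩ := exists_ne (0 : V)
  let φ : Q →* Module.End k V :=
    { toFun := fun g => T g
      map_one' := hT.one
      map_mul' := fun a b => hT.mul a (hQK a.2) b (hQK b.2) }
  obtain ⟨y, hy0, hy, -⟩ := exists_fixed (k := k) hQ φ x hx
  let W : Submodule k V :=
    { carrier := {v | ∀ d ∈ Q, T d v = v}
      add_mem' := by
        intro a b ha hb d hd
        rw [map_add, ha d hd, hb d hd]
      zero_mem' := by
        intro d _
        exact map_zero _
      smul_mem' := by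
        intro c v hv d hd
        rw [map_smul, hv d hd] }
  have hW : ∀ g ∈ K, ∀ w ∈ W, T g w ∈ W := by
    intro g hg w hw d hd
    have hg' : g⁻¹ ∈ Subgroup.normalizer (Q : Set A) := inv_mem (hn hg)
    have h1 : g⁻¹ * d * g ∈ Q := by
      have := (Subgroup.mem_normalizer_iff.1 hg' d).1 hd
      rwa [inv_inv] at this
    have h2 : T d (T g w) = T g (T (g⁻¹ * d * g) w) := by
      rw [← Module.End.mul_apply, ← Module.End.mul_apply, ← hT.mul d (hQK hd) g hg,
        ← hT.mul g hg _ (hQK h1)]
      congr 2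
      group
    rw [h2, hw _ h1]
  rcases hsub W hW with h | h
  · exfalso
    have : y ∈ W := fun d hd => hy ⟨d, hd⟩
    rw [h, Submodule.mem_bot] at this
    exact hy0 this
  · intro d hd
    ext v
    have : v ∈ W := by rw [h]; trivial
    exact this d hd

theorem trS_eq_zero [Fact p.Prime] [CharP k p] [Fintype A] {K : Subgroup A} {x : A} (hx : x ∈ K)
    (hord : orderOf x = p) {T : A → Module.End k V} {T' : A → Module.End k V'} (hT : IsRep K T)
    (hT' : IsRep K T') (h1 : T x = 1) (h2 : T' x = 1) (θ : V →ₗ[k] V') : trS K T T' θ = 0 := by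
  classical
  have hle : Subgroup.zpowers x ≤ K := by
    rw [Subgroup.zpowers_le]
    exact hx
  have hz : ∀ d ∈ Subgroup.zpowers x, ∃ n : ℕ, d = x ^ n := by
    intro d hd
    obtain ⟨n, hn⟩ := (mem_powers_iff_mem_zpowers.2 hd)
    exact ⟨n, hn.symm⟩
  have hD : trS (Subgroup.zpowers x) T T' θ = 0 := by
    unfold trS
    have : ∀ g ∈ Finset.univ.filter (fun g => g ∈ Subgroup.zpowers x), hc T T' g θ = θ := by
      intro g hg
      have hg1 := (Finset.mem_filter.1 hg).2
      obtain ⟨n, rfl⟩ := hz g hg1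
      obtain ⟨m, hm⟩ := hz _ (Subgroup.inv_mem _ hg1)
      ext v
      rw [hc_apply, hm]
      have a1 : T (x ^ m) = 1 := by
        clear hm
        induction m with
        | zero => rw [pow_zero, hT.one]
        | succ n ih => rw [pow_succ, hT.mul _ (K.pow_mem hx n) _ hx, ih, h1, one_mul]
      have a2 : T' (x ^ n) = 1 := by
        clear hm hg1 hg
        induction n with
        | zero => rw [pow_zero, hT'.one]
        | succ n ih => rw [pow_succ, hT'.mul _ (K.pow_mem hx n) _ hx, ih, h2, one_mul]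
      rw [a1, a2]
      rfl
    rw [Finset.sum_congr rfl this, Finset.sum_const]
    have hcard : (Finset.univ.filter (fun g => g ∈ Subgroup.zpowers x)).card = p := by
      rw [← hord, ← Nat.card_zpowers, Nat.card_eq_fintype_card, Fintype.card_subtype]
    rw [hcard, ← Nat.cast_smul_eq_nsmul k, CharP.cast_eq_zero, zero_smul]
  obtain ⟨X, hX⟩ := exists_reps hle
  rw [← RT_trS hX hle hT hT' θ, hD, RT]
  exact Finset.sum_eq_zero fun q _ => hc_zero q

theorem sum_cj_fixed [Fact p.Prime] [CharP k p] [Fintype A] {N Q : Subgroup A} (hQN : Q ≤ N)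
    (hn : N ≤ Subgroup.normalizer (Q : Set A)) (hQ : IsPGroup p Q)
    {T : A → Module.End k V} (hT : IsRep N T) (h1 : ∀ d ∈ Q, T d = 1) {c : MonoidAlgebra k A}
    (hc : SuppIn N c) (hinv : InvBy Q c) :
    ac T c = ac T (resS (Subgroup.centralizer (Q : Set A) : Set A) c) := by
  classical
  ext v
  rw [← sub_eq_zero, ← Module.forall_dual_apply_eq_zero_iff k]
  intro φ
  rw [map_sub, sub_eq_zero]
  have e1 : ∀ c : MonoidAlgebra k A, φ (ac T c v) = ∑ g, c.coeff g * φ (T g v) := by
    intro c
    rw [ac, LinearMap.sum_apply, map_sum]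
    refine Finset.sum_congr rfl fun g _ => ?_
    rw [LinearMap.smul_apply, map_smul, smul_eq_mul]
  rw [e1, e1]
  have e2 : ∀ g, (resS (Subgroup.centralizer (Q : Set A) : Set A) c).coeff g * φ (T g v) =
      if g ∈ Subgroup.centralizer (Q : Set A) then c.coeff g * φ (T g v) else 0 := by
    intro g
    rw [coeff_resS]
    by_cases h : g ∈ Subgroup.centralizer (Q : Set A)
    · rw [if_pos (SetLike.mem_coe.2 h), if_pos h]
    · rw [if_neg (fun h' => h (SetLike.mem_coe.1 h')), if_neg h, zero_mul]
  rw [Finset.sum_congr rfl fun g _ => e2 g, ← Finset.sum_filter]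
  refine sum_conj_eq (p := p) hQ (fun g => c.coeff g * φ (T g v)) ?_ _ ?_
  · intro d hd x
    show c.coeff (d * x * d⁻¹) * φ (T (d * x * d⁻¹) v) = c.coeff x * φ (T x v)
    rw [hinv d hd x]
    by_cases hx : c.coeff x = 0
    · rw [hx, zero_mul, zero_mul]
    · have hxN := hc x hx
      have hdN := hQN hd
      rw [hT.mul _ (N.mul_mem hdN hxN) _ (N.inv_mem hdN), hT.mul _ hdN _ hxN, h1 d hd,
        h1 _ (Q.inv_mem hd), one_mul, mul_one]
  · intro x
    simp

end Pool.Agent.Lib.P0c8ca5.Rk
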