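import Mathlib

/-!
# Module LA: linear algebra of nilpotent endomorphisms

PROOF of `exists_phi0`. Choose a linear `s : T → V'` with `y' ^ (l - 1) (s t) = al' t` (the map
`y' ^ (l-1)` is surjective onto its range, which contains the image of `al'`; over a field choose a
linear section, e.g. `LinearMap.exists_rightInverse_of_surjective` for `rangeRestrict`).  Put
`φ v = ∑_{i < l} y' ^ i (s (h (y ^ (l - 1 - i) v)))`.
* `φ (y v)`: the term `i = 0` is `s (h (y ^ l v)) = 0`, the others are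
  `y' ^ i s (h (y ^ (l - i) v))`, `1 ≤ i < l`.  `y' (φ v)`: the terms are `y' ^ (i+1) s (h (y ^ (l-1-i) v))`,
  `0 ≤ i < l`, and the last one, `i + 1 = l`, is `y' (al' (h v)) = 0`.  They agree.
* if `y v = 0` only the term `i = l - 1` remains: `φ v = y' ^ (l-1) s (h v) = al' (h v)`.  For
  `v = al t` this is `al' t`.
PROOF of `exists_h`: `al` is injective and its range is disjoint from `U`: on
`range al ⊕ U` (or on the quotient `V ⧸ U`, in which `al` stays injective) take the left inverse and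
extend it linearly (`LinearMap.exists_leftInverse_of_injective` for `U.mkQ ∘ al`).
-/

namespace Pool.Agent.Lib.P0c8ca5.Rk

variable {k : Type*} [Field k] {T V V' : Type*} [AddCommGroup T] [Module k T] [AddCommGroup V]
  [Module k V] [AddCommGroup V'] [Module k V']

theorem exists_h (al : T →ₗ[k] V) (hinj : Function.Injective al) (U : Submodule k V)
    (hd : Disjoint (LinearMap.range al) U) :
    ∃ h : V →ₗ[k] T, (∀ t, h (al t) = t) ∧ ∀ u ∈ U, h u = 0 := by
  have hk : LinearMap.ker (U.mkQ ∘ₗ al) = ⊥ := by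
    rw [LinearMap.ker_eq_bot']
    intro t ht
    have h1 : al t ∈ U := by
      rw [LinearMap.comp_apply, Submodule.mkQ_apply, Submodule.Quotient.mk_eq_zero] at ht
      exact ht
    have h2 : al t ∈ (LinearMap.range al ⊓ U : Submodule k V) := ⟨⟨t, rfl⟩, h1⟩
    rw [disjoint_iff.1 hd, Submodule.mem_bot] at h2
    exact hinj (h2.trans (map_zero al).symm)
  obtain ⟨g, hg⟩ := LinearMap.exists_leftInverse_of_injective _ hk
  refine ⟨g ∘ₗ U.mkQ, fun t => ?_, fun u hu => ?_⟩
  · exact LinearMap.congr_fun hg t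
  · rw [LinearMap.comp_apply, Submodule.mkQ_apply, (Submodule.Quotient.mk_eq_zero U).2 hu, map_zero]

theorem exists_phi0 (y : Module.End k V) (y' : Module.End k V') (al : T →ₗ[k] V)
    (al' : T →ₗ[k] V') (l : ℕ) (hl : 0 < l) (hyal : ∀ t, y (al t) = 0)
    (hyal' : ∀ t, y' (al' t) = 0) (him : ∀ t, ∃ v, (y' ^ (l - 1)) v = al' t)
    (h : V →ₗ[k] T) (hh : ∀ t, h (al t) = t) (hhy : ∀ v, h ((y ^ l) v) = 0) :
    ∃ φ : V →ₗ[k] V', (∀ v, φ (y v) = y' (φ v)) ∧ (∀ t, φ (al t) = al' t) ∧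
      ∀ v, y v = 0 → h v = 0 → φ v = 0 := by
  obtain ⟨m, rfl⟩ : ∃ m, l = m + 1 := ⟨l - 1, by omega⟩
  rw [Nat.add_sub_cancel] at him
  obtain ⟨g, hg⟩ := LinearMap.exists_rightInverse_of_surjective (y' ^ m).rangeRestrict
    (LinearMap.range_rangeRestrict _)
  let s : T →ₗ[k] V' := g ∘ₗ al'.codRestrict (LinearMap.range (y' ^ m)) him
  have hs : ∀ t, (y' ^ m) (s t) = al' t := by
    intro t
    have h1 := LinearMap.congr_fun hg (al'.codRestrict (LinearMap.range (y' ^ m)) him t)
    exact congrArg Subtype.val h1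
  let φ : V →ₗ[k] V' := ∑ i ∈ Finset.range (m + 1), (y' ^ i) ∘ₗ s ∘ₗ h ∘ₗ (y ^ (m - i))
  have hφ : ∀ v, φ v = ∑ i ∈ Finset.range (m + 1), (y' ^ i) (s (h ((y ^ (m - i)) v))) := by
    intro v
    change (∑ i ∈ Finset.range (m + 1), (y' ^ i) ∘ₗ s ∘ₗ h ∘ₗ (y ^ (m - i))) v = _
    rw [LinearMap.sum_apply]
    rfl
  have hker : ∀ v, y v = 0 → φ v = al' (h v) := by
    intro v hv
    rw [hφ, Finset.sum_range_succ, Finset.sum_eq_zero, zero_add, Nat.sub_self, pow_zero,
      Module.End.one_apply, hs]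
    intro i hi
    rw [Finset.mem_range] at hi
    obtain ⟨j, hj⟩ : ∃ j, m - i = j + 1 := ⟨m - i - 1, by omega⟩
    rw [hj, pow_succ, Module.End.mul_apply, hv, map_zero, map_zero, map_zero, map_zero]
  refine ⟨φ, fun v => ?_, fun t => ?_, fun v hv hv' => ?_⟩
  · rw [hφ, hφ, map_sum, Finset.sum_range_succ', Finset.sum_range_succ]
    have h0 : (y' ^ 0) (s (h ((y ^ (m - 0)) (y v)))) = 0 := by
      have h1 : (y ^ (m - 0)) (y v) = (y ^ (m + 1)) v := by
        rw [Nat.sub_zero, pow_succ, Module.End.mul_apply]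
      rw [h1, hhy, map_zero, map_zero]
    have h2 : y' ((y' ^ m) (s (h ((y ^ (m - m)) v)))) = 0 := by
      rw [hs, hyal']
    rw [h0, h2, add_zero, add_zero]
    refine Finset.sum_congr rfl fun i hi => ?_
    rw [Finset.mem_range] at hi
    have h3 : (y ^ (m - (i + 1))) (y v) = (y ^ (m - i)) v := by
      have : m - i = (m - (i + 1)) + 1 := by omega
      rw [this, pow_succ, Module.End.mul_apply]
    rw [h3, pow_succ', Module.End.mul_apply]
  · rw [hker _ (hyal t), hh]
  · rw [hker v hv, hv', map_zero]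

end Pool.Agent.Lib.P0c8ca5.Rk
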