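import Mathlib
import Pool.Agent.Lib.P0c8ca5R.Data
import Pool.Agent.Lib.P0c8ca5R.Tr
import Pool.Agent.Lib.P0c8ca5R.Comp
import Pool.Agent.Lib.P0c8ca5R.Ac
import Pool.Agent.Lib.P0c8ca5R.LA

/-!
# Module Ext: extension of an `N`-homomorphism

PROOF. `y = R x - 1`, `y' = R' x - 1`; `y (α t) = 0` and `y' (α' t) = 0` because `T x = 1`.  Take `h₀`
from `exists_h` for `al = α` and `U`; `h₀` vanishes on the range of `y ^ l`.  `exists_phi0` gives
`φ₀ : V → V'` with `φ₀ y = y' φ₀`, so `φ₀ (R x v) = R' x (φ₀ v)` and `φ₀` is `D`-equivariant (`D`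
consists of the powers of `x`), `φ₀ ∘ α = α'`, and `φ₀ u = 0` for `u ∈ U` with `y u = 0`.  Put
`φ = ac R' b ∘ RT X₁ R R' (ac R' a ∘ φ₀)`, `X₁ = X ∩ N` (`Reps.filter`).  It is `N`-equivariant
(`RT_eqv`, `ac_eqv`, `Eqv.comp`), `ac R' b ∘ φ = φ` as `b * b = b` (`ac_mul`).  `φ ∘ α =
ac R' b ∘ RT X₁ (ac R' a ∘ φ₀ ∘ α) = ac R' b ∘ RT X₁ (ac R' a ∘ α') = ac R' b ∘ ac R' b ∘ α'
= α' ∘ ac T b = α'` (`RT_comp_right`, `RT_ac`, `h.trb`, `comp_ac`).  For `u ∈ U` with `R x u = u`: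
every `R q⁻¹ u`, `q ∈ X₁`, is in `U` and fixed by `R x` (`x q⁻¹ = q⁻¹ (q x q⁻¹)`, and `q x q⁻¹ ∈ D` is a
power of `x`, so it fixes `u`), hence `φ₀ (R q⁻¹ u) = 0` and `φ u = 0`.
-/

namespace Pool.Agent.Lib.P0c8ca5.Rk

open MonoidAlgebra

variable {p : ℕ} {k : Type*} [Field k] {A : Type*} [Group A]
variable {V V' W : Type*} [AddCommGroup V] [Module k V] [AddCommGroup V'] [Module k V']
  [AddCommGroup W] [Module k W]

namespace ExtAux

/-- powers of `x` act compatibly -/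
theorem pow_comm {N : Subgroup A} {R : A → Module.End k V} (hR : IsRep N R)
    {R' : A → Module.End k V'} (hR' : IsRep N R') {x : A} (hx : x ∈ N) (φ : V →ₗ[k] V')
    (hφ : ∀ v, φ (R x v) = R' x (φ v)) (n : ℕ) (v : V) : φ (R (x ^ n) v) = R' (x ^ n) (φ v) := by
  induction n generalizing v with
  | zero => rw [pow_zero, hR.one, hR'.one]; rfl
  | succ n ih =>
    rw [pow_succ, hR.mul _ (N.pow_mem hx n) _ hx, hR'.mul _ (N.pow_mem hx n) _ hx,
      Module.End.mul_apply, Module.End.mul_apply, ih, hφ]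

theorem pow_fix {N : Subgroup A} {R : A → Module.End k V} (hR : IsRep N R) {x : A} (hx : x ∈ N)
    {v : V} (hv : R x v = v) (n : ℕ) : R (x ^ n) v = v := by
  induction n with
  | zero => rw [pow_zero, hR.one]; rfl
  | succ n ih => rw [pow_succ, hR.mul _ (N.pow_mem hx n) _ hx, Module.End.mul_apply, hv, ih]

theorem mem_pow [Finite A] {x g : A} {D : Subgroup A} (hD : D = Subgroup.zpowers x) (hg : g ∈ D) :
    ∃ n : ℕ, x ^ n = g := by
  rw [hD] at hg
  exact (mem_powers_iff_mem_zpowers.2 hg)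

end ExtAux

open ExtAux in
theorem ext_hom [Fact p.Prime] [Fintype A] {e a b : MonoidAlgebra k A} {x : A}
    {D N : Subgroup A} {X : Finset A} (h : Data p e a b x D N X) {R : A → Module.End k V}
    (hR : IsRep N R) {R' : A → Module.End k V'} (hR' : IsRep N R') {T : A → Module.End k W}
    (hT : IsRep N T) (hTx : T x = 1) (hTb : ac T b = 1) {α : W →ₗ[k] V} (hα : Eqv N T R α)
    (hinj : Function.Injective α) {α' : W →ₗ[k] V'} (hα' : Eqv N T R' α') {l : ℕ} (hl : 0 < l)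
    (him : ∀ t, ∃ v, ((R' x - 1) ^ (l - 1)) v = α' t) (U : Submodule k V)
    (hU : ∀ g ∈ N, ∀ u ∈ U, R g u ∈ U) (hUl : LinearMap.range ((R x - 1) ^ l) ≤ U)
    (hd : Disjoint (LinearMap.range α) U) :
    ∃ φ : V →ₗ[k] V', Eqv N R R' φ ∧ ac R' b ∘ₗ φ = φ ∧ φ ∘ₗ α = α' ∧
      ∀ u ∈ U, R x u = u → φ u = 0 := by
  classical
  have hxN : x ∈ N := h.le h.mem
  obtain ⟨h₀, hh1, hh2⟩ := exists_h α hinj U hd
  have hyal : ∀ t, (R x - 1) (α t) = 0 := by
    intro t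
    have h1 := hα x hxN t
    rw [hTx, Module.End.one_apply] at h1
    rw [LinearMap.sub_apply, Module.End.one_apply, ← h1, sub_self]
  have hyal' : ∀ t, (R' x - 1) (α' t) = 0 := by
    intro t
    have h1 := hα' x hxN t
    rw [hTx, Module.End.one_apply] at h1
    rw [LinearMap.sub_apply, Module.End.one_apply, ← h1, sub_self]
  obtain ⟨φ₀, hφy, hφα, hφ0⟩ := exists_phi0 (R x - 1) (R' x - 1) α α' l hl hyal hyal' him h₀ hh1
    (fun v => hh2 _ (hUl ⟨v, rfl⟩))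
  have hφx : ∀ v, φ₀ (R x v) = R' x (φ₀ v) := by
    intro v
    have h1 := hφy v
    rw [LinearMap.sub_apply, LinearMap.sub_apply, Module.End.one_apply, Module.End.one_apply,
      map_sub] at h1
    exact sub_left_injective h1
  have hφD : Eqv D R R' φ₀ := by
    intro g hg v
    obtain ⟨n, rfl⟩ := mem_pow h.hD hg
    exact pow_comm hR hR' hxN φ₀ hφx n v
  have haD : Eqv D R' R' (ac R' a) := ac_eqv hR' h.le h.aN h.ainv
  have hreps := Reps.filter h.reps h.le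
  have hXN : ∀ q ∈ X.filter (fun q => q ∈ N), q ∈ N := fun q hq => (Finset.mem_filter.1 hq).2
  have hψ : Eqv N R R' (RT (X.filter (fun q => q ∈ N)) R R' (ac R' a ∘ₗ φ₀)) :=
    RT_eqv hreps h.le hR hR' (haD.comp hφD)
  have hbE : Eqv N R' R' (ac R' b) := ac_eqv hR' le_rfl h.bN h.binv
  have hbb : ac R' b ∘ₗ ac R' b = ac R' b := by
    have h1 := ac_mul hR' h.bN h.bN
    rw [h.bb] at h1
    exact h1.symm
  refine ⟨ac R' b ∘ₗ RT (X.filter (fun q => q ∈ N)) R R' (ac R' a ∘ₗ φ₀), hbE.comp hψ, ?_, ?_, ?_⟩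
  · rw [← LinearMap.comp_assoc, hbb]
  · have h1 : (ac R' a ∘ₗ φ₀) ∘ₗ α = ac R' a ∘ₗ α' := by
      ext t
      simp only [LinearMap.comp_apply, hφα]
    rw [LinearMap.comp_assoc, ← RT_comp_right hXN hα, h1, RT_comp_right hXN hα',
      RT_ac hXN hR' h.aN, h.trb, ← LinearMap.comp_assoc, hbb, ← comp_ac hα' h.bN, hTb]
    rfl
  · intro u hu hxu
    have h1 : ∀ q ∈ N, φ₀ (R q⁻¹ u) = 0 := by
      intro q hq
      have hu' := hU q⁻¹ (N.inv_mem hq) u hu
      refine hφ0 _ ?_ (hh2 _ hu')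
      have h2 : q * x * q⁻¹ ∈ D := by
        have h3 : q ∈ Subgroup.normalizer (D : Set A) := by rw [← h.hN]; exact hq
        exact (Subgroup.mem_normalizer_iff.1 h3 x).1 h.mem
      obtain ⟨n, hn⟩ := mem_pow h.hD h2
      have h4 : R x (R q⁻¹ u) = R q⁻¹ u := by
        rw [← Module.End.mul_apply, ← hR.mul x hxN _ (N.inv_mem hq)]
        have h5 : x * q⁻¹ = q⁻¹ * (q * x * q⁻¹) := by group
        rw [h5, hR.mul _ (N.inv_mem hq) _ (h.le h2), Module.End.mul_apply, ← hn,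
          pow_fix hR hxN hxu n]
      rw [LinearMap.sub_apply, Module.End.one_apply, h4, sub_self]
    rw [LinearMap.comp_apply, RT, LinearMap.sum_apply, map_sum]
    refine Finset.sum_eq_zero (fun q hq => ?_)
    rw [hc_apply, LinearMap.comp_apply, h1 q (hXN q hq), map_zero, map_zero, map_zero]

end Pool.Agent.Lib.P0c8ca5.Rk
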