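import Mathlib
import Pool.Agent.Lib.P0c8ca5R.Data
import Pool.Agent.Lib.P0c8ca5R.Tr
import Pool.Agent.Lib.P0c8ca5R.Comp
import Pool.Agent.Lib.P0c8ca5R.Ac

/-!
# Module Height

Put `y = R x - 1`, `x` the generator of `D`.
* `stable_pow`: `N` normalizes `D = ⟨x⟩`, `g x g⁻¹ = x ^ j`, so `R g y = (R (x ^ j) - 1) R g
  = y (1 + R x + ... + R x ^ (j-1)) R g` and `R g y ^ i V ⊆ y ^ i V` by induction (`y` commutes with
  `R x`; the endomorphisms `R (x ^ j)` are polynomials in `y`).
* `inP_of_range`: `p`-th powers: `∑_{d ∈ D} R d = ∑_{i < p} R x ^ i = (R x - 1) ^ (p-1)` in characteristic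
  `p` (`(t ^ p - 1) = (t - 1) ^ p`, or `(-1)^(p-1-i) * choose (p-1) i = 1` mod `p`).  If
  the image of `α` is in the range of `y ^ (p-1)` choose a linear `s : W → V` with
  `y ^ (p-1) ∘ s = α`.  As `T d = 1` on `W` for `d ∈ D` (all powers of `x`): `trS D T R s = α`.
  Then `α = ac R b ∘ α` (`comp_ac`: `ac R b ∘ α = α ∘ ac T b = α`),
  `ac R b = RT X₁ (ac R a)`, `X₁ = X ∩ N` (`RT_ac`, `h.trb`), so
  `α = RT X₁ (ac R a ∘ α) = RT X₁ (trS D (ac R a ∘ s)) = trS N (ac R a ∘ s)`
  (`RT_comp_right`, `trS_comp_left`, `RT_trS`, `Reps.filter`).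
* `height`: `α` is injective (its kernel is `N`-stable, `α ≠ 0` because `0` is a full trace).  By
  `inP_of_range` the image of `α` is not contained in the range of `y ^ (p-1)`.  Let `l` be the
  least number such that the image of `α` is not contained in the range of `y ^ l`; `l > 0`, the
  image is contained in the range of `y ^ (l-1)`, and the set of the `t` with `α t` in the range of
  `y ^ l` is an `N`-stable proper submodule of `W` (`stable_pow`), hence `⊥`.
-/

namespace Pool.Agent.Lib.P0c8ca5.Rk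

open MonoidAlgebra

variable {p : ℕ} {k : Type*} [Field k] {A : Type*} [Group A]
variable {V W : Type*} [AddCommGroup V] [Module k V] [AddCommGroup W] [Module k W]

private theorem rep_pow {N : Subgroup A} {R : A → Module.End k V} (hR : IsRep N R) {x : A}
    (hx : x ∈ N) (j : ℕ) : R (x ^ j) = R x ^ j := by
  induction j with
  | zero => rw [pow_zero, pow_zero, hR.one]
  | succ j ih => rw [pow_succ, pow_succ, hR.mul _ (N.pow_mem hx j) _ hx, ih]

theorem stable_pow [Fintype A] {x : A} {D N : Subgroup A} (hD : D = Subgroup.zpowers x)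
    (hN : N ≤ Subgroup.normalizer (D : Set A)) (hDN : D ≤ N) {R : A → Module.End k V}
    (hR : IsRep N R) (i : ℕ) {g : A} (hg : g ∈ N) (v : V) :
    ∃ w, R g (((R x - 1) ^ i) v) = ((R x - 1) ^ i) w := by
  have hxD : x ∈ D := by rw [hD]; exact Subgroup.mem_zpowers x
  have hx : x ∈ N := hDN hxD
  obtain ⟨j, hj⟩ : ∃ j : ℕ, x ^ j = g * x * g⁻¹ := by
    have h1 : g * x * g⁻¹ ∈ D := (Subgroup.mem_normalizer_iff.1 (hN hg) x).1 hxD
    rw [hD, ← mem_powers_iff_mem_zpowers] at h1
    exact h1
  have h2 : R g * (R x - 1) = (R x - 1) * ((∑ i ∈ Finset.range j, R x ^ i) * R g) := by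
    rw [← mul_assoc, mul_geom_sum, sub_mul, one_mul, mul_sub, mul_one, ← hR.mul g hg x hx,
      ← rep_pow hR hx, ← hR.mul _ (N.pow_mem hx j) g hg, hj, inv_mul_cancel_right]
  have h3 : ∀ i : ℕ, ∃ S : Module.End k V, R g * (R x - 1) ^ i = (R x - 1) ^ i * S := by
    intro i
    induction i with
    | zero => exact ⟨R g, by rw [pow_zero, mul_one, one_mul]⟩
    | succ i ih =>
      obtain ⟨S, hS⟩ := ih
      have hc : Commute (∑ i ∈ Finset.range j, R x ^ i) ((R x - 1) ^ i) := by
        apply Commute.pow_right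
        apply Commute.sub_right _ (Commute.one_right _)
        exact Commute.sum_left _ _ _ (fun i _ => (Commute.refl (R x)).pow_left i)
      refine ⟨(∑ i ∈ Finset.range j, R x ^ i) * S, ?_⟩
      rw [pow_succ', ← mul_assoc, h2, mul_assoc, mul_assoc (∑ i ∈ Finset.range j, R x ^ i), hS,
        ← mul_assoc (∑ i ∈ Finset.range j, R x ^ i), hc.eq, mul_assoc, mul_assoc]
  obtain ⟨S, hS⟩ := h3 i
  exact ⟨S v, LinearMap.congr_fun hS v⟩

private theorem geom_char [Fact p.Prime] [CharP k p] (f : Module.End k V) :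
    ∑ i ∈ Finset.range p, f ^ i = (f - 1) ^ (p - 1) := by
  have hp : 0 < p := (Fact.out : p.Prime).pos
  have h1 : (∑ i ∈ Finset.range p, (Polynomial.X : Polynomial k) ^ i) =
      (Polynomial.X - 1) ^ (p - 1) := by
    have h2 : (Polynomial.X - 1 : Polynomial k) ≠ 0 := by
      have := Polynomial.X_sub_C_ne_zero (1 : k)
      rwa [Polynomial.C_1] at this
    apply mul_left_cancel₀ h2
    rw [mul_geom_sum, ← pow_succ', Nat.sub_add_cancel hp, sub_pow_char, one_pow]
  have h3 := congrArg (Polynomial.aeval f) h1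
  simpa using h3

theorem inP_of_range [Fact p.Prime] [CharP k p] [Fintype A] {e a b : MonoidAlgebra k A} {x : A}
    {D N : Subgroup A} {X : Finset A} (h : Data p e a b x D N X) {R : A → Module.End k V}
    (hR : IsRep N R) {T : A → Module.End k W} (hT : IsRep N T) (hTx : T x = 1)
    (hTb : ac T b = 1) {α : W →ₗ[k] V} (hα : Eqv N T R α)
    (hr : ∀ t, ∃ v, ((R x - 1) ^ (p - 1)) v = α t) : InP N T R α := by
  classical
  have hx : x ∈ N := h.le h.mem
  obtain ⟨s, hs⟩ : ∃ s : W →ₗ[k] V, ((R x - 1) ^ (p - 1)) ∘ₗ s = α := by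
    let f : V →ₗ[k] V := (R x - 1) ^ (p - 1)
    have h1 : ∀ t, α t ∈ LinearMap.range f := fun t => hr t
    obtain ⟨s, hs⟩ := Module.projective_lifting_property f.rangeRestrict
      (α.codRestrict (LinearMap.range f) h1) f.surjective_rangeRestrict
    refine ⟨s, ?_⟩
    ext t
    have h2 := LinearMap.congr_fun hs t
    exact congrArg Subtype.val h2
  have h4 : trS D T R s = α := by
    rw [← hs, ← geom_char, trS]
    ext t
    rw [LinearMap.sum_apply, LinearMap.comp_apply, LinearMap.sum_apply]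
    symm
    refine Finset.sum_nbij (fun i => x ^ i) ?_ ?_ ?_ ?_
    · intro i _
      rw [Finset.mem_filter]
      exact ⟨Finset.mem_univ _, D.pow_mem h.mem i⟩
    · intro i hi j hj hij
      rw [Finset.coe_range, Set.mem_Iio] at hi hj
      rw [← h.ord] at hi hj
      exact pow_injOn_Iio_orderOf hi hj hij
    · intro g hg
      rw [Finset.mem_coe, Finset.mem_filter, h.hD] at hg
      obtain ⟨i, hi⟩ := (mem_powers_iff_mem_zpowers.2 hg.2 : g ∈ Submonoid.powers x)
      refine ⟨i % p, ?_, ?_⟩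
      · rw [Finset.coe_range, Set.mem_Iio]
        exact Nat.mod_lt _ (Fact.out : p.Prime).pos
      · simp only
        rw [← h.ord, pow_mod_orderOf]
        exact hi
    · intro i _
      have h5 : T (x ^ i)⁻¹ = 1 := by
        have h6 : T (x ^ i) = 1 := by rw [rep_pow hT hx, hTx, one_pow]
        have h7 := hT.inv_mul (N.pow_mem hx i)
        rwa [h6, mul_one] at h7
      rw [hc_apply, h5, rep_pow hR hx]
      rfl
  have h8 : α = ac R b ∘ₗ α := by
    rw [← comp_ac hα h.bN, hTb]
    rfl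
  have h9 : RT (X.filter (fun q => q ∈ N)) R R (ac R a) = ac R b := by
    rw [RT_ac (N := N) (fun q hq => (Finset.mem_filter.1 hq).2) hR h.aN, h.trb]
  have h10 : Eqv D R R (ac R a) := ac_eqv hR h.le h.aN h.ainv
  refine ⟨ac R a ∘ₗ s, ?_⟩
  calc α = RT (X.filter (fun q => q ∈ N)) R R (ac R a) ∘ₗ α := by rw [h9]; exact h8
    _ = RT (X.filter (fun q => q ∈ N)) T R (ac R a ∘ₗ α) := by
      rw [RT_comp_right (K := N) (fun q hq => (Finset.mem_filter.1 hq).2) hα]
    _ = RT (X.filter (fun q => q ∈ N)) T R (ac R a ∘ₗ trS D T R s) := by rw [h4]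
    _ = RT (X.filter (fun q => q ∈ N)) T R (trS D T R (ac R a ∘ₗ s)) := by
      rw [trS_comp_left h10]
    _ = trS N T R (ac R a ∘ₗ s) := RT_trS (Reps.filter h.reps h.le) h.le hT hR _

theorem height [Fact p.Prime] [CharP k p] [Fintype A] {e a b : MonoidAlgebra k A} {x : A}
    {D N : Subgroup A} {X : Finset A} (h : Data p e a b x D N X) {R : A → Module.End k V}
    (hR : IsRep N R) {T : A → Module.End k W} (hT : IsRep N T) (hTx : T x = 1)
    (hTirr : Irr N T) (hTb : ac T b = 1) {α : W →ₗ[k] V} (hα : Eqv N T R α)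
    (hnP : ¬ InP N T R α) :
    Function.Injective α ∧ ∃ l : ℕ, 0 < l ∧ (∀ t, ∃ v, ((R x - 1) ^ (l - 1)) v = α t) ∧
      Disjoint (LinearMap.range α) (LinearMap.range ((R x - 1) ^ l)) := by
  classical
  have hN : N ≤ Subgroup.normalizer (D : Set A) := by rw [h.hN]
  refine ⟨?_, ?_⟩
  · rcases hTirr.2 (LinearMap.ker α) (fun g hg w hw => by
      rw [LinearMap.mem_ker] at hw ⊢
      rw [hα g hg, hw, map_zero]) with h1 | h1
    · exact LinearMap.ker_eq_bot.1 h1
    · exfalso
      apply hnP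
      rw [LinearMap.ker_eq_top.1 h1]
      exact inP_zero
  · have hex : ∃ l : ℕ, ¬ ∀ t, ∃ v, ((R x - 1) ^ l) v = α t :=
      ⟨p - 1, fun hr => hnP (inP_of_range h hR hT hTx hTb hα hr)⟩
    have h1 := Nat.find_spec hex
    have h2 : 0 < Nat.find hex := by
      rw [Nat.pos_iff_ne_zero]
      intro h0
      apply h1
      intro t
      refine ⟨α t, ?_⟩
      rw [h0, pow_zero]
      rfl
    refine ⟨Nat.find hex, h2, ?_, ?_⟩
    · have h3 := Nat.find_min hex (Nat.sub_lt h2 one_pos)
      exact not_not.1 h3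
    · rw [Submodule.disjoint_def]
      rintro z ⟨t, rfl⟩ hz
      rcases hTirr.2 ((LinearMap.range ((R x - 1) ^ Nat.find hex)).comap α) (by
        intro g hg w hw
        rw [Submodule.mem_comap] at hw ⊢
        obtain ⟨v, hv⟩ := hw
        rw [hα g hg, ← hv]
        obtain ⟨w', hw'⟩ := stable_pow h.hD hN h.le hR (Nat.find hex) hg v
        exact ⟨w', hw'.symm⟩) with h4 | h4
      · have h5 : t ∈ (LinearMap.range ((R x - 1) ^ Nat.find hex)).comap α := hz
        rw [h4, Submodule.mem_bot] at h5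
        rw [h5, map_zero]
      · exfalso
        apply h1
        intro t
        have h5 : t ∈ (LinearMap.range ((R x - 1) ^ Nat.find hex)).comap α := by
          rw [h4]
          exact Submodule.mem_top
        exact h5

end Pool.Agent.Lib.P0c8ca5.Rk
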