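import Mathlib
import Pool.Agent.Lib.P0c8ca5R.Defs

/-!
# Module Free: a sum over free `D`-orbits is a full trace over `D`
-/

namespace Pool.Agent.Lib.P0c8ca5.Rk

open MonoidAlgebra

variable {p : ℕ} {k : Type*} [Field k] {A : Type*} [Group A]
variable {V V' V'' : Type*} [AddCommGroup V] [Module k V] [AddCommGroup V'] [Module k V']

namespace FreeAux

/-- `D`-double cosets -/
def ds (D : Subgroup A) : Setoid A where
  r g h := ∃ d ∈ D, ∃ d' ∈ D, h = d * g * d'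
  iseqv :=
    { refl := fun g => ⟨1, D.one_mem, 1, D.one_mem, by group⟩
      symm := fun {g h} ⟨d, hd, d', hd', e⟩ =>
        ⟨d⁻¹, D.inv_mem hd, d'⁻¹, D.inv_mem hd', by rw [e]; group⟩
      trans := fun {g h l} ⟨d, hd, d', hd', e⟩ ⟨c, hc, c', hc', e'⟩ =>
        ⟨c * d, D.mul_mem hc hd, d' * c', D.mul_mem hd' hc', by rw [e', e]; group⟩ }

/-- representative of the double coset -/
noncomputable def rc (D : Subgroup A) (g : A) : A := (Quotient.mk (ds D) g).out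

theorem rc_spec (D : Subgroup A) (g : A) : ∃ d ∈ D, ∃ d' ∈ D, g = d * rc D g * d' :=
  Quotient.exact (Quotient.out_eq (Quotient.mk (ds D) g))

theorem rc_eq {D : Subgroup A} {g h : A} (h1 : ∃ d ∈ D, ∃ d' ∈ D, h = d * g * d') :
    rc D g = rc D h := by
  have h2 : Quotient.mk (ds D) g = Quotient.mk (ds D) h := Quotient.sound h1
  rw [rc, rc, h2]

end FreeAux

open FreeAux

open Classical in
theorem free_sum [Fintype A] {X : Finset A} {D N : Subgroup A} (hX : Reps X ⊤ D) (hDN : D ≤ N)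
    (hfree : ∀ g : A, g ∉ N → ∀ d ∈ D, g⁻¹ * d * g ∈ D → d = 1) {R : A → Module.End k V}
    {R' : A → Module.End k V'} (hR : IsRep ⊤ R) (hR' : IsRep ⊤ R') {f : V →ₗ[k] V'}
    (hf : Eqv D R R' f) :
    ∃ Ψ : V →ₗ[k] V', ∑ q ∈ X.filter (fun q => q ∉ N), hc R R' q f = trS D R R' Ψ := by
  have hreps : ∀ g q q' : A, q ∈ X → q' ∈ X → q⁻¹ * g ∈ D → q'⁻¹ * g ∈ D → q = q' := by
    intro g q q' hq hq' h h'
    obtain ⟨r, -, hr⟩ := hX.uniq g (Subgroup.mem_top g)
    rw [hr q ⟨hq, h⟩, hr q' ⟨hq', h'⟩]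
  choose rp hrp using fun g => (hX.uniq g (Subgroup.mem_top g)).exists
  have hrpN : ∀ g, g ∉ N → rp g ∉ N := by
    intro g hg h
    apply hg
    have h1 := N.mul_mem h (hDN (hrp g).2)
    rwa [mul_inv_cancel_left] at h1
  -- the element of X in the double coset
  let t : A → A := fun g => rp (rc D g)
  have ht : ∀ g, ∃ d ∈ D, ∃ d' ∈ D, g = d * t g * d' := by
    intro g
    obtain ⟨d, hd, d', hd', e⟩ := rc_spec D g
    refine ⟨d, hd, (rp (rc D g))⁻¹ * rc D g * d', D.mul_mem (hrp _).2 hd', ?_⟩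
    conv_lhs => rw [e]
    change _ = d * rp (rc D g) * _
    group
  have ht' : ∀ g h, (∃ d ∈ D, ∃ d' ∈ D, h = d * g * d') → t g = t h := by
    intro g h h1
    change rp (rc D g) = rp (rc D h)
    rw [rc_eq h1]
  have htN : ∀ g, g ∉ N → t g ∉ N := by
    intro g hg h
    apply hg
    obtain ⟨d, hd, d', hd', e⟩ := ht g
    rw [e]
    exact N.mul_mem (N.mul_mem (hDN hd) h) (hDN hd')
  have htt : ∀ g, t (t g) = t g := by
    intro g
    exact ht' _ _ (ht g)
  set Y := X.filter (fun q => q ∉ N) with hY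
  set Z := Y.image t with hZ
  have hZY : ∀ z ∈ Z, z ∈ X ∧ z ∉ N ∧ t z = z := by
    intro z hz
    obtain ⟨q, hq, rfl⟩ := Finset.mem_image.1 hz
    exact ⟨(hrp _).1, htN q (Finset.mem_filter.1 hq).2, htt q⟩
  refine ⟨∑ z ∈ Z, hc R R' z f, ?_⟩
  have h1 : trS D R R' (∑ z ∈ Z, hc R R' z f)
      = ∑ d ∈ Finset.univ.filter (fun g => g ∈ D), ∑ z ∈ Z, hc R R' (rp (d * z)) f := by
    rw [trS]
    refine Finset.sum_congr rfl (fun d hd => ?_)
    rw [hc_sum]
    refine Finset.sum_congr rfl (fun z hz => ?_)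
    rw [← hc_mul hR hR' (Subgroup.mem_top d) (Subgroup.mem_top z)]
    have e1 : d * z = rp (d * z) * ((rp (d * z))⁻¹ * (d * z)) := by group
    conv_lhs => rw [e1]
    rw [hc_mul hR hR' (Subgroup.mem_top _) (Subgroup.mem_top _),
      hc_of_eqv (hR.mono le_top) hf (hrp _).2]
  rw [h1, ← Finset.sum_product']
  symm
  refine Finset.sum_bij (fun x _ => rp (x.1 * x.2)) ?_ ?_ ?_ ?_
  · rintro ⟨d, z⟩ hx
    rw [Finset.mem_product, Finset.mem_filter] at hx
    obtain ⟨hz1, hz2, -⟩ := hZY z hx.2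
    rw [hY, Finset.mem_filter]
    refine ⟨(hrp _).1, hrpN _ ?_⟩
    intro h
    apply hz2
    have h2 := N.mul_mem (N.inv_mem (hDN hx.1.2)) h
    rwa [inv_mul_cancel_left] at h2
  · rintro ⟨d, z⟩ hx ⟨d', z'⟩ hx' h
    rw [Finset.mem_product, Finset.mem_filter] at hx hx'
    change rp (d * z) = rp (d' * z') at h
    obtain ⟨hz1, hz2, hz3⟩ := hZY z hx.2
    obtain ⟨hz1', hz2', hz3'⟩ := hZY z' hx'.2
    have h2 := (hrp (d * z)).2
    have h3 := (hrp (d' * z')).2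
    rw [← h] at h3
    have h4 := D.mul_mem (D.inv_mem h2) h3
    have e1 : ((rp (d * z))⁻¹ * (d * z))⁻¹ * ((rp (d * z))⁻¹ * (d' * z'))
        = (d * z)⁻¹ * (d' * z') := by group
    rw [e1] at h4
    have h5 : z = z' := by
      rw [← hz3, ← hz3']
      apply ht'
      refine ⟨d'⁻¹ * d, D.mul_mem (D.inv_mem hx'.1.2) hx.1.2, (d * z)⁻¹ * (d' * z'), h4, ?_⟩
      group
    subst h5
    have h6 : z⁻¹ * (d⁻¹ * d') * z ∈ D := by
      have e2 : (d * z)⁻¹ * (d' * z) = z⁻¹ * (d⁻¹ * d') * z := by group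
      rwa [e2] at h4
    have h7 := hfree z hz2 (d⁻¹ * d') (D.mul_mem (D.inv_mem hx.1.2) hx'.1.2) h6
    have h8 : d = d' := by
      rw [inv_mul_eq_one] at h7
      exact h7
    rw [h8]
  · intro y hy
    have hy' := Finset.mem_filter.1 hy
    obtain ⟨d, hd, d', hd', e⟩ := ht y
    refine ⟨(d, t y), ?_, ?_⟩
    · rw [Finset.mem_product, Finset.mem_filter]
      exact ⟨⟨Finset.mem_univ _, hd⟩, Finset.mem_image.2 ⟨y, hy, rfl⟩⟩
    · change rp (d * t y) = y
      apply hreps (d * t y) _ _ (hrp _).1 hy'.1 (hrp _).2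
      have e1 : y⁻¹ * (d * t y) = d'⁻¹ := by
        conv_lhs => rw [e]
        have e3 : t (d * t y * d') = t y := by rw [← e]
        rw [e3]
        group
      rw [e1]
      exact D.inv_mem hd'
  · rintro ⟨d, z⟩ _
    rfl

end Pool.Agent.Lib.P0c8ca5.Rk
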