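import Mathlib
import Pool.Agent.Lib.P0c8ca5R.Data
import Pool.Agent.Lib.P0c8ca5R.Tr
import Pool.Agent.Lib.P0c8ca5R.Comp
import Pool.Agent.Lib.P0c8ca5R.Ac
import Pool.Agent.Lib.P0c8ca5R.Free

/-!
# Module LemM: from an `N`-homomorphism to an `A`-homomorphism

PROOF. `f := ac R' a ∘ φ` is `D`-equivariant (`ac_eqv` with `InvBy D a`, `h.ainv`; `φ` is
`N`-equivariant).  `Φ := RT X f` is `A`-equivariant (`RT_eqv` for `K = ⊤`).  Let `X₁ = X ∩ N`,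
`X₂ = X \ N`; `Φ = RT X₁ f + Ψ`, `Ψ = ∑_{q ∈ X₂} hc q f`.
`RT X₁ f = RT X₁ (ac R' a) ∘ φ = ac R' b ∘ φ = φ` (`RT_comp_right`, `RT_ac`, `h.trb`).
So `Ψ = Φ - φ` is `N`-equivariant.  By `free_sum` (`hfree`: for `g ∉ N` and `d ∈ D`, `d ≠ 1` with
`g⁻¹ d g ∈ D`: `d` generates `D` (prime order), so `g⁻¹ D g ≤ D`, `g` normalizes `D`, contradiction)
`Ψ = trS D Ψ₀`.  `ac R' b ∘ Ψ = RT X₁ (ac R' a) ∘ Ψ = RT X₁ (ac R' a ∘ Ψ)
= RT X₁ (ac R' a ∘ trS D Ψ₀) = RT X₁ (trS D (ac R' a ∘ Ψ₀)) = trS N (ac R' a ∘ Ψ₀)`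
(`RT_comp_right`, `trS_comp_left`, `RT_trS` with `Reps.filter`).  Finally
`ac R' b ∘ Φ = ac R' b ∘ φ + ac R' b ∘ Ψ = φ + trS N (ac R' a ∘ Ψ₀)`.
-/

namespace Pool.Agent.Lib.P0c8ca5.Rk

open MonoidAlgebra

variable {p : ℕ} {k : Type*} [Field k] {A : Type*} [Group A]
variable {V V' V'' : Type*} [AddCommGroup V] [Module k V] [AddCommGroup V'] [Module k V']

theorem LemMAux.free [Fact p.Prime] [Fintype A] {e a b : MonoidAlgebra k A} {x : A}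
    {D N : Subgroup A} {X : Finset A} (h : Data p e a b x D N X) :
    ∀ g : A, g ∉ N → ∀ d ∈ D, g⁻¹ * d * g ∈ D → d = 1 := by
  intro g hg d hd hgd
  by_contra hd1
  apply hg
  have hcard := h.card
  have hz : Subgroup.zpowers d ≤ D := Subgroup.zpowers_le.2 hd
  have hfin : Finite D := inferInstance
  have hzc : Nat.card (Subgroup.zpowers d) = p := by
    have h1 : Nat.card (Subgroup.zpowers d) ∣ p := by
      rw [← hcard]
      exact Subgroup.card_dvd_of_le hz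
    rcases (Nat.dvd_prime (Fact.out : p.Prime)).1 h1 with h2 | h2
    · exfalso
      rw [Nat.card_zpowers, orderOf_eq_one_iff] at h2
      exact hd1 h2
    · exact h2
  have hzD : Subgroup.zpowers d = D := Subgroup.eq_of_le_of_card_ge hz (by rw [hcard, hzc])
  have hall : ∀ y : A, y ∈ (D : Set A) → g⁻¹ * y * (g⁻¹)⁻¹ ∈ (D : Set A) := by
    intro y hy
    have hy' : y ∈ Subgroup.zpowers d := by
      rw [hzD]
      exact hy
    obtain ⟨n, rfl⟩ := Subgroup.mem_zpowers_iff.1 hy'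
    rw [inv_inv]
    have h3 : g⁻¹ * d ^ n * g = (g⁻¹ * d * g) ^ n := by
      have h4 := conj_zpow (a := g⁻¹) (b := d) (i := n)
      rw [inv_inv] at h4
      exact h4.symm
    rw [h3]
    exact D.zpow_mem hgd n
  have h5 : g⁻¹ ∈ Subgroup.normalizer (D : Set A) :=
    Subgroup.mem_normalizer_fintype hall
  rw [h.hN]
  exact (inv_mem_iff).1 h5

theorem lemM [Fact p.Prime] [Fintype A] {e a b : MonoidAlgebra k A} {x : A} {D N : Subgroup A}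
    {X : Finset A} (h : Data p e a b x D N X) {R : A → Module.End k V}
    {R' : A → Module.End k V'} (hR : IsRep ⊤ R) (hR' : IsRep ⊤ R') {φ : V →ₗ[k] V'}
    (hφ : Eqv N R R' φ) (hb : ac R' b ∘ₗ φ = φ) :
    Eqv ⊤ R R' (RT X R R' (ac R' a ∘ₗ φ)) ∧
      ∃ θ : V →ₗ[k] V', ac R' b ∘ₗ RT X R R' (ac R' a ∘ₗ φ) = φ + trS N R R' θ := by
  classical
  have haT : SuppIn (⊤ : Subgroup A) a := h.aN.mono le_top
  have hacD : Eqv D R' R' (ac R' a) := ac_eqv hR' le_top haT h.ainv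
  have hf : Eqv D R R' (ac R' a ∘ₗ φ) := hacD.comp (hφ.mono h.le)
  have hΦ : Eqv ⊤ R R' (RT X R R' (ac R' a ∘ₗ φ)) := RT_eqv h.reps le_top hR hR' hf
  refine ⟨hΦ, ?_⟩
  have hX1 : ∀ q ∈ X.filter (fun q => q ∈ N), q ∈ N := fun q hq => (Finset.mem_filter.1 hq).2
  have hbR : RT (X.filter (fun q => q ∈ N)) R' R' (ac R' a) = ac R' b := by
    rw [RT_ac (N := ⊤) (fun _ _ => Subgroup.mem_top _) hR' haT]
    exact congrArg (ac R') h.trb
  have h1 : RT (X.filter (fun q => q ∈ N)) R R' (ac R' a ∘ₗ φ) = φ := by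
    rw [RT_comp_right hX1 hφ, hbR, hb]
  have hsplit : RT X R R' (ac R' a ∘ₗ φ) = φ +
      ∑ q ∈ X.filter (fun q => q ∉ N), hc R R' q (ac R' a ∘ₗ φ) := by
    have h0 : RT X R R' (ac R' a ∘ₗ φ) = RT (X.filter (fun q => q ∈ N)) R R' (ac R' a ∘ₗ φ) +
        ∑ q ∈ X.filter (fun q => q ∉ N), hc R R' q (ac R' a ∘ₗ φ) := by
      rw [RT, RT, Finset.sum_filter_add_sum_filter_not]
    rw [h0, h1]
  obtain ⟨Ψ₀, hΨ₀⟩ := free_sum h.reps h.le (LemMAux.free h) hR hR' hf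
  have hΨ : Eqv N R R' (trS D R R' Ψ₀) := by
    have h2 : trS D R R' Ψ₀ = RT X R R' (ac R' a ∘ₗ φ) - φ := by
      rw [hsplit, ← hΨ₀, add_sub_cancel_left]
    rw [h2]
    exact (hΦ.mono le_top).sub hφ
  refine ⟨ac R' a ∘ₗ Ψ₀, ?_⟩
  rw [hsplit, hΨ₀, LinearMap.comp_add, hb]
  congr 1
  rw [← hbR, ← RT_comp_right hX1 hΨ, ← trS_comp_left hacD,
    RT_trS (h.reps.filter h.le) h.le (hR.mono le_top) (hR'.mono le_top)]

end Pool.Agent.Lib.P0c8ca5.Rk
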