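import Mathlib
import Pool.Agent.Lib.P0c8ca5R.LemM
import Pool.Agent.Lib.P0c8ca5R.Height
import Pool.Agent.Lib.P0c8ca5R.Ext
import Pool.Agent.Lib.P0c8ca5R.Triv

/-!
# Module PartC: `τ ~ ρ` and `τ ~ ρ'` imply `ρ ≅ ρ'`

PROOF. `T = ofRep τ`, `R = ofRep ρ`, `R' = ofRep ρ'`; `T x = 1` (`irr_trivial`).  `height` gives `l` for
`α` and `l'` for `α'`.  By symmetry (`Iso.symm`) assume `l ≤ l'`; then the image of `α'` is in the
range of `(R' x - 1) ^ (l' - 1)`, hence in that of `(R' x - 1) ^ (l - 1)`.  `ext_hom` with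
`U = range ((R x - 1) ^ l)` (`stable_pow`) gives `φ : V → V'`, `N`-equivariant, `ac R' b ∘ φ = φ`,
`φ ∘ α = α'`.  `lemM`: `Φ` is `A`-equivariant, `ac R' b ∘ Φ = φ + trS N R R' θ`.  If `Φ = 0` then
`φ = - trS N R R' θ` is in `InP`, so `α' = φ ∘ α` is in `InP` (`InP.comp_right`, `InP.neg`),
contradiction.  So `Φ ≠ 0` and Schur (`Irr'.injective`, `Irr'.surjective` in P0c8ca5.Rep) shows
that `Φ` is an isomorphism.
-/

namespace Pool.Agent.Lib.P0c8ca5.Rk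

open MonoidAlgebra

variable {p : ℕ} {k : Type*} [Field k] {A : Type*} [Group A]

namespace PartCAux

theorem main [Fact p.Prime] [CharP k p] [Fintype A] {e a b : MonoidAlgebra k A}
    {x : A} {D N : Subgroup A} {X : Finset A} (h : Data p e a b x D N X) {m n n' : ℕ}
    (τ : Rp k N m) (hTx : ofRep τ x = 1) (hTb : ac (ofRep τ) b = 1)
    (ρ : Rp k (⊤ : Subgroup A) n)
    (hρ : Irr' ρ) (ρ' : Rp k (⊤ : Subgroup A) n') (hρ' : Irr' ρ')
    {α : (Fin m → k) →ₗ[k] (Fin n → k)} (hα : Eqv N (ofRep τ) (ofRep ρ) α)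
    {α' : (Fin m → k) →ₗ[k] (Fin n' → k)}
    (hα' : Eqv N (ofRep τ) (ofRep ρ') α') (hαP' : ¬ InP N (ofRep τ) (ofRep ρ') α')
    (hinj : Function.Injective α) {l : ℕ} (hl : 0 < l)
    (him : ∀ t, ∃ v, ((ofRep ρ' x - 1) ^ (l - 1)) v = α' t)
    (hd : Disjoint (LinearMap.range α) (LinearMap.range ((ofRep ρ x - 1) ^ l))) :
    Iso ρ ρ' := by
  have hR : IsRep (⊤ : Subgroup A) (ofRep ρ) := isRep_ofRep ρ
  have hR' : IsRep (⊤ : Subgroup A) (ofRep ρ') := isRep_ofRep ρ'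
  have hT : IsRep N (ofRep τ) := isRep_ofRep τ
  obtain ⟨φ, hφ, hbφ, hφα, -⟩ := ext_hom h (hR.mono le_top) (hR'.mono le_top) hT hTx hTb hα hinj
    hα' hl him (LinearMap.range ((ofRep ρ x - 1) ^ l))
    (fun g hg u hu => by
      obtain ⟨v, rfl⟩ := hu
      obtain ⟨w, hw⟩ := stable_pow h.hD (le_of_eq h.hN) h.le (hR.mono le_top) l hg v
      exact ⟨w, hw.symm⟩) le_rfl hd
  obtain ⟨hΦ, θ, hθ⟩ := lemM h hR hR' hφ hbφ
  have hne : RT X (ofRep ρ) (ofRep ρ') (ac (ofRep ρ') a ∘ₗ φ) ≠ 0 := by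
    intro h0
    rw [h0, LinearMap.comp_zero] at hθ
    have h1 : φ = - trS N (ofRep ρ) (ofRep ρ') θ := eq_neg_of_add_eq_zero_left hθ.symm
    apply hαP'
    rw [← hφα]
    apply InP.comp_right _ hα
    rw [h1]
    exact InP.neg ⟨θ, rfl⟩
  have hinj' := hρ.injective _ hne (fun g v hv => by
    have h1 := hΦ g g.2 v
    rw [ofRep_mem ρ g.2] at h1
    change _ = 0
    rw [show ρ g v = ρ ⟨(g : A), g.2⟩ v from rfl, h1, hv, map_zero])
  have hsurj := hρ'.surjective _ hne (fun g v => by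
    refine ⟨ρ g v, ?_⟩
    have h1 := hΦ g g.2 v
    rw [ofRep_mem ρ g.2, ofRep_mem ρ' g.2] at h1
    exact h1)
  refine ⟨LinearEquiv.ofBijective _ ⟨hinj', hsurj⟩, fun g v => ?_⟩
  have h1 := hΦ g g.2 v
  rw [ofRep_mem ρ g.2, ofRep_mem ρ' g.2] at h1
  exact h1

end PartCAux

theorem partC [Fact p.Prime] [CharP k p] [Fintype A] {e a b : MonoidAlgebra k A}
    {x : A} {D N : Subgroup A} {X : Finset A} (h : Data p e a b x D N X) {m n n' : ℕ}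
    (τ : Rp k N m) (hτ : Irr' τ) (hb : act τ b = 1) (ρ : Rp k (⊤ : Subgroup A) n)
    (hρ : Irr' ρ) (ρ' : Rp k (⊤ : Subgroup A) n') (hρ' : Irr' ρ')
    {α : (Fin m → k) →ₗ[k] (Fin n → k)} (hα : Eqv N (ofRep τ) (ofRep ρ) α)
    (hαP : ¬ InP N (ofRep τ) (ofRep ρ) α) {α' : (Fin m → k) →ₗ[k] (Fin n' → k)}
    (hα' : Eqv N (ofRep τ) (ofRep ρ') α') (hαP' : ¬ InP N (ofRep τ) (ofRep ρ') α') :
    Iso ρ ρ' := by
  have hR : IsRep N (ofRep ρ) := (isRep_ofRep ρ).mono le_top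
  have hR' : IsRep N (ofRep ρ') := (isRep_ofRep ρ').mono le_top
  have hT : IsRep N (ofRep τ) := isRep_ofRep τ
  have hirr : Irr N (ofRep τ) := (irr_ofRep τ).1 hτ
  have hTx : ofRep τ x = 1 :=
    irr_trivial h.le (le_of_eq h.hN) h.isPGroup hT hirr x h.mem
  have hTb : ac (ofRep τ) b = 1 := by rw [ac_ofRep, hb]
  obtain ⟨hinj, l, hl, him, hd⟩ := height h hR hT hTx hirr hTb hα hαP
  obtain ⟨hinj', l', hl', him', hd'⟩ := height h hR' hT hTx hirr hTb hα' hαP'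
  rcases le_total l l' with hll | hll
  · refine PartCAux.main h τ hTx hTb ρ hρ ρ' hρ' hα hα' hαP' hinj hl ?_ hd
    intro t
    obtain ⟨v, hv⟩ := him' t
    refine ⟨((ofRep ρ' x - 1) ^ (l' - l)) v, ?_⟩
    rw [← hv, ← Module.End.mul_apply, ← pow_add]
    congr 2
    omega
  · refine (PartCAux.main h τ hTx hTb ρ' hρ' ρ hρ hα' hα hαP hinj' hl' ?_ hd').symm
    intro t
    obtain ⟨v, hv⟩ := him t
    refine ⟨((ofRep ρ x - 1) ^ (l - l')) v, ?_⟩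
    rw [← hv, ← Module.End.mul_apply, ← pow_add]
    congr 2
    omega

end Pool.Agent.Lib.P0c8ca5.Rk
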