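import Mathlib
import Pool.Agent.Lib.P0c8ca5R.LemM
import Pool.Agent.Lib.P0c8ca5R.Height
import Pool.Agent.Lib.P0c8ca5R.Ext
import Pool.Agent.Lib.P0c8ca5R.Triv
import Pool.Agent.Lib.P0c8ca5N.ChB

/-!
# Module PartD: `τ₁ ~ ρ` and `τ₂ ~ ρ` imply `τ₁ ≅ τ₂`

PROOF. Suppose `τ₁`, `τ₂` are not isomorphic.  `R = ofRep ρ`, `y = R x - 1`; `height` for `α₁` gives
`l` and injectivity.  CLAIM: the range of `α₁` is disjoint from
`U = range (y ^ l) ⊔ range α₂`.  Otherwise the `N`-stable set of the `t` with `α₁ t ∈ U` is everything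
(`τ₁` irreducible, `stable_pow`), so for every `t` there are `s`, `u ∈ range (y ^ l)` with
`α₁ t = u + α₂ s`.  The set of the `s` with `α₂ s ∈ range (y ^ l)` is `⊥` or `⊤`.  If it is `⊤`
then `α₁ t ∈ range (y ^ l)` for all `t`, contradiction to `height`.  If it is `⊥` then `s` is unique,
`t ↦ s` is a linear `N`-equivariant map `τ₁ → τ₂`; it is injective (`s = 0` gives `α₁ t ∈ range (y^l)`,
`t = 0`), hence an isomorphism, contradiction.
`ext_hom` with `α = α' = α₁`, `R' = R` and this `U` gives an `N`-equivariant `φ : V → V` with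
`ac R b ∘ φ = φ`, `φ ∘ α₁ = α₁`, `φ ∘ α₂ = 0` (`α₂ t ∈ U` is fixed by `R x`, `irr_trivial` for `τ₂`).
`lemM`: `ac R b ∘ Φ = φ + trS N R R θ`, `Φ` `A`-equivariant, so `Φ = c • 1` (Schur over the
algebraically closed field, `end_scalar` in P0c8ca5N.ChB or an eigenvalue argument).  Composing with
`α₂`: `c • α₂ = c • ac R b ∘ α₂ = trS N (θ ∘ α₂)` (`ac R b ∘ α₂ = α₂` by `comp_ac` and `act τ₂ b = 1`)
is in `InP`, so `c = 0`; then `φ = - trS N R R θ` and `α₁ = φ ∘ α₁` is in `InP`: contradiction.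
-/

namespace Pool.Agent.Lib.P0c8ca5.Rk

open MonoidAlgebra

variable {p : ℕ} {k : Type*} [Field k] {A : Type*} [Group A]

namespace PartDAux

/-- Schur's lemma by an eigenvalue argument -/
theorem schur [IsAlgClosed k] {V : Type*} [AddCommGroup V] [Module k V] [Module.Finite k V]
    {K : Subgroup A} {R : A → Module.End k V} (hirr : Irr K R) {Φ : V →ₗ[k] V}
    (hΦ : Eqv K R R Φ) : ∃ c : k, ∀ v, Φ v = c • v := by
  have := hirr.1
  obtain ⟨c, hc⟩ := Module.End.exists_eigenvalue (K := k) (V := V) Φ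
  refine ⟨c, fun v => ?_⟩
  have hst : ∀ g ∈ K, ∀ w ∈ Module.End.eigenspace Φ c, R g w ∈ Module.End.eigenspace Φ c := by
    intro g hg w hw
    rw [Module.End.mem_eigenspace_iff] at hw ⊢
    rw [hΦ g hg w, hw, map_smul]
  rcases hirr.2 _ hst with h | h
  · exact absurd h hc
  · have hv : v ∈ Module.End.eigenspace Φ c := by rw [h]; exact Submodule.mem_top
    exact Module.End.mem_eigenspace_iff.1 hv

theorem iso_of_rel {V V₁ V₂ : Type*} [AddCommGroup V] [Module k V] [AddCommGroup V₁]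
    [Module k V₁] [AddCommGroup V₂] [Module k V₂] {N : Subgroup A} {R : A → Module.End k V}
    {τ₁ : Representation k N V₁} {τ₂ : Representation k N V₂} (h₁ : Irr' τ₁) (h₂ : Irr' τ₂)
    {α₁ : V₁ →ₗ[k] V} {α₂ : V₂ →ₗ[k] V} (hα₁ : Eqv N (ofRep τ₁) R α₁)
    (hα₂ : Eqv N (ofRep τ₂) R α₂) (Z : Submodule k V) (hZ : ∀ g ∈ N, ∀ z ∈ Z, R g z ∈ Z)
    (hz₁ : ∀ t, α₁ t ∈ Z → t = 0) (hz₂ : ∀ s, α₂ s ∈ Z → s = 0)
    (hex : ∀ t, ∃ s, α₁ t - α₂ s ∈ Z) : Iso τ₁ τ₂ := by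
  classical
  have huniq : ∀ t s s', α₁ t - α₂ s ∈ Z → α₁ t - α₂ s' ∈ Z → s = s' := by
    intro t s s' h h'
    have h3 : α₂ (s - s') ∈ Z := by
      have e : α₂ (s - s') = (α₁ t - α₂ s') - (α₁ t - α₂ s) := by
        rw [map_sub]; abel
      rw [e]
      exact Z.sub_mem h' h
    exact sub_eq_zero.1 (hz₂ _ h3)
  choose f hf using hex
  let F : V₁ →ₗ[k] V₂ :=
    { toFun := f
      map_add' := by
        intro t t'
        apply huniq (t + t') _ _ (hf _)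
        have e : α₁ (t + t') - α₂ (f t + f t') = (α₁ t - α₂ (f t)) + (α₁ t' - α₂ (f t')) := by
          rw [map_add, map_add]; abel
        rw [e]
        exact Z.add_mem (hf t) (hf t')
      map_smul' := by
        intro c t
        apply huniq (c • t) _ _ (hf _)
        have e : α₁ (c • t) - α₂ (c • f t) = c • (α₁ t - α₂ (f t)) := by
          rw [map_smul, map_smul, smul_sub]
        show α₁ (c • t) - α₂ (c • f t) ∈ Z
        rw [e]
        exact Z.smul_mem c (hf t) }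
  have hF : ∀ t, F t = f t := fun t => rfl
  have hFeqv : ∀ (x : N) (t : V₁), F (τ₁ x t) = τ₂ x (F t) := by
    intro x t
    rw [hF, hF]
    apply huniq (τ₁ x t) _ _ (hf _)
    have e1 := hα₁ x x.2 t
    have e2 := hα₂ x x.2 (f t)
    rw [ofRep_mem τ₁ x.2] at e1
    rw [ofRep_mem τ₂ x.2] at e2
    have e1' : α₁ (τ₁ x t) = R x (α₁ t) := e1
    have e2' : α₂ (τ₂ x (f t)) = R x (α₂ (f t)) := e2
    rw [e1', e2', ← map_sub]
    exact hZ x x.2 _ (hf t)
  have hinj : Function.Injective F := by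
    rw [injective_iff_map_eq_zero]
    intro t ht
    apply hz₁
    have h1 := hf t
    rw [← hF, ht, map_zero, sub_zero] at h1
    exact h1
  have hsurj : Function.Surjective F := by
    rcases h₂.sub (LinearMap.range F) (by
      rintro g w ⟨t, rfl⟩
      exact ⟨τ₁ g t, hFeqv g t⟩) with h | h
    · exfalso
      have := h₁.nontriv
      obtain ⟨t, ht⟩ := exists_ne (0 : V₁)
      apply ht
      apply hinj
      rw [map_zero]
      have : F t ∈ LinearMap.range F := ⟨t, rfl⟩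
      rw [h] at this
      exact (Submodule.mem_bot k).1 this
    · exact LinearMap.range_eq_top.1 h
  exact ⟨LinearEquiv.ofBijective F ⟨hinj, hsurj⟩, fun x t => hFeqv x t⟩

end PartDAux

theorem partD [Fact p.Prime] [CharP k p] [IsAlgClosed k] [Fintype A] {e a b : MonoidAlgebra k A}
    {x : A} {D N : Subgroup A} {X : Finset A} (h : Data p e a b x D N X) {m₁ m₂ n : ℕ}
    (τ₁ : Rp k N m₁) (hτ₁ : Irr' τ₁) (hb₁ : act τ₁ b = 1) (τ₂ : Rp k N m₂) (hτ₂ : Irr' τ₂)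
    (hb₂ : act τ₂ b = 1) (ρ : Rp k (⊤ : Subgroup A) n) (hρ : Irr' ρ)
    {α₁ : (Fin m₁ → k) →ₗ[k] (Fin n → k)} (hα₁ : Eqv N (ofRep τ₁) (ofRep ρ) α₁)
    (hαP₁ : ¬ InP N (ofRep τ₁) (ofRep ρ) α₁) {α₂ : (Fin m₂ → k) →ₗ[k] (Fin n → k)}
    (hα₂ : Eqv N (ofRep τ₂) (ofRep ρ) α₂) (hαP₂ : ¬ InP N (ofRep τ₂) (ofRep ρ) α₂) :
    Iso τ₁ τ₂ := by
  classical
  by_contra hiso
  have hTR₁ := isRep_ofRep τ₁
  have hTR₂ := isRep_ofRep τ₂
  have hR := isRep_ofRep ρ
  have hRN : IsRep N (ofRep ρ) := hR.mono le_top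
  have hI₁ := (irr_ofRep τ₁).1 hτ₁
  have hI₂ := (irr_ofRep τ₂).1 hτ₂
  have hIR := (irr_ofRep ρ).1 hρ
  have hac₁ : ac (ofRep τ₁) b = 1 := by rw [ac_ofRep, hb₁]
  have hac₂ : ac (ofRep τ₂) b = 1 := by rw [ac_ofRep, hb₂]
  have hNn : N ≤ Subgroup.normalizer (D : Set A) := by rw [h.hN]
  have hx₁ : ofRep τ₁ x = 1 :=
    irr_trivial h.le hNn h.isPGroup hTR₁ hI₁ x h.mem
  have hx₂ : ofRep τ₂ x = 1 :=
    irr_trivial h.le hNn h.isPGroup hTR₂ hI₂ x h.mem
  obtain ⟨hinj₁, l, hl, him, hdis⟩ := height h hRN hTR₁ hx₁ hI₁ hac₁ hα₁ hαP₁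
  obtain ⟨Z, hZdef⟩ : ∃ Z, Z = LinearMap.range ((ofRep ρ x - 1) ^ l) := ⟨_, rfl⟩
  have hZst : ∀ g ∈ N, ∀ z ∈ Z, ofRep ρ g z ∈ Z := by
    intro g hg z hz
    rw [hZdef] at hz ⊢
    obtain ⟨v, rfl⟩ := hz
    obtain ⟨w, hw⟩ := stable_pow h.hD hNn h.le hRN l hg v
    exact ⟨w, hw.symm⟩
  rw [← hZdef] at hdis
  have hz₁ : ∀ t, α₁ t ∈ Z → t = 0 := by
    intro t ht
    have h1 : α₁ t = 0 := by
      have := Submodule.disjoint_def.1 hdis (α₁ t) ⟨t, rfl⟩ ht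
      exact this
    apply hinj₁
    rw [h1, map_zero]
  have hUst : ∀ g ∈ N, ∀ u ∈ Z ⊔ LinearMap.range α₂, ofRep ρ g u ∈ Z ⊔ LinearMap.range α₂ := by
    intro g hg u hu
    obtain ⟨z, hz, w, ⟨s, rfl⟩, rfl⟩ := Submodule.mem_sup.1 hu
    rw [map_add, ← hα₂ g hg]
    exact Submodule.add_mem_sup (hZst g hg z hz) ⟨_, rfl⟩
  -- the claim
  have hclaim : Disjoint (LinearMap.range α₁) (Z ⊔ LinearMap.range α₂) := by
    rcases hI₁.2 ((Z ⊔ LinearMap.range α₂).comap α₁) (by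
      intro g hg w hw
      rw [Submodule.mem_comap] at hw ⊢
      rw [hα₁ g hg]
      exact hUst g hg _ hw) with hc | hc
    · rw [Submodule.disjoint_def]
      rintro v ⟨t, rfl⟩ ht
      have h1 : t ∈ (Z ⊔ LinearMap.range α₂).comap α₁ := ht
      rw [hc, Submodule.mem_bot] at h1
      rw [h1, map_zero]
    · exfalso
      have hall : ∀ t, α₁ t ∈ Z ⊔ LinearMap.range α₂ := by
        intro t
        have h1 : t ∈ (Z ⊔ LinearMap.range α₂).comap α₁ := by rw [hc]; exact Submodule.mem_top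
        exact h1
      rcases hI₂.2 (Z.comap α₂) (by
        intro g hg w hw
        rw [Submodule.mem_comap] at hw ⊢
        rw [hα₂ g hg]
        exact hZst g hg _ hw) with hc2 | hc2
      · apply hiso
        apply PartDAux.iso_of_rel hτ₁ hτ₂ hα₁ hα₂ Z hZst hz₁
        · intro s hs
          have h1 : s ∈ Z.comap α₂ := hs
          rw [hc2, Submodule.mem_bot] at h1
          exact h1
        · intro t
          obtain ⟨z, hz, w, ⟨s, rfl⟩, hs⟩ := Submodule.mem_sup.1 (hall t)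
          refine ⟨s, ?_⟩
          rw [← hs, add_sub_cancel_right]
          exact hz
      · have hle : LinearMap.range α₂ ≤ Z := by
          rintro v ⟨s, rfl⟩
          have h1 : s ∈ Z.comap α₂ := by rw [hc2]; exact Submodule.mem_top
          exact h1
        have := hI₁.1
        obtain ⟨t, ht⟩ := exists_ne (0 : Fin m₁ → k)
        apply ht
        apply hz₁
        have h1 := hall t
        rw [sup_eq_left.2 hle] at h1
        exact h1
  obtain ⟨φ, hφ, hbφ, hφα, hφU⟩ := ext_hom h hRN hRN hTR₁ hx₁ hac₁ hα₁ hinj₁ hα₁ hl him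
    (Z ⊔ LinearMap.range α₂) hUst (by rw [← hZdef]; exact le_sup_left) hclaim
  have hφ2 : φ ∘ₗ α₂ = 0 := by
    apply LinearMap.ext
    intro s
    rw [LinearMap.comp_apply, LinearMap.zero_apply]
    apply hφU
    · exact Submodule.mem_sup_right ⟨s, rfl⟩
    · rw [← hα₂ x (h.le h.mem), hx₂]
      rfl
  obtain ⟨hΦ, θ, hθ⟩ := lemM h hR hR hφ hbφ
  obtain ⟨c, hc⟩ := PartDAux.schur hIR hΦ
  have hΦc : RT X (ofRep ρ) (ofRep ρ) (ac (ofRep ρ) a ∘ₗ φ) = c • (1 : Module.End k (Fin n → k)) := by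
    apply LinearMap.ext
    intro v
    rw [hc v]
    rfl
  rw [hΦc] at hθ
  have hba₂ : ac (ofRep ρ) b ∘ₗ α₂ = α₂ := by
    rw [← comp_ac hα₂ h.bN, hac₂]
    rfl
  have hP2 : InP N (ofRep τ₂) (ofRep ρ) (c • α₂) := by
    refine ⟨θ ∘ₗ α₂, ?_⟩
    rw [trS_comp_right hα₂]
    have h1 : (ac (ofRep ρ) b ∘ₗ (c • (1 : Module.End k (Fin n → k)))) ∘ₗ α₂ =
        (φ + trS N (ofRep ρ) (ofRep ρ) θ) ∘ₗ α₂ := by rw [hθ]
    rw [LinearMap.add_comp, hφ2, zero_add] at h1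
    rw [← h1]
    apply LinearMap.ext
    intro s
    have h2 := LinearMap.congr_fun hba₂ s
    rw [LinearMap.comp_apply] at h2
    show c • α₂ s = ac (ofRep ρ) b (c • α₂ s)
    rw [map_smul, h2]
  have hc0 : c = 0 := by
    by_contra hc0
    apply hαP₂
    have h1 := hP2.smul c⁻¹
    rwa [smul_smul, inv_mul_cancel₀ hc0, one_smul] at h1
  rw [hc0, zero_smul, LinearMap.comp_zero] at hθ
  apply hαP₁
  have h3 : α₁ = - (trS N (ofRep ρ) (ofRep ρ) θ ∘ₗ α₁) := by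
    have h4 : φ = - trS N (ofRep ρ) (ofRep ρ) θ := eq_neg_of_add_eq_zero_left hθ.symm
    calc α₁ = φ ∘ₗ α₁ := hφα.symm
      _ = (- trS N (ofRep ρ) (ofRep ρ) θ) ∘ₗ α₁ := by rw [← h4]
      _ = - (trS N (ofRep ρ) (ofRep ρ) θ ∘ₗ α₁) := LinearMap.neg_comp _ _
  rw [h3]
  apply InP.neg
  exact InP.comp_right ⟨θ, rfl⟩ hα₁

end Pool.Agent.Lib.P0c8ca5.Rk
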