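import Mathlib
import Pool.Agent.Lib.P0c8ca5R.Defs
import Pool.Agent.Lib.P0c8ca5R.Tr

/-!
# Module BrA: a block with defect groups of order at most `p` is a relative trace

PROOF of `exists_trace`.  `exists_class` (P0c8ca5.LemC) with `L = M = ⊤` gives `y` with
`e.coeff y ≠ 0` and `w ∈ fixAlg k ⊤ ⊤` with `resS (cls ⊤ y) e * w * e = e`.  Let `C` be the
centralizer of `y` and `P` a Sylow p-subgroup of `C`.  `HasBr P e` (`y` centralizes `P`).  So
`|P| ≤ p`.  Put `m = [C : P]`, prime to `p`, and `a = (e.coeff y / m) • (single y 1) * (w * e)`, which is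
`P`-invariant.  For every set `X` of representatives of the cosets `g P`:
`∑_{q ∈ X} cj q (single y 1) = m • (sum of the class of y)` (`q y q⁻¹ = z` for exactly `m` elements
`q` of `X` if `z` is in the class), and `resS (cls ⊤ y) e = e.coeff y • (sum of the class)`, so
`∑_{q ∈ X} cj q a = e`.  If `P = ⊥` then `X = A` and `e = trK ⊤ a`, so `HasBr Q e` forces
`Q = ⊥` (`coeff_trK_eq_zero` in P0c8ca5.DGN), i.e. `IsDZ p ⊤ e`, excluded.  So `|P| = p`, `P = ⟨x⟩`.
PROOF of `conj_of_hasBr`.  Let `c ∈ C(Q)` with `e.coeff c ≠ 0`.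
`e.coeff c = ∑_{q ∈ X} (cj q a).coeff c`.  The p-group `Q` acts on `X` (`u · q` = representative of
`u q D`) and the terms are constant on the orbits: `(cj (u q) a).coeff c = (cj q a).coeff (u⁻¹ c u)
= (cj q a).coeff c`, and `cj (q d) a = cj q a` for `d ∈ D`.  By `sum_eq_sum_fixed` (P0c8ca5.Basic)
there is a fixed point `q`: `q⁻¹ u q ∈ D` for all `u ∈ Q`, i.e. `Q ≤ cg q D`.
-/

namespace Pool.Agent.Lib.P0c8ca5.Rk

open MonoidAlgebra

variable {p : ℕ} {k : Type*} [Field k] {A : Type*} [Group A]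

namespace BrAAux

variable {M : Type*} [AddCommMonoid M]

theorem mk_eq_iff {D : Subgroup A} {q g : A} : (q : A ⧸ D) = (g : A ⧸ D) ↔ q⁻¹ * g ∈ D :=
  QuotientGroup.eq

/-- a sum over representatives as a sum over the cosets -/
theorem sum_reps [Fintype A] {D : Subgroup A} {X : Finset A} [Fintype (A ⧸ D)] (hX : Reps X ⊤ D)
    (F : A → M) (hF : ∀ q, ∀ d ∈ D, F (q * d) = F q) :
    ∑ q ∈ X, F q = ∑ t : A ⧸ D, F t.out := by
  refine Finset.sum_bij (fun q _ => (q : A ⧸ D)) (fun q _ => Finset.mem_univ _) ?_ ?_ ?_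
  · intro q hq q' hq' h
    obtain ⟨r, _, hr⟩ := hX.uniq q' (Subgroup.mem_top _)
    rw [hr q ⟨hq, mk_eq_iff.1 h⟩, hr q' ⟨hq', by rw [inv_mul_cancel]; exact D.one_mem⟩]
  · intro t _
    obtain ⟨g, rfl⟩ := QuotientGroup.mk_surjective t
    obtain ⟨r, ⟨hr1, hr2⟩, _⟩ := hX.uniq g (Subgroup.mem_top _)
    exact ⟨r, hr1, mk_eq_iff.2 hr2⟩
  · intro q _
    obtain ⟨d, hd⟩ := QuotientGroup.mk_out_eq_mul D q
    rw [hd, hF q d d.2]

open Classical in
/-- the fixed points of a `p`-group on the cosets -/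
theorem sum_fixed [Fact p.Prime] [CharP k p] [Fintype A] {D Q : Subgroup A} {X : Finset A}
    (hX : Reps X ⊤ D) (hQ : IsPGroup p Q) (F : A → k) (hD : ∀ q, ∀ d ∈ D, F (q * d) = F q)
    (hQF : ∀ u ∈ Q, ∀ q, F (u * q) = F q) :
    ∑ q ∈ X, F q = ∑ q ∈ X.filter (fun q => ∀ u ∈ Q, q⁻¹ * u * q ∈ D), F q := by
  have : Fintype (A ⧸ D) := Fintype.ofFinite _
  have hiff : ∀ q d : A, d ∈ D →
      ((∀ u ∈ Q, (q * d)⁻¹ * u * (q * d) ∈ D) ↔ ∀ u ∈ Q, q⁻¹ * u * q ∈ D) := by
    intro q d hd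
    refine forall₂_congr (fun u _ => ?_)
    have e1 : (q * d)⁻¹ * u * (q * d) = d⁻¹ * (q⁻¹ * u * q) * d := by group
    rw [e1]
    constructor
    · intro h
      have := D.mul_mem (D.mul_mem hd h) (D.inv_mem hd)
      have e2 : d * (d⁻¹ * (q⁻¹ * u * q) * d) * d⁻¹ = q⁻¹ * u * q := by group
      rwa [e2] at this
    · intro h
      exact D.mul_mem (D.mul_mem (D.inv_mem hd) h) hd
  rw [Finset.sum_filter, sum_reps hX F hD,
    sum_reps hX (fun q => if ∀ u ∈ Q, q⁻¹ * u * q ∈ D then F q else 0)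
      (fun q d hd => by simp only [hiff q d hd, hD q d hd]), ← Finset.sum_filter]
  refine sum_eq_sum_fixed (p := p) hQ ((MulAction.toPermHom A (A ⧸ D)).comp Q.subtype)
    (fun t => F t.out) ?_ _ ?_
  · intro u t
    obtain ⟨g, rfl⟩ := QuotientGroup.mk_surjective t
    change F ((((u : A) * g : A) : A ⧸ D)).out = F ((g : A ⧸ D)).out
    obtain ⟨d, hd⟩ := QuotientGroup.mk_out_eq_mul D g
    obtain ⟨d', hd'⟩ := QuotientGroup.mk_out_eq_mul D ((u : A) * g)
    rw [hd, hd', hD _ _ d.2, hD _ _ d'.2, hQF u u.2]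
  · intro t
    obtain ⟨g, rfl⟩ := QuotientGroup.mk_surjective t
    obtain ⟨d, hd⟩ := QuotientGroup.mk_out_eq_mul D g
    rw [Finset.mem_filter]
    simp only [Finset.mem_univ, true_and]
    rw [hd, hiff g d d.2]
    constructor
    · intro h u
      change (((u : A) * g : A) : A ⧸ D) = (g : A ⧸ D)
      rw [mk_eq_iff]
      have := D.inv_mem (h u u.2)
      have e2 : (g⁻¹ * (u : A) * g)⁻¹ = ((u : A) * g)⁻¹ * g := by group
      rwa [e2] at this
    · intro h u hu
      have h1 : ((u * g : A) : A ⧸ D) = (g : A ⧸ D) := h ⟨u, hu⟩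
      rw [mk_eq_iff] at h1
      have := D.inv_mem h1
      have e2 : ((u * g)⁻¹ * g)⁻¹ = g⁻¹ * u * g := by group
      rwa [e2] at this

open Classical in
/-- the number of representatives in a coset of a subgroup containing `P` -/
theorem card_reps [Fintype A] {C P : Subgroup A} {X : Finset A} (hX : Reps X ⊤ P) (hPC : P ≤ C)
    (g : A) : (X.filter (fun q => g⁻¹ * q ∈ C)).card = P.relIndex C := by
  have hbij : Function.Bijective (fun q : {q : A // q ∈ X.filter (fun q => g⁻¹ * q ∈ C)} =>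
      ((⟨g⁻¹ * q.1, (Finset.mem_filter.1 q.2).2⟩ : C) : C ⧸ P.subgroupOf C)) := by
    constructor
    · intro q q' h
      have h1 := QuotientGroup.eq.1 h
      rw [Subgroup.mem_subgroupOf] at h1
      have h2 : (q.1)⁻¹ * q'.1 ∈ P := by
        have e1 : (((⟨g⁻¹ * q.1, (Finset.mem_filter.1 q.2).2⟩ : C)⁻¹ *
          (⟨g⁻¹ * q'.1, (Finset.mem_filter.1 q'.2).2⟩ : C) : C) : A) = (q.1)⁻¹ * q'.1 := by
          change (g⁻¹ * q.1)⁻¹ * (g⁻¹ * q'.1) = _
          group
        rwa [e1] at h1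
      obtain ⟨r, _, hr⟩ := hX.uniq q'.1 (Subgroup.mem_top _)
      apply Subtype.ext
      rw [hr q.1 ⟨(Finset.mem_filter.1 q.2).1, h2⟩,
        hr q'.1 ⟨(Finset.mem_filter.1 q'.2).1, by rw [inv_mul_cancel]; exact P.one_mem⟩]
    · intro t
      obtain ⟨c, rfl⟩ := QuotientGroup.mk_surjective t
      obtain ⟨r, ⟨hr1, hr2⟩, _⟩ := hX.uniq (g * c) (Subgroup.mem_top _)
      have h3 : g⁻¹ * r ∈ C := by
        have := C.mul_mem c.2 (C.inv_mem (hPC hr2))
        have e1 : (c : A) * (r⁻¹ * (g * c))⁻¹ = g⁻¹ * r := by group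
        rwa [e1] at this
      refine ⟨⟨r, Finset.mem_filter.2 ⟨hr1, h3⟩⟩, ?_⟩
      apply QuotientGroup.eq.2
      rw [Subgroup.mem_subgroupOf]
      change (g⁻¹ * r)⁻¹ * (c : A) ∈ P
      have e1 : (g⁻¹ * r)⁻¹ * (c : A) = r⁻¹ * (g * c) := by group
      rwa [e1]
  rw [Subgroup.relIndex, Subgroup.index, ← Nat.card_congr (Equiv.ofBijective _ hbij),
    Nat.card_eq_fintype_card, Fintype.card_coe]

end BrAAux

open BrAAux

theorem exists_trace [Fact p.Prime] [CharP k p] [IsAlgClosed k] [Fintype A]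
    {e : MonoidAlgebra k A} (he : IsBlock ⊤ e)
    (hP : ∀ P : Subgroup A, IsPGroup p P → HasBr P e → Nat.card P ≤ p)
    (hnz : ¬ IsDZ p ⊤ e) :
    ∃ (x : A) (a : MonoidAlgebra k A), orderOf x = p ∧ HasBr (Subgroup.zpowers x) e ∧
      InvBy (Subgroup.zpowers x) a ∧
      ∀ X : Finset A, Reps X ⊤ (Subgroup.zpowers x) → ∑ q ∈ X, cj q a = e := by
  classical
  have hpp : p.Prime := Fact.out
  obtain ⟨y, -, hey, -, w, hw, hwe⟩ := exists_class (p := p) he he.invBy le_rfl
    Subgroup.le_normalizer (fun x _ => ⟨0, Subgroup.mem_top _⟩)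
  set C : Subgroup A := Subgroup.centralizer {y} with hC
  obtain ⟨P, hS⟩ := exists_isSyl (p := p) C
  have hyP : y ∈ Subgroup.centralizer (P : Set A) := by
    rw [Subgroup.mem_centralizer_iff]
    intro h hh
    exact (Subgroup.mem_centralizer_iff.1 (hS.le hh) y rfl).symm
  have hBr : HasBr P e := ⟨y, hyP, hey⟩
  have hcard := hP P hS.isPGroup hBr
  have hm : ((P.relIndex C : ℕ) : k) ≠ 0 := by
    intro h
    exact hS.ndvd ((CharP.cast_eq_zero_iff k p _).1 h)
  -- `w e` is central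
  have hw' : w * e ∈ fixAlg k ⊤ ⊤ := (fixAlg k ⊤ ⊤).mul_mem hw he.mem
  have hw'inv : InvBy (⊤ : Subgroup A) (w * e) := (mem_fixAlg.1 hw').2
  set a : MonoidAlgebra k A := (e.coeff y / (P.relIndex C : ℕ)) • (single y 1 * (w * e)) with ha
  have hainv : InvBy P a := by
    have h1 : InvBy P (single y (1:k)) := by
      rw [invBy_iff_commute]
      intro g hg
      have h2 := Subgroup.mem_centralizer_iff.1 hyP g hg
      change single g 1 * single y 1 = single y 1 * single g 1
      rw [single_mul_single, single_mul_single, h2]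
    have h2 : InvBy P (single y (1:k) * (w * e)) := by
      rw [invBy_iff_commute] at h1 ⊢
      intro g hg
      exact (h1 g hg).mul_right (invBy_iff_commute.1 hw'inv g (Subgroup.mem_top _))
    intro g hg x
    rw [ha, coeff_smul_apply, coeff_smul_apply, h2 g hg]
  have hsum : ∀ X : Finset A, Reps X ⊤ P → ∑ q ∈ X, cj q a = e := by
    intro X hX
    have h1 : ∑ q ∈ X, cj q (single y (1:k)) =
        ((P.relIndex C : ℕ) : k) • ((e.coeff y)⁻¹ • resS (cls ⊤ y : Set A) e) := by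
      ext z
      rw [coeff_smul_apply, coeff_smul_apply, coeff_sum, Finsupp.finsetSum_apply]
      by_cases hz : z ∈ cls ⊤ y
      · obtain ⟨g, _, hg⟩ := mem_cls.1 hz
        rw [coeff_resS_of_mem _ (Finset.mem_coe.2 hz)]
        have h2 : e.coeff z = e.coeff y := by rw [hg]; exact he.invBy g (Subgroup.mem_top _) y
        rw [h2, smul_eq_mul, smul_eq_mul, inv_mul_cancel₀ hey, mul_one,
          ← card_reps hX hS.le g, Finset.card_filter, Nat.cast_sum]
        refine Finset.sum_congr rfl (fun q _ => ?_)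
        rw [coeff_cj, coeff_single, Finsupp.single_apply, Nat.cast_ite, Nat.cast_one, Nat.cast_zero]
        congr 1
        rw [hg, hC, Subgroup.mem_centralizer_iff]
        apply propext
        constructor
        · intro h t ht
          rw [Set.mem_singleton_iff] at ht
          subst ht
          calc t * (g⁻¹ * q) = g⁻¹ * q * (q⁻¹ * (g * t * g⁻¹) * q) := by group
            _ = g⁻¹ * q * t := by rw [← h]
        · intro h
          have := h y rfl
          calc y = (g⁻¹ * q)⁻¹ * ((g⁻¹ * q) * y) := by group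
            _ = (g⁻¹ * q)⁻¹ * (y * (g⁻¹ * q)) := by rw [this]
            _ = _ := by group
      · rw [coeff_resS_of_notMem _ (fun h => hz (Finset.mem_coe.1 h)), smul_zero, smul_zero]
        apply Finset.sum_eq_zero
        intro q _
        rw [coeff_cj, coeff_single, Finsupp.single_apply, if_neg]
        intro h
        apply hz
        refine mem_cls.2 ⟨q, Subgroup.mem_top _, ?_⟩
        calc z = q * (q⁻¹ * z * q) * q⁻¹ := by group
          _ = q * y * q⁻¹ := by rw [← h]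
    have h2 : ∀ q ∈ X, cj q a =
        (e.coeff y / (P.relIndex C : ℕ)) • (cj q (single y 1) * (w * e)) := by
      intro q _
      rw [ha, cj_smul, cj_mul, invBy_iff_cj.1 hw'inv q (Subgroup.mem_top _)]
    rw [Finset.sum_congr rfl h2, ← Finset.smul_sum, ← Finset.sum_mul, h1, smul_mul_assoc,
      smul_mul_assoc, smul_smul, smul_smul, ← mul_assoc, hwe]
    have h3 : e.coeff y / ((P.relIndex C : ℕ) : k) * ((P.relIndex C : ℕ) : k) * (e.coeff y)⁻¹
        = 1 := by
      rw [div_mul_cancel₀ _ hm, mul_inv_cancel₀ hey]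
    rw [h3, one_smul]
  -- `P` is not trivial
  have hPne : P ≠ ⊥ := by
    intro hPb
    apply hnz
    refine ⟨he, fun Q _ hQ hbrQ => ?_⟩
    by_contra hQne
    obtain ⟨x, hx, hex⟩ := hbrQ
    apply hex
    have h1 : Reps (Finset.univ : Finset A) ⊤ P := by
      refine ⟨fun q _ => Subgroup.mem_top _, fun g _ => ⟨g, ⟨Finset.mem_univ _, ?_⟩, ?_⟩⟩
      · rw [inv_mul_cancel]; exact P.one_mem
      · rintro q ⟨_, hq⟩
        rw [hPb, Subgroup.mem_bot] at hq
        exact (inv_mul_eq_one.1 hq)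
    have h2 := hsum _ h1
    have h3 : trK (⊤ : Subgroup A) a = e := by
      rw [← h2, trK]
      refine Finset.sum_congr ?_ (fun _ _ => rfl)
      ext q
      simp
    rw [← h3]
    exact coeff_trK_eq_zero hQ le_top hQne a hx
  -- `P` has order `p`
  have hPcard : Nat.card P = p := by
    obtain ⟨n, hn⟩ := IsPGroup.iff_card.1 hS.isPGroup
    have hn0 : n ≠ 0 := by
      rintro rfl
      rw [pow_zero] at hn
      exact hPne (Subgroup.card_eq_one.1 hn)
    have hn1 : n ≤ 1 := by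
      rw [hn] at hcard
      by_contra hcon
      have : p ^ 1 < p ^ n := Nat.pow_lt_pow_right hpp.one_lt (by omega)
      rw [pow_one] at this
      omega
    have : n = 1 := by omega
    rw [hn, this, pow_one]
  obtain ⟨x, hxP, hx1⟩ : ∃ x ∈ P, x ≠ 1 := by
    obtain ⟨x, hx⟩ := Subgroup.ne_bot_iff_exists_ne_one.1 hPne
    exact ⟨x, x.2, fun h => hx (Subtype.ext h)⟩
  have hord : orderOf x = p := by
    have h1 : orderOf x ∣ p := by
      have := orderOf_dvd_natCard (⟨x, hxP⟩ : P)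
      rw [hPcard, Subgroup.orderOf_mk] at this
      exact this
    rcases (Nat.dvd_prime hpp).1 h1 with h | h
    · exact absurd (orderOf_eq_one_iff.1 h) hx1
    · exact h
  have hzp : Subgroup.zpowers x = P := by
    apply Subgroup.eq_of_le_of_card_ge
    · rw [Subgroup.zpowers_le]; exact hxP
    · rw [hPcard, Nat.card_zpowers, hord]
  refine ⟨x, a, hord, ?_, ?_, ?_⟩
  · rw [hzp]; exact hBr
  · rw [hzp]; exact hainv
  · intro X hX
    rw [hzp] at hX
    exact hsum X hX

theorem conj_of_hasBr [Fact p.Prime] [CharP k p] [Fintype A] {e a : MonoidAlgebra k A}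
    {D : Subgroup A} {X : Finset A} (hX : Reps X ⊤ D) (ha : InvBy D a)
    (he : ∑ q ∈ X, cj q a = e) {Q : Subgroup A} (hQ : IsPGroup p Q) (hbr : HasBr Q e) :
    ∃ g : A, Q ≤ cg g D := by
  classical
  obtain ⟨c, hc, hec⟩ := hbr
  rw [← he, coeff_sum, Finsupp.finsetSum_apply] at hec
  rw [sum_fixed (p := p) hX hQ (fun q => (cj q a).coeff c) ?_ ?_] at hec
  · obtain ⟨q, hq, _⟩ := Finset.exists_ne_zero_of_sum_ne_zero hec
    refine ⟨q, fun u hu => ?_⟩
    rw [mem_cg]
    exact (Finset.mem_filter.1 hq).2 u hu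
  · intro q d hd
    rw [← cj_cj, invBy_iff_cj.1 ha d hd]
  · intro u hu q
    rw [coeff_cj, coeff_cj]
    congr 1
    have := Subgroup.mem_centralizer_iff.1 hc u hu
    calc (u * q)⁻¹ * c * (u * q) = q⁻¹ * u⁻¹ * (c * u) * q := by group
      _ = q⁻¹ * u⁻¹ * (u * c) * q := by rw [← this]
      _ = q⁻¹ * c * q := by group

end Pool.Agent.Lib.P0c8ca5.Rk
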