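import Mathlib
import Pool.Agent.Lib.P0c8ca5R.Data
import Pool.Agent.Lib.P0c8ca5R.BrA

/-!
# Module BrB: existence of the data

PROOF. Take `x, a₀` from `exists_trace`, `D = ⟨x⟩`, `N` its normalizer, `C` its centralizer,
`X` from `exists_reps`, `b = resS C e`, `a = resS C a₀ * b`.
(F) for a `D`-invariant `c`: `resS C (∑_{q ∈ X} cj q c) = ∑_{q ∈ X ∩ N} cj q (resS C c)`.  Indeed for
`g ∈ C`: `D` acts on `X` (`d · q` = representative of `d q D`), the terms `(cj q c).coeff g` are
constant on the orbits, the fixed points are the `q ∈ X` with `q⁻¹ D q ≤ D`, i.e. `q ∈ N`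
(`sum_eq_sum_fixed`, P0c8ca5.Basic), and for `q ∈ N` the element `q⁻¹ g q` lies in `C`.
* `binv`: `N` normalizes `C`, `e` is invariant.  `bb`: `resS_mul`.  `be`, `bsupp`: definition.
* `asupp`: `SuppIn.mul`; `ab`: `b * b = b`.
* `trb`: `∑_{q ∈ X ∩ N} cj q (resS C a₀ * b) = (∑ cj q (resS C a₀)) * b = b * b = b` by (F) for `a₀`
  and `N`-invariance of `b`.
* `unit`: `z = ∑_{q ∈ X} cj q a` is in `fixAlg k ⊤ ⊤` (compare `RT_eqv`; `a` is `D`-invariant).  By
  `PrimIdem.nilp_or_unit` (`e` is primitive in the finite dimensional commutative algebra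
  `fixAlg k ⊤ ⊤`, `IsBlock.primIdem`) either there is `w` with `z * w * e = e`, or `z * e` is
  nilpotent.  In the second case `resS C (z * e) = resS C z * resS C e = b * b = b` is nilpotent
  (`resS_mul`, (F) for `a`: `resS C z = ∑_{q ∈ X ∩ N} cj q a = b`), but `b * b = b ≠ 0` by `HasBr D e`.
* the last statement is `conj_of_hasBr` for `a₀`.
-/

namespace Pool.Agent.Lib.P0c8ca5.Rk

open MonoidAlgebra

variable {p : ℕ} {k : Type*} [Field k] {A : Type*} [Group A]

namespace BrBAux

theorem norm_cent {D : Subgroup A} {g : A} (hg : g ∈ Subgroup.normalizer (D : Set A)) {c : A}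
    (hc : c ∈ Subgroup.centralizer (D : Set A)) :
    g⁻¹ * c * g ∈ Subgroup.centralizer (D : Set A) := by
  rw [Subgroup.mem_centralizer_iff] at hc ⊢
  intro d hd
  have h1 : g * d * g⁻¹ ∈ D := (Subgroup.mem_normalizer_iff.1 hg d).1 hd
  have h2 := hc _ h1
  calc d * (g⁻¹ * c * g) = g⁻¹ * ((g * d * g⁻¹) * c) * g := by group
    _ = g⁻¹ * (c * (g * d * g⁻¹)) * g := by rw [h2]
    _ = _ := by group

theorem mem_norm_cent {D : Subgroup A} {g : A} (hg : g ∈ Subgroup.normalizer (D : Set A)) :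
    g ∈ Subgroup.normalizer ((Subgroup.centralizer (D : Set A) : Subgroup A) : Set A) := by
  rw [Subgroup.mem_normalizer_iff]
  intro c
  constructor
  · intro hc
    have := norm_cent ((Subgroup.normalizer (D : Set A)).inv_mem hg) hc
    rwa [inv_inv] at this
  · intro hc
    have := norm_cent hg hc
    have e1 : g⁻¹ * (g * c * g⁻¹) * g = c := by group
    rwa [e1] at this

theorem mem_norm_iff [Fintype A] {D : Subgroup A} {q : A} :
    (∀ u ∈ D, q⁻¹ * u * q ∈ D) ↔ q ∈ Subgroup.normalizer (D : Set A) := by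
  constructor
  · intro h
    have h1 : cg q⁻¹ D = D := by
      apply Subgroup.eq_of_le_of_card_ge
      · intro u hu
        have h2 := h _ (mem_cg.1 hu)
        have e1 : q⁻¹ * ((q⁻¹)⁻¹ * u * q⁻¹) * q = u := by group
        rwa [e1] at h2
      · exact (card_cg _ _).ge
    have h2 : q⁻¹ ∈ Subgroup.normalizer (D : Set A) := cg_eq_self_iff.1 h1
    have := (Subgroup.normalizer (D : Set A)).inv_mem h2
    rwa [inv_inv] at this
  · intro h u hu
    have h1 := (Subgroup.mem_normalizer_iff.1 h (q⁻¹ * u * q)).2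
    apply h1
    have e1 : q * (q⁻¹ * u * q) * q⁻¹ = u := by group
    rwa [e1]

open Classical in
/-- the Brauer map of a relative trace -/
theorem resS_sum_cj [Fact p.Prime] [CharP k p] [Fintype A] {D : Subgroup A} {X : Finset A}
    (hX : Reps X ⊤ D) (hD : IsPGroup p D) {c : MonoidAlgebra k A} (hc : InvBy D c) :
    resS (Subgroup.centralizer (D : Set A) : Set A) (∑ q ∈ X, cj q c) =
      ∑ q ∈ X.filter (fun q => q ∈ Subgroup.normalizer (D : Set A)),
        cj q (resS (Subgroup.centralizer (D : Set A) : Set A) c) := by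
  ext g
  rw [coeff_sum, Finsupp.finsetSum_apply]
  by_cases hg : g ∈ (Subgroup.centralizer (D : Set A) : Set A)
  · rw [coeff_resS_of_mem _ hg, coeff_sum, Finsupp.finsetSum_apply,
      BrAAux.sum_fixed (p := p) hX hD (fun q => (cj q c).coeff g)]
    · refine Finset.sum_congr ?_ ?_
      · ext q
        rw [Finset.mem_filter, Finset.mem_filter, mem_norm_iff]
      · intro q hq
        have hq' := mem_norm_iff.2 (Finset.mem_filter.1 hq).2
        rw [coeff_cj, coeff_cj, coeff_resS_of_mem _ (norm_cent (mem_norm_iff.1 hq') hg)]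
    · intro q d hd
      rw [← cj_cj, invBy_iff_cj.1 hc d hd]
    · intro u hu q
      rw [coeff_cj, coeff_cj]
      congr 1
      have := Subgroup.mem_centralizer_iff.1 hg u hu
      calc (u * q)⁻¹ * g * (u * q) = q⁻¹ * u⁻¹ * (g * u) * q := by group
        _ = q⁻¹ * u⁻¹ * (u * g) * q := by rw [← this]
        _ = q⁻¹ * g * q := by group
  · rw [coeff_resS_of_notMem _ hg]
    symm
    apply Finset.sum_eq_zero
    intro q hq
    rw [coeff_cj, coeff_resS_of_notMem]
    intro h
    apply hg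
    have h1 := norm_cent ((Subgroup.normalizer (D : Set A)).inv_mem (Finset.mem_filter.1 hq).2) h
    have e1 : (q⁻¹)⁻¹ * (q⁻¹ * g * q) * q⁻¹ = g := by group
    rwa [e1] at h1

/-- a relative trace is invariant -/
theorem invBy_sum_cj [Fintype A] {D : Subgroup A} {X : Finset A}
    (hX : Reps X ⊤ D) {c : MonoidAlgebra k A} (hc : InvBy D c) :
    InvBy ⊤ (∑ q ∈ X, cj q c) := by
  classical
  have : Fintype (A ⧸ D) := Fintype.ofFinite _
  have hF : ∀ q, ∀ d ∈ D, cj (q * d) c = cj q c := by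
    intro q d hd
    rw [← cj_cj, invBy_iff_cj.1 hc d hd]
  rw [invBy_iff_cj]
  intro g _
  rw [cj_sum, BrAAux.sum_reps hX (fun q => cj q c) hF,
    BrAAux.sum_reps hX (fun q => cj g (cj q c)) (fun q d hd => by rw [hF q d hd])]
  refine Fintype.sum_equiv (MulAction.toPerm g) _ _ (fun t => ?_)
  obtain ⟨q, rfl⟩ := QuotientGroup.mk_surjective t
  obtain ⟨d, hd⟩ := QuotientGroup.mk_out_eq_mul D q
  obtain ⟨d', hd'⟩ := QuotientGroup.mk_out_eq_mul D (g * q)
  have e1 : MulAction.toPerm g ((q : A ⧸ D)) = ((g * q : A) : A ⧸ D) := rfl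
  rw [e1, hd, hd', hF _ _ d.2, hF _ _ d'.2, cj_cj]

end BrBAux

open BrBAux

theorem exists_data [Fact p.Prime] [CharP k p] [IsAlgClosed k] [Fintype A]
    {e : MonoidAlgebra k A} (he : IsBlock ⊤ e)
    (hP : ∀ P : Subgroup A, IsPGroup p P → HasBr P e → Nat.card P ≤ p)
    (hnz : ¬ IsDZ p ⊤ e) :
    ∃ (a b : MonoidAlgebra k A) (x : A) (D N : Subgroup A) (X : Finset A),
      Data p e a b x D N X ∧
      ∀ Q : Subgroup A, IsPGroup p Q → HasBr Q e → ∃ g : A, Q ≤ cg g D := by
  classical
  obtain ⟨x, a₀, hord, hbr, ha₀, hsum⟩ := exists_trace he hP hnz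
  set D := Subgroup.zpowers x with hD
  obtain ⟨X, hX⟩ := exists_reps (K := (⊤ : Subgroup A)) (D := D) le_top
  set C : Subgroup A := Subgroup.centralizer (D : Set A) with hC
  set N : Subgroup A := Subgroup.normalizer (D : Set A) with hN
  have hDp : IsPGroup p D :=
    IsPGroup.of_card (n := 1) (by rw [hD, Nat.card_zpowers, hord, pow_one])
  have hDN : D ≤ N := Subgroup.le_normalizer
  have hCN : N ≤ Subgroup.normalizer (C : Set A) := fun g hg => mem_norm_cent hg
  have heD : InvBy D e := he.invBy.mono le_top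
  set b := resS (C : Set A) e with hb
  set a := resS (C : Set A) a₀ * b with ha
  have hbb : b * b = b := by rw [hb, ← resS_mul hDp heD heD, he.idem]
  have hbsupp : SuppIn C b := resS_suppIn
  have hasupp : SuppIn C a := resS_suppIn.mul hbsupp
  have hbinv : InvBy N b := resS_invBy hCN (he.invBy.mono le_top)
  have hae := hsum X hX
  have h1 : ∑ q ∈ X.filter (fun q => q ∈ N), cj q (resS (C : Set A) a₀) = b := by
    rw [hb, ← hae, resS_sum_cj hX hDp ha₀]
  have htrb : ∑ q ∈ X.filter (fun q => q ∈ N), cj q a = b := by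
    have h2 : ∀ q ∈ X.filter (fun q => q ∈ N), cj q a = cj q (resS (C : Set A) a₀) * b := by
      intro q hq
      rw [ha, cj_mul, invBy_iff_cj.1 hbinv q (Finset.mem_filter.1 hq).2]
    rw [Finset.sum_congr rfl h2, ← Finset.sum_mul, h1, hbb]
  have hainv : InvBy D a := invBy_of_supp hasupp
  have hbne : b ≠ 0 := by
    obtain ⟨c, hc, hec⟩ := hbr
    intro h
    apply hec
    rw [← coeff_resS_of_mem (S := (C : Set A)) e hc, ← hb, h]
    rfl
  refine ⟨a, b, x, D, N, X, ⟨hord, rfl, rfl, hX, he, hbr, hbsupp, hbinv, hbb, ?_, hasupp, ?_,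
    htrb, ?_⟩, ?_⟩
  · intro c hc
    exact coeff_resS_of_mem e hc
  · rw [ha, mul_assoc, hbb]
  · set z := ∑ q ∈ X, cj q a with hz
    have hzinv : InvBy ⊤ z := invBy_sum_cj hX hainv
    have hzmem : z ∈ fixAlg k ⊤ ⊤ := mem_fixAlg.2 ⟨fun _ _ => Subgroup.mem_top _, hzinv⟩
    have hzD : InvBy D z := hzinv.mono le_top
    have hzr : resS (C : Set A) z = b := by
      rw [hz, resS_sum_cj hX hDp hainv, ← htrb]
      refine Finset.sum_congr rfl (fun q _ => ?_)
      rw [resS_eq_self hasupp]
    have hzeD : InvBy D (z * e) := by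
      rw [invBy_iff_commute] at hzD heD ⊢
      exact fun g hg => (hzD g hg).mul_right (heD g hg)
    have hzer : resS (C : Set A) (z * e) = b := by
      rw [resS_mul hDp hzD heD, hzr, ← hb, hbb]
    have hA : IsArtinianRing (fixAlg k (⊤ : Subgroup A) ⊤) := IsArtinianRing.of_finite k _
    rcases he.primIdem.nilp_or_unit ⟨z, hzmem⟩ with ⟨n, hn⟩ | ⟨w, hw⟩
    · exfalso
      have h1 : (z * e) ^ n = 0 := congrArg Subtype.val hn
      have h2 : ∀ m : ℕ, InvBy D ((z * e) ^ m) ∧ resS (C : Set A) ((z * e) ^ (m + 1)) = b := by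
        intro m
        induction m with
        | zero =>
          refine ⟨?_, ?_⟩
          · rw [pow_zero, invBy_iff_commute]
            intro g _; exact Commute.one_right _
          · rw [zero_add, pow_one, hzer]
        | succ m ih =>
          have h3 : InvBy D ((z * e) ^ (m + 1)) := by
            rw [invBy_iff_commute] at hzeD ⊢
            exact fun g hg => (hzeD g hg).pow_right _
          refine ⟨h3, ?_⟩
          rw [pow_succ, resS_mul hDp h3 hzeD, ih.2, hzer, hbb]
      have h3 : (z * e) ^ (n + 1) = 0 := by rw [pow_succ, h1, zero_mul]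
      apply hbne
      rw [← (h2 n).2, h3, resS_zero]
    · exact ⟨w.1, w.2, congrArg Subtype.val hw⟩
  · intro Q hQ hbrQ
    exact conj_of_hasBr hX ha₀ hae hQ hbrQ

end Pool.Agent.Lib.P0c8ca5.Rk
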