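import Mathlib
import Pool.Agent.Lib.P0c8ca5R.Triv
import Pool.Agent.Lib.P0c8ca5.Official

/-!
# Module Inf1: inflation of irreducible representations

`R` is a normal p-subgroup of `K`, `sec K R` the image of `K` in `N_A(R)/R`.
PROOF. `R` acts trivially on every irreducible `ρ` of `K` (`irr_trivial` with `ofRep ρ`), so `ρ` factors
through the surjection `K → sec K R`, `x ↦ qm R x _`, with kernel `R`; conversely inflate.
This is a bijection between the isomorphism classes of irreducible representations.  Blocks: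
`act ρ c = act ρ̄ (proj R c)` because `(proj R c).coeff (qm R n _) = ∑_{x ∈ n R} c.coeff x`
(`coeff_proj`, `sum_qm` in P0c8ca5.Sect; the support of `c` is in `K ≤ N_A(R)`).
Use `mkIrr`, `act_iff`, `irr_iff`, `iso_iff` as in `dn_card_irr` (P0c8ca5N.TrA).
-/

namespace Pool.Agent.Lib.P0c8ca5.Rk

open MonoidAlgebra

variable {p : ℕ} {k : Type*} [Field k] {A : Type*} [Group A]

namespace Inf1Aux

/-- the projection of `K` onto `sec K R` -/
def prK {K R : Subgroup A} (hn : K ≤ Subgroup.normalizer (R : Set A)) : ↥K →* ↥(sec K R) where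
  toFun x := ⟨qm R x (hn x.2), qm_mem_sec _ x.2⟩
  map_one' := rfl
  map_mul' _ _ := rfl

theorem coe_prK {K R : Subgroup A} (hn : K ≤ Subgroup.normalizer (R : Set A)) (x : ↥K) :
    (prK hn x : NQ R) = qm R x (hn x.2) := rfl

theorem prK_surj {K R : Subgroup A} (hn : K ≤ Subgroup.normalizer (R : Set A)) :
    Function.Surjective (prK hn) := by
  rintro ⟨w, hw⟩
  obtain ⟨x, hxK, hx, rfl⟩ := mem_sec.1 hw
  exact ⟨⟨x, hxK⟩, rfl⟩

theorem prK_eq_iff {K R : Subgroup A} (hn : K ≤ Subgroup.normalizer (R : Set A)) {x y : ↥K} :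
    prK hn x = prK hn y ↔ (x : A)⁻¹ * y ∈ R := by
  rw [← qm_eq_iff (hx := hn x.2) (hy := hn y.2), Subtype.ext_iff]
  rfl

/-- deflation -/
noncomputable def defl {K R : Subgroup A} (hn : K ≤ Subgroup.normalizer (R : Set A))
    {V : Type*} [AddCommGroup V] [Module k V] (ρ : Representation k K V)
    (h : ∀ x y : K, prK hn x = prK hn y → ρ x = ρ y) : Representation k (sec K R) V where
  toFun w := ρ (Function.surjInv (prK_surj hn) w)
  map_one' := by
    rw [h _ 1 (by rw [Function.surjInv_eq (prK_surj hn), map_one]), map_one]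
  map_mul' w w' := by
    rw [← map_mul]
    apply h
    rw [Function.surjInv_eq (prK_surj hn), map_mul, Function.surjInv_eq (prK_surj hn),
      Function.surjInv_eq (prK_surj hn)]

theorem defl_prK {K R : Subgroup A} (hn : K ≤ Subgroup.normalizer (R : Set A))
    {V : Type*} [AddCommGroup V] [Module k V] (ρ : Representation k K V)
    (h : ∀ x y : K, prK hn x = prK hn y → ρ x = ρ y) (x : K) : defl hn ρ h (prK hn x) = ρ x :=
  h _ _ (Function.surjInv_eq _ _)

theorem irr_infl {K R : Subgroup A} (hn : K ≤ Subgroup.normalizer (R : Set A))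
    {V : Type*} [AddCommGroup V] [Module k V] {σ : Representation k (sec K R) V} (h : Irr' σ) :
    Irr' (σ.comp (prK hn) : Representation k K V) := by
  refine ⟨h.nontriv, fun W hW => h.sub W (fun g w hw => ?_)⟩
  obtain ⟨x, rfl⟩ := prK_surj hn g
  exact hW x w hw

theorem irr_defl {K R : Subgroup A} (hn : K ≤ Subgroup.normalizer (R : Set A))
    {V : Type*} [AddCommGroup V] [Module k V] {ρ : Representation k K V}
    (h : ∀ x y : K, prK hn x = prK hn y → ρ x = ρ y) (hρ : Irr' ρ) : Irr' (defl hn ρ h) := by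
  refine ⟨hρ.nontriv, fun W hW => hρ.sub W (fun g w hw => ?_)⟩
  have h1 := hW (prK hn g) w hw
  rwa [defl_prK] at h1

theorem act_infl [Fintype A] {K R : Subgroup A} (hRK : R ≤ K)
    (hn : K ≤ Subgroup.normalizer (R : Set A))
    {V : Type*} [AddCommGroup V] [Module k V] (σ : Representation k (sec K R) V)
    {c : MonoidAlgebra k A} :
    act (σ.comp (prK hn) : Representation k K V) c = act σ (proj R c) := by
  classical
  have : Fintype K := Fintype.ofFinite K
  have : Fintype ↥(sec K R) := Fintype.ofFinite _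
  apply LinearMap.ext
  intro v
  rw [act_apply, act_apply, ← Finset.sum_fiberwise Finset.univ (fun x : K => prK hn x)]
  refine Finset.sum_congr rfl (fun w _ => ?_)
  obtain ⟨n, rfl⟩ := prK_surj hn w
  have h1 : ∀ x ∈ Finset.univ.filter (fun x : K => prK hn x = prK hn n),
      c.coeff (x : A) • (σ.comp (prK hn) : K →* (V →ₗ[k] V)) x v
        = c.coeff (x : A) • σ (prK hn n) v := by
    intro x hx
    rw [Finset.mem_filter] at hx
    change c.coeff (x : A) • σ (prK hn x) v = _
    rw [hx.2]
  rw [Finset.sum_congr rfl h1, ← Finset.sum_smul, coe_prK, coeff_proj, ← Finset.sum_filter]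
  congr 1
  symm
  refine Finset.sum_bij' (fun x hx => (⟨x, ?_⟩ : K)) (fun y _ => (y : A)) ?_ ?_ ?_ ?_ ?_
  · rw [Finset.mem_filter] at hx
    have h2 := K.mul_mem n.2 (hRK hx.2)
    rwa [mul_inv_cancel_left] at h2
  · intro x hx
    rw [Finset.mem_filter] at hx
    rw [Finset.mem_filter]
    exact ⟨Finset.mem_univ _, ((prK_eq_iff hn).2 hx.2).symm⟩
  · intro y hy
    rw [Finset.mem_filter] at hy
    rw [Finset.mem_filter]
    exact ⟨Finset.mem_univ _, (prK_eq_iff hn).1 hy.2.symm⟩
  · intro x _; rfl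
  · intro y _; rfl
  · intro x _; rfl

end Inf1Aux

open Inf1Aux

theorem card_irr_infl [Fact p.Prime] [CharP k p] [Fintype A] {K R : Subgroup A} (hRK : R ≤ K)
    (hn : K ≤ Subgroup.normalizer (R : Set A)) (hR : IsPGroup p R) {c : MonoidAlgebra k A}
    (hc : SuppIn K c) :
    Nat.card (Quotient (irrInvSetoid K ⊥ c))
      = Nat.card (Quotient (irrInvSetoid (sec K R) ⊥ (proj R c))) := by
  have htriv : ∀ σ : IrrInv K ⊥ c, ∀ x y : K, prK hn x = prK hn y → σ.ρ x = σ.ρ y := by
    intro σ x y hxy
    have h1 := irr_trivial hRK hn hR (isRep_ofRep σ.ρ) ((irr_ofRep σ.ρ).1 (irr_iff.1 σ.irr))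
    have h2 := h1 _ ((prK_eq_iff hn).1 hxy)
    have h3 : ((x : A)⁻¹ * y) ∈ K := K.mul_mem (K.inv_mem x.2) y.2
    rw [ofRep_mem σ.ρ h3] at h2
    have h4 : y = x * ⟨(x : A)⁻¹ * y, h3⟩ := by
      apply Subtype.ext
      change (y : A) = (x : A) * ((x : A)⁻¹ * (y : A))
      rw [mul_inv_cancel_left]
    rw [h4, map_mul, h2, mul_one]
  apply Nat.card_congr
  refine
    { toFun := Quotient.map (fun σ => mkIrr (defl hn σ.ρ (htriv σ))
          (irr_defl hn (htriv σ) (irr_iff.1 σ.irr)) (by
            rw [← act_infl hRK hn (defl hn σ.ρ (htriv σ))]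
            have h1 : ((defl hn σ.ρ (htriv σ)).comp (prK hn) : Representation k K _) = σ.ρ :=
              MonoidHom.ext (fun x => defl_prK hn σ.ρ (htriv σ) x)
            rw [h1]
            exact act_iff.2 σ.blk)) ?_
      invFun := Quotient.map (fun σ => mkIrr (σ.ρ.comp (prK hn) : Representation k K _)
          (irr_infl hn (irr_iff.1 σ.irr)) (by
            rw [act_infl hRK hn]
            exact act_iff.2 σ.blk)) ?_
      left_inv := ?_
      right_inv := ?_ }
  · rintro σ σ' h
    obtain ⟨P, hP⟩ := iso_iff.2 h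
    refine iso_iff.1 ⟨P, fun x v => ?_⟩
    obtain ⟨x, rfl⟩ := prK_surj hn x
    change P (defl hn σ.ρ (htriv σ) (prK hn x) v) = defl hn σ'.ρ (htriv σ') (prK hn x) (P v)
    rw [defl_prK, defl_prK]
    exact hP x v
  · rintro σ σ' h
    obtain ⟨P, hP⟩ := iso_iff.2 h
    exact iso_iff.1 ⟨P, fun x v => hP (prK hn x) v⟩
  · intro x
    induction x using Quotient.inductionOn with
    | _ σ =>
      apply mk_eq_mk.2
      refine ⟨LinearEquiv.refl k _, fun x v => ?_⟩
      change defl hn σ.ρ (htriv σ) (prK hn x) v = σ.ρ x v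
      rw [defl_prK]
  · intro x
    induction x using Quotient.inductionOn with
    | _ σ =>
      apply mk_eq_mk.2
      refine ⟨LinearEquiv.refl k _, fun x v => ?_⟩
      obtain ⟨x, rfl⟩ := prK_surj hn x
      have h5 : ∀ x y : K, prK hn x = prK hn y →
          (σ.ρ.comp (prK hn) : Representation k K _) x
            = (σ.ρ.comp (prK hn) : Representation k K _) y := by
        intro x y hxy
        change σ.ρ (prK hn x) = σ.ρ (prK hn y)
        rw [hxy]
      exact LinearMap.congr_fun
        (defl_prK hn (σ.ρ.comp (prK hn) : Representation k K _) h5 x) v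

end Pool.Agent.Lib.P0c8ca5.Rk
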