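import Mathlib
import Pool.Agent.Lib.P0c8ca5.Official

/-!
# Module Inf4: defect groups modulo a normal p-subgroup

PROOF. Let `P = {x ∈ K : qm R x _ ∈ P'}`, the preimage of `P'`: `R ≤ P ≤ K`, `|P| = |R| |P'|`,
a p-group (`R` and `P'` are).  `b' * proj R b` is `0` or `b'` because `proj R b` is a central idempotent
of `k[sec K R]` and `b'` is a block (`IsBlock.mul_eq`; `commute_of`), so `b' * proj R b = b'`.  The part
of `b'` supported in the centralizer of `P'` is nonzero and `resS` is multiplicative on `P'`-invariant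
elements (`resS_mul`), so the part of `proj R b` supported in the centralizer of `P'` is nonzero: there
is `n ∈ K` with `qm R n _` centralizing `P'` and `(proj R b).coeff (qm R n _) ≠ 0`, i.e.
`∑_{x ∈ n R} b.coeff x ≠ 0` (`coeff_proj`).  The p-group `P` acts by conjugation on the coset
`n R` (as `qm R n _` is centralized by `P'`) and `b` is `P`-invariant, so by `sum_conj_eq` (or
`sum_eq_sum_fixed`), applied to the function `x ↦ if n⁻¹ x ∈ R then b.coeff x else 0`, there is
`x ∈ n R` centralizing `P` with `b.coeff x ≠ 0`.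
-/

namespace Pool.Agent.Lib.P0c8ca5.Rk

open MonoidAlgebra

variable {p : ℕ} {k : Type*} [Field k] {A : Type*} [Group A]

theorem hasBr_infl [Fact p.Prime] [CharP k p] [Fintype A] {K R : Subgroup A}
    (hRK : R ≤ K) (hn : K ≤ Subgroup.normalizer (R : Set A)) (hR : IsPGroup p R)
    {b : MonoidAlgebra k A} (hb : SuppIn K b) (hb' : InvBy K b) (hbb : b * b = b)
    {b' : MonoidAlgebra k (NQ R)} (hblk : IsBlock (sec K R) b') (hne : b' * proj R b ≠ 0)
    {P' : Subgroup (NQ R)} (hP' : P' ≤ sec K R) (hpP' : IsPGroup p P') (hbr : HasBr P' b') :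
    ∃ P : Subgroup A, R ≤ P ∧ P ≤ K ∧ IsPGroup p P ∧ HasBr P b ∧
      Nat.card P = Nat.card R * Nat.card P' := by
  classical
  let Φ : ↥(Subgroup.normalizer (R : Set A)) →* NQ R := QuotientGroup.mk' _
  let P₀ : Subgroup ↥(Subgroup.normalizer (R : Set A)) := P'.comap Φ
  let P : Subgroup A := P₀.map (Subgroup.normalizer (R : Set A)).subtype
  have hmem : ∀ x : A, x ∈ P ↔ ∃ hx, qm R x hx ∈ P' := by
    intro x
    constructor
    · rintro ⟨⟨y, hy⟩, h1, rfl⟩
      exact ⟨hy, h1⟩
    · rintro ⟨hx, h1⟩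
      exact ⟨⟨x, hx⟩, h1, rfl⟩
  have hRP : R ≤ P := by
    intro x hx
    refine (hmem x).2 ⟨Subgroup.le_normalizer hx, ?_⟩
    rw [qm_eq_one_iff.2 hx]
    exact P'.one_mem
  have hPK : P ≤ K := by
    intro x hx
    obtain ⟨hx1, hx2⟩ := (hmem x).1 hx
    exact (qm_mem_sec_iff hRK).1 (hP' hx2)
  have hker : IsPGroup p Φ.ker := by
    have h1 : Φ.ker = R.subgroupOf (Subgroup.normalizer (R : Set A)) := QuotientGroup.ker_mk' _
    rw [h1]
    exact hR.comap_of_injective _ (Subgroup.subtype_injective _)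
  have hpP : IsPGroup p P := (hpP'.comap_of_ker_isPGroup Φ hker).map _
  have hcard : Nat.card P = Nat.card R * Nat.card P' := by
    have h1 : Nat.card P = Nat.card P₀ :=
      Nat.card_congr (Subgroup.equivMapOfInjective P₀ _ (Subgroup.subtype_injective _)).toEquiv.symm
    let α : ↥P₀ →* NQ R := Φ.comp P₀.subtype
    have hrange : α.range = P' := by
      ext w
      constructor
      · rintro ⟨x, rfl⟩
        exact x.2
      · intro hw
        obtain ⟨n, hn', rfl⟩ := qm_surj w
        exact ⟨⟨⟨n, hn'⟩, hw⟩, rfl⟩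
    have hk : Nat.card α.ker = Nat.card R := by
      have hRP₀ : R.subgroupOf (Subgroup.normalizer (R : Set A)) ≤ P₀ := by
        intro x hx
        change Φ x ∈ P'
        have h2 : Φ x = 1 := (QuotientGroup.eq_one_iff x).2 hx
        rw [h2]
        exact P'.one_mem
      have h3 : α.ker = (R.subgroupOf (Subgroup.normalizer (R : Set A))).subgroupOf P₀ := by
        ext x
        rw [MonoidHom.mem_ker, Subgroup.mem_subgroupOf]
        exact QuotientGroup.eq_one_iff (x : ↥(Subgroup.normalizer (R : Set A)))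
      rw [h3, Nat.card_congr (Subgroup.subgroupOfEquivOfLe hRP₀).toEquiv]
      exact Nat.card_congr (Subgroup.subgroupOfEquivOfLe Subgroup.le_normalizer).toEquiv
    rw [h1, ← Subgroup.card_mul_index α.ker, Subgroup.index_ker, hrange, hk]
  refine ⟨P, hRP, hPK, hpP, ?_, hcard⟩
  -- the projection of `b`
  have hcmem : proj R b ∈ fixAlg k (sec K R) (sec K R) :=
    mem_fixAlg.2 ⟨proj_suppIn hb R, proj_invBy' hb'⟩
  have hcidem : proj R b * proj R b = proj R b := by
    rw [← proj_mul hR (hb'.mono hRK) (hb'.mono hRK), hbb]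
  have hcb : proj R b * b' = b' := by
    rcases hblk.mul_eq hcmem hcidem with h | h
    · exfalso
      apply hne
      rw [commute_of hblk.suppIn (mem_fixAlg.1 hcmem).2, h]
    · exact h
  have hres := resS_mul (p := p) hpP' ((mem_fixAlg.1 hcmem).2.mono hP') (hblk.invBy.mono hP')
  rw [hcb] at hres
  obtain ⟨w, hw, hw0⟩ : ∃ w ∈ Subgroup.centralizer (P' : Set (NQ R)), (proj R b).coeff w ≠ 0 := by
    by_contra hcon
    push Not at hcon
    have h1 : resS (Subgroup.centralizer (P' : Set (NQ R)) : Set (NQ R)) (proj R b) = 0 := by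
      ext w
      by_cases hw : w ∈ (Subgroup.centralizer (P' : Set (NQ R)) : Set (NQ R))
      · rw [coeff_resS_of_mem _ hw, hcon w hw]
        rfl
      · rw [coeff_resS_of_notMem _ hw]
        rfl
    rw [h1, zero_mul] at hres
    obtain ⟨x, hx, hxb⟩ := hbr
    apply hxb
    rw [← coeff_resS_of_mem b' (S := (Subgroup.centralizer (P' : Set (NQ R)) : Set (NQ R))) hx,
      hres]
    rfl
  obtain ⟨n, hnK, hnR, rfl⟩ := mem_sec.1 ((mem_fixAlg.1 hcmem).1 w hw0)
  rw [coeff_proj] at hw0
  rw [Subgroup.mem_centralizer_iff] at hw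
  rw [sum_conj_eq (p := p) hpP (fun x => if n⁻¹ * x ∈ R then b.coeff x else 0) ?_
    (Finset.univ.filter (fun x => x ∈ Subgroup.centralizer (P : Set A))) (fun x => by simp)] at hw0
  · obtain ⟨x, hx, hx0⟩ := Finset.exists_ne_zero_of_sum_ne_zero hw0
    rw [Finset.mem_filter] at hx
    refine ⟨x, hx.2, fun h0 => hx0 ?_⟩
    rw [h0]
    split_ifs <;> rfl
  · intro d hd x
    obtain ⟨hd1, hd2⟩ := (hmem d).1 hd
    have h1 := hw _ hd2
    have h2 : n⁻¹ * d * n * d⁻¹ ∈ R := by
      have h3 : qm R (n⁻¹ * d * n * d⁻¹) ((Subgroup.normalizer (R : Set A)).mul_mem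
          ((Subgroup.normalizer (R : Set A)).mul_mem ((Subgroup.normalizer (R : Set A)).mul_mem
            ((Subgroup.normalizer (R : Set A)).inv_mem hnR) hd1) hnR)
          ((Subgroup.normalizer (R : Set A)).inv_mem hd1)) = 1 := by
        change (qm R n hnR)⁻¹ * qm R d hd1 * qm R n hnR * (qm R d hd1)⁻¹ = 1
        rw [mul_assoc (qm R n hnR)⁻¹, h1]
        group
      exact qm_eq_one_iff.1 h3
    have hcond : n⁻¹ * (d * x * d⁻¹) ∈ R ↔ n⁻¹ * x ∈ R := by
      have e1 : n⁻¹ * (d * x * d⁻¹) = (n⁻¹ * d * n * d⁻¹) * (d * (n⁻¹ * x) * d⁻¹) := by group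
      rw [e1, R.mul_mem_cancel_left h2]
      exact ((Subgroup.mem_normalizer_iff.1 hd1) _).symm
    simp only [hcond]
    rw [hb' d (hPK hd) x]

end Pool.Agent.Lib.P0c8ca5.Rk
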