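import Mathlib
import Pool.Agent.Lib.P0c8ca5R.Base0
import Pool.Agent.Lib.P0c8ca5R.Bij
import Pool.Agent.Lib.P0c8ca5R.BrB
import Pool.Agent.Lib.P0c8ca5R.Inf1
import Pool.Agent.Lib.P0c8ca5R.Inf4
import Pool.Agent.Lib.P0c8ca5N.WInv

/-!
# Module Base1: the blockwise weight conjecture for blocks with defect groups of order at most `p`

PROOF of `card_w_D`.  `proj D e = proj D b` (`proj_cS` in P0c8ca5N.WInv: `b = resS (centralizer D) e`
by `h.be`, `h.bsupp`; or `proj_congr`).  Every block `f` of `sec N D` with `f * proj D b ≠ 0` has defect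
zero: if `P'` is a p-subgroup of `sec N D` with `HasBr P' f` then `hasBr_infl` (`K = N`, `R = D`) gives
a p-subgroup `P ≥ D` with `HasBr P b`, `|P| = p |P'|`; `HasBr P e` because an element centralizing `P`
centralizes `D` (`h.be`), so `|P| ≤ p` and `P' = ⊥`.  So the set in question is the set of all
blocks `f` of `sec N D` with `f * proj D b ≠ 0` (`IsBlock.mul_eq`), and by `card_irX_blocks`
(P0c8ca5N.WSum) and `card_irr_dz` their number is `l(proj D b)`, which is `l(N, b)` by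
`card_irr_infl` and `l(e)` by `card_irr_bij`.  (`sec ⊤ D = sec N D`: `sec_inf_normalizer`.)
PROOF of `base`.  If `IsDZ p ⊤ e` use `base_zero`.  Otherwise take `exists_data`.  By `card_irr_eq`
and `sum_DZ_eq` with all p-subgroups it suffices that `|A| * l(e) = ∑_Q |N(Q)| * w(Q)`.  If `w(Q) ≠ 0`
then `HasBr Q e` (`hasBr_of_proj`), `Q ≠ ⊥` (`card_w_bot`), `Q ≤ cg g D` for some `g`, and by orders
`Q = cg g D`.  `w(cg g D) = w(D)` (`card_cg_eq` in P0c8ca5.Conj), `|N(cg g D)| = |N(D)|`, and the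
number of the subgroups `cg g D` is `|A| / |N(D)|` (orbit of the conjugation action).
-/

namespace Pool.Agent.Lib.P0c8ca5.Rk

open MonoidAlgebra

variable {p : ℕ} {k : Type*} [Field k] {A : Type*} [Group A]

namespace Base1Aux

theorem card_set_zero {α : Type*} {S : Set α} (h : ∀ x, x ∉ S) : Nat.card S = 0 := by
  rw [Set.eq_empty_of_forall_notMem h]
  exact Nat.card_of_isEmpty

theorem proj_e [Fact p.Prime] [CharP k p] [Fintype A]
    {e a b : MonoidAlgebra k A} {x : A} {D N : Subgroup A} {X : Finset A}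
    (h : Data p e a b x D N X) : proj D e = proj D b := by
  have h1 : cS D e = b := by
    ext y
    by_cases hy : y ∈ (Subgroup.centralizer (D : Set A) : Set A)
    · rw [coeff_resS_of_mem _ hy, h.be y hy]
    · rw [coeff_resS_of_notMem _ hy]
      by_contra h0
      exact hy (h.bsupp y (fun h' => h0 h'.symm))
  rw [← h1]
  exact (proj_cS h.isPGroup (h.blk.invBy.mono le_top)).symm

end Base1Aux

open Base1Aux

theorem card_w_D [Fact p.Prime] [CharP k p] [IsAlgClosed k] [Fintype A]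
    {e a b : MonoidAlgebra k A} {x : A} {D N : Subgroup A} {X : Finset A}
    (h : Data p e a b x D N X)
    (hP : ∀ P : Subgroup A, IsPGroup p P → HasBr P e → Nat.card P ≤ p) :
    Nat.card {f : MonoidAlgebra k (NQ D) | IsDZ p (sec ⊤ D) f ∧ f * proj D e = f}
      = Nat.card (Quotient (irrInvSetoid (⊤ : Subgroup A) ⊥ e)) := by
  classical
  have : Fintype (NQ D) := Fintype.ofFinite _
  have hNn : N ≤ Subgroup.normalizer (D : Set A) := by rw [h.hN]
  have hsec : sec ⊤ D = sec N D := by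
    rw [← sec_inf_normalizer ⊤ D, top_inf_eq, h.hN]
  have hc : SuppIn (sec N D) (proj D b) := proj_suppIn h.bN D
  have hc' : InvBy (sec N D) (proj D b) := proj_invBy' h.binv
  have hcc : proj D b * proj D b = proj D b := by
    rw [← proj_mul h.isPGroup (h.binv.mono h.le) (h.binv.mono h.le), h.bb]
  have hmem : proj D b ∈ fixAlg k (sec N D) (sec N D) := mem_fixAlg.2 ⟨hc, hc'⟩
  have hcard1 : ∀ P : Subgroup A, IsPGroup p P → D ≤ P → HasBr P b → Nat.card P ≤ p := by
    intro P hpP hDP hbr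
    obtain ⟨y, hy, hyb⟩ := hbr
    refine hP P hpP ⟨y, hy, ?_⟩
    rwa [← h.be y (Subgroup.centralizer_le hDP hy)]
  have hdz : ∀ f : MonoidAlgebra k (NQ D), IsBlock (sec N D) f → f * proj D b ≠ 0 →
      IsDZ p (sec N D) f := by
    intro f hf hne
    refine ⟨hf, fun P' hP' hpP' hbr => ?_⟩
    obtain ⟨P, h1, h2, h3, h4, h5⟩ := hasBr_infl h.le hNn h.isPGroup h.bN h.binv h.bb hf hne
      hP' hpP' hbr
    have h6 := hcard1 P h3 h1 h4
    rw [h5, h.card] at h6
    have hp0 : 0 < p := (Fact.out : p.Prime).pos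
    have h7 : Nat.card P' ≤ 1 := Nat.le_of_mul_le_mul_left (by rw [mul_one]; exact h6) hp0
    exact Subgroup.eq_bot_of_card_le _ h7
  have hfin : {f : MonoidAlgebra k (NQ D) | IsBlock (sec N D) f ∧ f * proj D b ≠ 0}.Finite :=
    (finite_isBlock (k := k) (sec N D)).subset (fun f hf => hf.1)
  have hB : ∀ f, f ∈ hfin.toFinset ↔ IsBlock (sec N D) f ∧ f * proj D b ≠ 0 := by
    intro f
    rw [Set.Finite.mem_toFinset]
    rfl
  have h1 := card_irX_blocks (p := p) hc hc' hcc hfin.toFinset hB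
  have h2 : ∑ f ∈ hfin.toFinset, Nat.card (Quotient (irrInvSetoid (sec N D) ⊥ f))
      = ∑ f ∈ hfin.toFinset, 1 :=
    Finset.sum_congr rfl (fun f hf => card_irr_dz (hdz f ((hB f).1 hf).1 ((hB f).1 hf).2))
  rw [h2, ← card_irr_infl h.le hNn h.isPGroup h.bN, ← card_irr_bij h, Finset.sum_const,
    smul_eq_mul, mul_one] at h1
  rw [h1, proj_e h, hsec]
  have h3 : {f : MonoidAlgebra k (NQ D) | IsDZ p (sec N D) f ∧ f * proj D b = f}
      = (hfin.toFinset : Set (MonoidAlgebra k (NQ D))) := by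
    ext f
    rw [Finset.mem_coe, hB]
    constructor
    · rintro ⟨h4, h5⟩
      exact ⟨h4.blk, by rw [h5]; exact h4.blk.ne_zero⟩
    · rintro ⟨h4, h5⟩
      refine ⟨hdz f h4 h5, ?_⟩
      rcases h4.mul_eq hmem hcc with h6 | h6
      · exfalso
        apply h5
        rw [commute_of h4.suppIn hc', h6]
      · rw [commute_of h4.suppIn hc', h6]
  rw [h3, Nat.card_coe_set_eq, Set.ncard_coe_finset]

theorem base [Fact p.Prime] [CharP k p] [IsAlgClosed k] [Fintype A]
    {e : MonoidAlgebra k A} (he : IsBlock ⊤ e)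
    (hP : ∀ P : Subgroup A, IsPGroup p P → HasBr P e → Nat.card P ≤ p) :
    NavarroEq p ⊤ ⊤ e := by
  classical
  by_cases hdz : IsDZ p ⊤ e
  · exact base_zero hdz
  obtain ⟨a, b, x, D, N, X, hd, hconj⟩ := exists_data he hP hdz
  intro T hT1 hT2
  rw [card_irr_eq]
  let D₀ : Finset (Subgroup A) := Finset.univ.filter (fun R => R ≤ ⊤ ∧ IsPGroup p R)
  have hD₀ : ∀ R, R ∈ D₀ ↔ R ≤ ⊤ ∧ IsPGroup p R := by
    intro R
    rw [Finset.mem_filter]
    exact ⟨fun h => h.2, fun h => ⟨Finset.mem_univ _, h⟩⟩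
  have h1 := sum_DZ_eq he T hT1 hT2 D₀ hD₀
  let O : Finset (Subgroup A) := Finset.univ.filter (fun Q => ∃ h ∈ (⊤ : Subgroup A), Q = cg h D)
  have hO : ∀ Q, Q ∈ O ↔ ∃ h ∈ (⊤ : Subgroup A), Q = cg h D := by
    intro Q
    rw [Finset.mem_filter]
    exact ⟨fun h => h.2, fun h => ⟨Finset.mem_univ _, h⟩⟩
  have hOD : O ⊆ D₀ := by
    intro Q hQ
    obtain ⟨g, _, rfl⟩ := (hO Q).1 hQ
    exact (hD₀ _).2 ⟨le_top, isPGroup_cg hd.isPGroup⟩
  have hzero : ∀ Q ∈ D₀, Q ∉ O → Nat.card ↥(⊤ ⊓ Subgroup.normalizer (Q : Set A))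
      * Nat.card {f : MonoidAlgebra k (NQ Q) | IsDZ p (sec ⊤ Q) f ∧ f * proj Q e = f} = 0 := by
    intro Q hQ hQO
    obtain ⟨_, hpQ⟩ := (hD₀ Q).1 hQ
    suffices h : Nat.card {f : MonoidAlgebra k (NQ Q) |
        IsDZ p (sec ⊤ Q) f ∧ f * proj Q e = f} = 0 by rw [h, mul_zero]
    by_cases hbot : Q = ⊥
    · rw [hbot]
      exact (card_w_bot he).2 hdz
    · apply card_set_zero
      rintro f ⟨h2, h3⟩
      have h4 : HasBr Q e := by
        apply hasBr_of_proj (p := p) hpQ (he.invBy.mono le_top)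
        intro h5
        rw [h5, mul_zero] at h3
        exact h2.blk.ne_zero h3.symm
      obtain ⟨g, hg⟩ := hconj Q hpQ h4
      apply hQO
      rw [hO]
      refine ⟨g, Subgroup.mem_top g, ?_⟩
      apply Subgroup.eq_of_le_of_card_ge hg
      rw [card_cg, hd.card]
      have h6 : 1 < Nat.card Q := by
        rw [Subgroup.one_lt_card_iff_ne_bot]
        exact hbot
      obtain ⟨n, hn⟩ := IsPGroup.iff_card.1 hpQ
      rcases n with _ | n
      · rw [hn, pow_zero] at h6
        exact absurd h6 (lt_irrefl _)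
      · rw [hn, pow_succ]
        exact Nat.le_mul_of_pos_left p (pow_pos (Fact.out : p.Prime).pos n)
  rw [← Finset.sum_subset hOD hzero] at h1
  have h2 : ∀ Q ∈ O, Nat.card ↥(⊤ ⊓ Subgroup.normalizer (Q : Set A))
      * Nat.card {f : MonoidAlgebra k (NQ Q) | IsDZ p (sec ⊤ Q) f ∧ f * proj Q e = f}
      = Nat.card ↥(⊤ ⊓ Subgroup.normalizer (Q : Set A))
        * Nat.card (Quotient (irrInvSetoid (⊤ : Subgroup A) ⊥ e)) := by
    intro Q hQ
    obtain ⟨g, hg, rfl⟩ := (hO Q).1 hQ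
    rw [card_cg_eq he.suppIn he.invBy hg, card_w_D hd hP]
  rw [Finset.sum_congr rfl h2, ← Finset.sum_mul, sum_class ⊤ D O hO] at h1
  exact (Nat.eq_of_mul_eq_mul_left Nat.card_pos h1).symm

end Pool.Agent.Lib.P0c8ca5.Rk
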