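import Mathlib
import Pool.Agent.Lib.P0c8ca5.Official
import Pool.Agent.Lib.P0c8ca5.Transport

/-!
# Module Inf2: `N_K(Q)/Q` and `N_{K/R}(Q/R)/(Q/R)`

`R ≤ Q ≤ K ≤ N_A(R)`.  `Q' = sec Q R` is the image `Q/R` of `Q` in `NQ R = N_A(R)/R`.
PROOFS.
* `mem_normalizer_sec`: for `x ∈ K`: `qm R x _` normalizes `sec Q R` iff `x` normalizes `Q` (`R ≤ Q`).
* `card_normalizer_sec`: `K ⊓ N(Q) → sec K R ⊓ N(sec Q R)`, `x ↦ qm R x _`, is onto with fibres the
  cosets of `R`.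
* `card_dz_sec`: there is an isomorphism `ψ : sec (sec K R) (sec Q R) ≃* sec K Q` with
  `ψ (qm Q' (qm R n _) _) = qm Q n _` for `n ∈ K ⊓ N(Q)` (third isomorphism theorem), and
  `tr ψ (proj Q' (proj R c)) = proj Q c` (both coefficients are `∑_{x ∈ n Q} c.coeff x`); then
  `tr` (P0c8ca5.Transport) is a bijection between the two sets: follow `exists_iso_sec`, `tr_proj`
  and `weights_eq` in P0c8ca5N.SecIso, or the corresponding theorems of P0c8ca5N.TrB.
-/

namespace Pool.Agent.Lib.P0c8ca5.Rk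

open MonoidAlgebra

variable {p : ℕ} {k : Type*} [Field k] {A : Type*} [Group A]

theorem mem_normalizer_sec {K R Q : Subgroup A} (hRQ : R ≤ Q) (hQK : Q ≤ K)
    (hn : K ≤ Subgroup.normalizer (R : Set A)) {x : A} (hx : x ∈ K) :
    qm R x (hn hx) ∈ Subgroup.normalizer (sec Q R : Set (NQ R))
      ↔ x ∈ Subgroup.normalizer (Q : Set A) := by
  have hK : ∀ y ∈ Q, y ∈ Subgroup.normalizer (R : Set A) := fun y hy => hn (hQK hy)
  constructor
  · intro h
    rw [Subgroup.mem_normalizer_iff] at h ⊢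
    have key : ∀ y (hy : y ∈ K), y ∈ Q ↔ x * y * x⁻¹ ∈ Q := by
      intro y hy
      have h1 := h (qm R y (hn hy))
      have e1 : qm R x (hn hx) * qm R y (hn hy) * (qm R x (hn hx))⁻¹ = qm R (x * y * x⁻¹)
        ((Subgroup.normalizer (R : Set A)).mul_mem
          ((Subgroup.normalizer (R : Set A)).mul_mem (hn hx) (hn hy))
          ((Subgroup.normalizer (R : Set A)).inv_mem (hn hx))) := rfl
      rw [e1, qm_mem_sec_iff hRQ, qm_mem_sec_iff hRQ] at h1
      exact h1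
    intro y
    constructor
    · intro hy
      exact (key y (hQK hy)).1 hy
    · intro hy
      have h2 : y ∈ K := by
        have h3 := K.mul_mem (K.mul_mem (K.inv_mem hx) (hQK hy)) hx
        have e2 : x⁻¹ * (x * y * x⁻¹) * x = y := by group
        rwa [e2] at h3
      exact (key y h2).2 hy
  · intro h
    rw [Subgroup.mem_normalizer_iff] at h ⊢
    intro w
    obtain ⟨y, hy, rfl⟩ := qm_surj w
    have e1 : qm R x (hn hx) * qm R y hy * (qm R x (hn hx))⁻¹ = qm R (x * y * x⁻¹)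
      ((Subgroup.normalizer (R : Set A)).mul_mem
        ((Subgroup.normalizer (R : Set A)).mul_mem (hn hx) hy)
        ((Subgroup.normalizer (R : Set A)).inv_mem (hn hx))) := rfl
    rw [e1, qm_mem_sec_iff hRQ, qm_mem_sec_iff hRQ]
    exact h y

theorem card_normalizer_sec [Fintype A] {K R Q : Subgroup A} (hRQ : R ≤ Q) (hQK : Q ≤ K)
    (hn : K ≤ Subgroup.normalizer (R : Set A)) :
    Nat.card ↥(K ⊓ Subgroup.normalizer (Q : Set A))
      = Nat.card R * Nat.card ↥(sec K R ⊓ Subgroup.normalizer (sec Q R : Set (NQ R))) := by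
  have hle : K ⊓ Subgroup.normalizer (Q : Set A) ≤ Subgroup.normalizer (R : Set A) :=
    inf_le_left.trans hn
  let α : ↥(K ⊓ Subgroup.normalizer (Q : Set A)) →* NQ R :=
    (QuotientGroup.mk' _).comp (Subgroup.inclusion hle)
  have hα : ∀ x, α x = qm R x (hle x.2) := fun x => rfl
  have hrange : α.range = sec K R ⊓ Subgroup.normalizer (sec Q R : Set (NQ R)) := by
    ext w
    rw [MonoidHom.mem_range, Subgroup.mem_inf, mem_sec]
    constructor
    · rintro ⟨x, rfl⟩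
      obtain ⟨hx1, hx2⟩ := Subgroup.mem_inf.1 x.2
      exact ⟨⟨x, hx1, hn hx1, rfl⟩, (mem_normalizer_sec hRQ hQK hn hx1).2 hx2⟩
    · rintro ⟨⟨x, hx, hx', rfl⟩, hw⟩
      exact ⟨⟨x, Subgroup.mem_inf.2 ⟨hx, (mem_normalizer_sec hRQ hQK hn hx).1 hw⟩⟩, rfl⟩
  have hRle : R ≤ K ⊓ Subgroup.normalizer (Q : Set A) :=
    le_inf (hRQ.trans hQK) (hRQ.trans Subgroup.le_normalizer)
  have hker : α.ker = R.subgroupOf (K ⊓ Subgroup.normalizer (Q : Set A)) := by
    ext x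
    rw [MonoidHom.mem_ker, hα, qm_eq_one_iff, Subgroup.mem_subgroupOf]
  rw [← Subgroup.card_mul_index α.ker, Subgroup.index_ker, hrange, hker]
  congr 1
  exact Nat.card_congr (Subgroup.subgroupOfEquivOfLe hRle).toEquiv

namespace Inf2Aux

theorem exists_iso_sec2 {K R Q : Subgroup A} (hRQ : R ≤ Q) (hQK : Q ≤ K)
    (hn : K ≤ Subgroup.normalizer (R : Set A)) :
    ∃ ψ : ↥(sec (sec K R) (sec Q R)) ≃* ↥(sec K Q),
      ∀ (x : A) (hx : x ∈ K) (hxQ : x ∈ Subgroup.normalizer (Q : Set A))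
        (h' : qm R x (hn hx) ∈ Subgroup.normalizer (sec Q R : Set (NQ R)))
        (c : ↥(sec (sec K R) (sec Q R))),
        (c : NQ (sec Q R)) = qm (sec Q R) (qm R x (hn hx)) h' →
          ((ψ c : ↥(sec K Q)) : NQ Q) = qm Q x hxQ := by
  have hmem : ∀ x : ↥(K ⊓ Subgroup.normalizer (Q : Set A)), qm R (x : A)
      (hn (Subgroup.mem_inf.1 x.2).1) ∈ Subgroup.normalizer (sec Q R : Set (NQ R)) := fun x =>
    (mem_normalizer_sec hRQ hQK hn (Subgroup.mem_inf.1 x.2).1).2 (Subgroup.mem_inf.1 x.2).2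
  let α : ↥(K ⊓ Subgroup.normalizer (Q : Set A)) →* NQ (sec Q R) :=
    MonoidHom.mk' (fun x => qm (sec Q R) (qm R (x : A) (hn (Subgroup.mem_inf.1 x.2).1)) (hmem x))
      (fun x y => rfl)
  let β : ↥(K ⊓ Subgroup.normalizer (Q : Set A)) →* NQ Q :=
    (QuotientGroup.mk' _).comp (Subgroup.inclusion inf_le_right)
  have hα : ∀ x, α x = qm (sec Q R) (qm R (x : A) (hn (Subgroup.mem_inf.1 x.2).1)) (hmem x) :=
    fun x => rfl
  have hβ : ∀ x, β x = qm Q x (Subgroup.mem_inf.1 x.2).2 := fun x => rfl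
  obtain ⟨ψ, hψ⟩ := exists_iso_of_ker (C₁ := sec (sec K R) (sec Q R)) (C₂ := sec K Q) α β
    (fun x => by rw [hα, hβ, qm_eq_one_iff, qm_eq_one_iff, qm_mem_sec_iff hRQ])
    (by
      ext w
      rw [MonoidHom.mem_range, mem_sec]
      constructor
      · rintro ⟨x, rfl⟩
        exact ⟨_, qm_mem_sec _ (Subgroup.mem_inf.1 x.2).1, hmem x, rfl⟩
      · rintro ⟨v, hv, hv', rfl⟩
        obtain ⟨x, hx, hx', rfl⟩ := mem_sec.1 hv
        exact ⟨⟨x, Subgroup.mem_inf.2 ⟨hx, (mem_normalizer_sec hRQ hQK hn hx).1 hv'⟩⟩, rfl⟩)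
    (by
      ext w
      rw [MonoidHom.mem_range, mem_sec]
      constructor
      · rintro ⟨x, rfl⟩
        exact ⟨x, (Subgroup.mem_inf.1 x.2).1, (Subgroup.mem_inf.1 x.2).2, rfl⟩
      · rintro ⟨g, hg, hg', rfl⟩
        exact ⟨⟨g, Subgroup.mem_inf.2 ⟨hg, hg'⟩⟩, rfl⟩)
  exact ⟨ψ, fun x hx hxQ h' c hc => hψ ⟨x, Subgroup.mem_inf.2 ⟨hx, hxQ⟩⟩ c hc⟩

theorem coeff_proj_proj [Fintype A] {K R Q : Subgroup A} (hRQ : R ≤ Q) (hQK : Q ≤ K)
    (hn : K ≤ Subgroup.normalizer (R : Set A)) (c : MonoidAlgebra k A) {n : A} (hnK : n ∈ K)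
    (hnQ : n ∈ Subgroup.normalizer (Q : Set A))
    (h' : qm R n (hn hnK) ∈ Subgroup.normalizer (sec Q R : Set (NQ R))) :
    (proj (sec Q R) (proj R c)).coeff (qm (sec Q R) (qm R n (hn hnK)) h') =
      (proj Q c).coeff (qm Q n hnQ) := by
  classical
  rw [coeff_proj, coeff_proj]
  have h1 : ∀ v : NQ R, (if (qm R n (hn hnK))⁻¹ * v ∈ sec Q R then (proj R c).coeff v else 0) =
      (proj R c).coeff v * (if (qm R n (hn hnK))⁻¹ * v ∈ sec Q R then 1 else 0) := by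
    intro v
    rw [mul_ite, mul_one, mul_zero]
  rw [Finset.sum_congr rfl fun v _ => h1 v, sum_qm]
  have h2 : ∀ y : ↥(Subgroup.normalizer (R : Set A)),
      c.coeff y * (if (qm R n (hn hnK))⁻¹ * qm R y y.2 ∈ sec Q R then 1 else 0) =
      if n⁻¹ * (y : A) ∈ Q then c.coeff (y : A) else 0 := by
    intro y
    have e1 : (qm R n (hn hnK))⁻¹ * qm R y y.2 = qm R (n⁻¹ * y)
      ((Subgroup.normalizer (R : Set A)).mul_mem
        ((Subgroup.normalizer (R : Set A)).inv_mem (hn hnK)) y.2) := rfl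
    rw [e1, mul_ite, mul_one, mul_zero]
    simp only [qm_mem_sec_iff hRQ]
  rw [Finset.sum_congr rfl fun y _ => h2 y]
  symm
  have h3 : ∀ x ∈ (Finset.univ : Finset A), x ∉ Finset.univ.filter
      (fun x => x ∈ Subgroup.normalizer (R : Set A)) →
      (if n⁻¹ * x ∈ Q then c.coeff x else 0) = 0 := by
    intro x _ hx
    rw [if_neg]
    intro hxQ
    apply hx
    rw [Finset.mem_filter]
    refine ⟨Finset.mem_univ _, hn ?_⟩
    have h4 := K.mul_mem hnK (hQK hxQ)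
    rwa [mul_inv_cancel_left] at h4
  rw [← Finset.sum_subset (Finset.filter_subset _ _) h3]
  exact Finset.sum_subtype _ (fun x => by simp) _

end Inf2Aux

open Inf2Aux

theorem card_dz_sec [Fact p.Prime] [CharP k p] [Fintype A] {K R Q : Subgroup A} (hRQ : R ≤ Q)
    (hQK : Q ≤ K) (hn : K ≤ Subgroup.normalizer (R : Set A)) {c : MonoidAlgebra k A}
    (hc : SuppIn K c) :
    Nat.card {f : MonoidAlgebra k (NQ Q) | IsDZ p (sec K Q) f ∧ f * proj Q c = f}
      = Nat.card {f : MonoidAlgebra k (NQ (sec Q R)) |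
          IsDZ p (sec (sec K R) (sec Q R)) f ∧ f * proj (sec Q R) (proj R c) = f} := by
  classical
  obtain ⟨ψ, hψ⟩ := exists_iso_sec2 hRQ hQK hn
  have htr : tr ψ (proj (sec Q R) (proj R c)) = proj Q c := by
    ext y
    by_cases hy : y ∈ sec K Q
    · obtain ⟨n, hnK, hnQ, rfl⟩ := mem_sec.1 hy
      have h' := (mem_normalizer_sec hRQ hQK hn hnK).2 hnQ
      have h2 := hψ n hnK hnQ h' ⟨qm (sec Q R) (qm R n (hn hnK)) h',
        qm_mem_sec _ (qm_mem_sec _ hnK)⟩ rfl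
      rw [← h2, coeff_tr, h2]
      exact coeff_proj_proj hRQ hQK hn c hnK hnQ h'
    · rw [coeff_tr_of_notMem _ _ hy]
      by_contra h
      exact hy (proj_suppIn hc Q y (Ne.symm h))
  have hs1 : SuppIn (sec (sec K R) (sec Q R)) (proj (sec Q R) (proj R c)) :=
    proj_suppIn (proj_suppIn hc R) _
  have hs2 : SuppIn (sec K Q) (proj Q c) := proj_suppIn hc _
  have htr' : tr ψ.symm (proj Q c) = proj (sec Q R) (proj R c) := by
    rw [← htr, tr_symm_tr ψ hs1]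
  symm
  refine Nat.card_congr
    { toFun := fun f => ⟨tr ψ f.1, tr_isDZ ψ f.2.1, ?_⟩
      invFun := fun f => ⟨tr ψ.symm f.1, tr_isDZ ψ.symm f.2.1, ?_⟩
      left_inv := ?_
      right_inv := ?_ }
  · rw [← htr, ← tr_mul ψ f.2.1.blk.suppIn hs1, f.2.2]
  · rw [← htr', ← tr_mul ψ.symm f.2.1.blk.suppIn hs2, f.2.2]
  · intro f
    exact Subtype.ext (tr_symm_tr ψ f.2.1.blk.suppIn)
  · intro f
    exact Subtype.ext (tr_tr_symm ψ f.2.1.blk.suppIn)

end Pool.Agent.Lib.P0c8ca5.Rk
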