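import Mathlib
import Pool.Agent.Lib.P0c8ca5R.Inf1
import Pool.Agent.Lib.P0c8ca5R.Inf2
import Pool.Agent.Lib.P0c8ca5N.WSum
import Pool.Agent.Lib.P0c8ca5N.Rad

/-!
# Module Inf3: the weight conjecture modulo a normal p-subgroup

PROOF. `c' = proj R b` is a central idempotent of `k[sec K R]` (`proj_suppIn`, `proj_invBy'`,
`proj_mul`).  Let `T` be a transversal as in the definition of `NavarroEq`; by `card_irr_eq` and
`sum_DZ_eq` (P0c8ca5N.WSum) with `D` = all p-subgroups of `K` it suffices that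
`|K| * l(b) = ∑_{Q ∈ D} |N_K(Q)| * w(Q)`, `w(Q) = |{f dz of sec K Q : f proj_Q b = f}|`.
If `w(Q) ≠ 0` then `R ≤ Q` (`radical` in P0c8ca5N.Rad).  The map `Q ↦ sec Q R` is a bijection from
the p-subgroups `Q` of `K` containing `R` onto the p-subgroups of `sec K R` (`sec Q R` has order
`|Q| / |R|`), and by Inf2 `|N_K(Q)| w(Q) = |R| * |N(sec Q R)| * w'(sec Q R)`.  By
`card_irr_eq_sum` (P0c8ca5N.WSum) for `sec K R` and `c'`:
`|sec K R| * l(c') = ∑_{Q'} |N(Q')| w'(Q')`, `l(c') = l(b)` by `card_irr_infl`, and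
`|K| = |R| * |sec K R|`.
-/

namespace Pool.Agent.Lib.P0c8ca5.Rk

open MonoidAlgebra

variable {p : ℕ} {k : Type*} [Field k] {A : Type*} [Group A]

namespace Inf3Aux

theorem exists_preimage [Fact p.Prime] [Finite A] {K R : Subgroup A} (hRK : R ≤ K)
    (hR : IsPGroup p R) {P' : Subgroup (NQ R)} (hP' : P' ≤ sec K R) (hpP' : IsPGroup p P') :
    ∃ P : Subgroup A, R ≤ P ∧ P ≤ K ∧ IsPGroup p P ∧ sec P R = P' := by
  let Φ : ↥(Subgroup.normalizer (R : Set A)) →* NQ R := QuotientGroup.mk' _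
  let P₀ : Subgroup ↥(Subgroup.normalizer (R : Set A)) := P'.comap Φ
  let P : Subgroup A := P₀.map (Subgroup.normalizer (R : Set A)).subtype
  have hmem : ∀ x : A, x ∈ P ↔ ∃ hx, qm R x hx ∈ P' := by
    intro x
    constructor
    · rintro ⟨⟨y, hy⟩, h1, rfl⟩
      exact ⟨hy, h1⟩
    · rintro ⟨hx, h1⟩
      exact ⟨⟨x, hx⟩, h1, rfl⟩
  have hRP : R ≤ P := by
    intro x hx
    refine (hmem x).2 ⟨Subgroup.le_normalizer hx, ?_⟩
    rw [qm_eq_one_iff.2 hx]
    exact P'.one_mem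
  have hPK : P ≤ K := by
    intro x hx
    obtain ⟨hx1, hx2⟩ := (hmem x).1 hx
    exact (qm_mem_sec_iff hRK).1 (hP' hx2)
  have hker : IsPGroup p Φ.ker := by
    have h1 : Φ.ker = R.subgroupOf (Subgroup.normalizer (R : Set A)) := QuotientGroup.ker_mk' _
    rw [h1]
    exact hR.comap_of_injective _ (Subgroup.subtype_injective _)
  refine ⟨P, hRP, hPK, (hpP'.comap_of_ker_isPGroup Φ hker).map _, ?_⟩
  ext w
  obtain ⟨n, hn, rfl⟩ := qm_surj w
  rw [qm_mem_sec_iff hRP, hmem]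
  exact ⟨fun ⟨_, h⟩ => h, fun h => ⟨hn, h⟩⟩

theorem card_secK [Finite A] {K R : Subgroup A} (hRK : R ≤ K)
    (hn : K ≤ Subgroup.normalizer (R : Set A)) :
    Nat.card K = Nat.card R * Nat.card (sec K R) := by
  let α : ↥K →* NQ R := (QuotientGroup.mk' _).comp (Subgroup.inclusion hn)
  have hα : ∀ x, α x = qm R x (hn x.2) := fun x => rfl
  have hrange : α.range = sec K R := by
    ext w
    rw [MonoidHom.mem_range, mem_sec]
    constructor
    · rintro ⟨x, rfl⟩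
      exact ⟨x, x.2, hn x.2, rfl⟩
    · rintro ⟨x, hx, hx', rfl⟩
      exact ⟨⟨x, hx⟩, rfl⟩
  have hker : α.ker = R.subgroupOf K := by
    ext x
    rw [MonoidHom.mem_ker, hα, qm_eq_one_iff, Subgroup.mem_subgroupOf]
  rw [← Subgroup.card_mul_index α.ker, Subgroup.index_ker, hrange, hker]
  congr 1
  exact Nat.card_congr (Subgroup.subgroupOfEquivOfLe hRK).toEquiv

theorem card_set_eq_zero {α : Type*} {S : Set α} (h : ∀ x, x ∉ S) : Nat.card S = 0 := by
  rw [Set.eq_empty_of_forall_notMem h]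
  exact Nat.card_of_isEmpty

end Inf3Aux

open Inf3Aux

theorem navarro_infl [Fact p.Prime] [CharP k p] [IsAlgClosed k] [Fintype A] {K R : Subgroup A}
    (hRK : R ≤ K) (hn : K ≤ Subgroup.normalizer (R : Set A)) (hR : IsPGroup p R)
    {b : MonoidAlgebra k A} (hb : IsBlock K b)
    (h : ∀ b' : MonoidAlgebra k (NQ R), IsBlock (sec K R) b' → b' * proj R b ≠ 0 →
      NavarroEq p (sec K R) (sec K R) b') : NavarroEq p K K b := by
  classical
  intro T hT1 hT2
  have : Fintype (NQ R) := Fintype.ofFinite _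
  rw [card_irr_eq]
  let D : Finset (Subgroup A) := Finset.univ.filter (fun Q => Q ≤ K ∧ IsPGroup p Q)
  have hD : ∀ Q, Q ∈ D ↔ Q ≤ K ∧ IsPGroup p Q := by
    intro Q
    rw [Finset.mem_filter]
    exact ⟨fun h => h.2, fun h => ⟨Finset.mem_univ _, h⟩⟩
  let D' : Finset (Subgroup (NQ R)) := Finset.univ.filter (fun Q => Q ≤ sec K R ∧ IsPGroup p Q)
  have hD' : ∀ Q, Q ∈ D' ↔ Q ≤ sec K R ∧ IsPGroup p Q := by
    intro Q
    rw [Finset.mem_filter]
    exact ⟨fun h => h.2, fun h => ⟨Finset.mem_univ _, h⟩⟩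
  have h1 := sum_DZ_eq hb T hT1 hT2 D hD
  have hc : SuppIn (sec K R) (proj R b) := proj_suppIn hb.suppIn R
  have hc' : InvBy (sec K R) (proj R b) := proj_invBy' hb.invBy
  have hcc : proj R b * proj R b = proj R b := by
    rw [← proj_mul hR (hb.invBy.mono hRK) (hb.invBy.mono hRK), hb.idem]
  have h2 := card_irr_eq_sum hc hc' hcc h D' hD'
  rw [← card_irr_infl hRK hn hR hb.suppIn] at h2
  have key : ∑ Q ∈ D, Nat.card ↥(K ⊓ Subgroup.normalizer (Q : Set A))
      * Nat.card {f : MonoidAlgebra k (NQ Q) | IsDZ p (sec K Q) f ∧ f * proj Q b = f}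
      = Nat.card R * ∑ Q ∈ D', Nat.card ↥(sec K R ⊓ Subgroup.normalizer (Q : Set (NQ R)))
        * Nat.card {f : MonoidAlgebra k (NQ Q) | IsDZ p (sec (sec K R) Q) f ∧
          f * proj Q (proj R b) = f} := by
    rw [← Finset.sum_filter_add_sum_filter_not D (fun Q => R ≤ Q)]
    have h3 : ∑ Q ∈ D.filter (fun Q => ¬ R ≤ Q), Nat.card ↥(K ⊓ Subgroup.normalizer (Q : Set A))
        * Nat.card {f : MonoidAlgebra k (NQ Q) | IsDZ p (sec K Q) f ∧ f * proj Q b = f} = 0 := by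
      apply Finset.sum_eq_zero
      intro Q hQ
      rw [Finset.mem_filter, hD] at hQ
      rw [card_set_eq_zero, mul_zero]
      rintro f ⟨h4, _⟩
      exact hQ.2 (radical hRK hn hR hQ.1.1 hQ.1.2 h4)
    rw [h3, add_zero, Finset.mul_sum]
    refine Finset.sum_bij (fun Q _ => sec Q R) ?_ ?_ ?_ ?_
    · intro Q hQ
      rw [Finset.mem_filter, hD] at hQ
      rw [hD']
      exact ⟨sec_mono hQ.1.1, isPGroup_sec hQ.1.2⟩
    · intro Q₁ hQ₁ Q₂ hQ₂ h12
      rw [Finset.mem_filter, hD] at hQ₁ hQ₂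
      have h4 : ∀ x, x ∈ K → (x ∈ Q₁ ↔ x ∈ Q₂) := by
        intro x hx
        rw [← qm_mem_sec_iff hQ₁.2 (hx := hn hx), ← qm_mem_sec_iff hQ₂.2 (hx := hn hx)]
        have h5 : sec Q₁ R = sec Q₂ R := h12
        rw [h5]
      ext x
      constructor
      · intro hx
        exact (h4 x (hQ₁.1.1 hx)).1 hx
      · intro hx
        exact (h4 x (hQ₂.1.1 hx)).2 hx
    · intro Q' hQ'
      rw [hD'] at hQ'
      obtain ⟨P, h4, h5, h6, h7⟩ := exists_preimage hRK hR hQ'.1 hQ'.2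
      refine ⟨P, ?_, h7⟩
      rw [Finset.mem_filter, hD]
      exact ⟨⟨h5, h6⟩, h4⟩
    · intro Q hQ
      rw [Finset.mem_filter, hD] at hQ
      rw [card_normalizer_sec hQ.2 hQ.1.1 hn, card_dz_sec hQ.2 hQ.1.1 hn hb.suppIn, mul_assoc]
  have h4 : Nat.card K * ∑ Q ∈ T, Nat.card (DZ p K b Q)
      = Nat.card K * Nat.card (Quotient (irrInvSetoid K ⊥ b)) := by
    rw [h1, key, ← h2, ← mul_assoc, ← card_secK hRK hn]
  exact (Nat.eq_of_mul_eq_mul_left Nat.card_pos h4).symm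

end Pool.Agent.Lib.P0c8ca5.Rk
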