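import Mathlib
import Pool.Agent.Lib.P0c8ca5R.Base1
import Pool.Agent.Lib.P0c8ca5R.Inf3
import Pool.Agent.Lib.P0c8ca5R.Inf4
import Pool.Agent.Lib.P0c8ca5N.DefW

/-!
# Navarro's equality for nearly free actions: the assembly
-/

namespace Pool.Agent.Lib.P0c8ca5.Rk

open MonoidAlgebra

variable {p : ℕ} {k : Type*} [Field k] {A : Type*} [Group A]

theorem hasBr_up {H : Subgroup A} {c : MonoidAlgebra k A} {P : Subgroup ↥H}
    (h : HasBr P (dn H c)) : HasBr (P.map H.subtype) c := by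
  obtain ⟨x, hx, hx'⟩ := h
  refine ⟨(x : A), ?_, hx'⟩
  rw [Subgroup.mem_centralizer_iff] at hx ⊢
  rintro y ⟨z, hz, rfl⟩
  exact congrArg Subtype.val (hx z hz)

/-- the Brauer map at `P S` does not vanish on `e` -/
theorem hasBr_sup_of_chain_block [Fact p.Prime] [CharP k p] [IsAlgClosed k] [Fintype A]
    {G X : Subgroup A} (hGX : G ≤ X)
    {e : MonoidAlgebra k A} (he : IsBlock G e) (hinv : InvBy X e)
    {σ : Finset (Subgroup A)} (hne : σ.Nonempty) (hσ : IsChain (· ≤ ·) (σ : Set (Subgroup A)))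
    (hσS : ∀ Q ∈ σ, Q ∈ Supp p G X) {b : MonoidAlgebra k A} (hb : IsBlock (G ⊓ stab X σ) b)
    (hbe : b * cS (σ.sup id) e ≠ 0) {R : Subgroup A} (hR : IsPGroup p R)
    (hRN : R ≤ G ⊓ stab X σ) (hRb : HasBr R b) : HasBr (R ⊔ σ.sup id) e := by
  classical
  set S := σ.sup id with hSdef
  have hSσ : S ∈ σ := sup_mem_chain hne hσ
  have hHn : ∀ Q ∈ σ, stab X σ ≤ Subgroup.normalizer (Q : Set A) := fun Q hQ x hx =>
    (mem_stab.1 hx).2 Q hQ
  have hctx : Ctx p X (stab X σ) S e :=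
    { hHX := inf_le_left
      hS := (hσS S hSσ).2.1
      hHS := hHn S hSσ
      hCS := by
        intro x hx
        rw [mem_stab]
        refine ⟨hx.1, fun Q hQ => ?_⟩
        have hQS : Q ≤ S := Finset.le_sup (f := id) hQ
        exact Subgroup.centralizer_le_normalizer _ (Subgroup.centralizer_le hQS hx.2)
      supp := he.suppIn.mono hGX
      inv := hinv }
  have hcH : SuppIn (stab X σ) (cS S e) := hctx.cS_supp
  have hcK : SuppIn (G ⊓ stab X σ) (cS S e) := by
    intro x hx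
    refine Subgroup.mem_inf.2 ⟨?_, hcH x hx⟩
    apply he.suppIn
    intro h0
    apply hx
    rw [coeff_resS]
    split_ifs
    · exact h0
    · rfl
  have hcinvK : InvBy (G ⊓ stab X σ) (cS S e) := hctx.cS_inv.mono inf_le_right
  have hcc : cS S e * cS S e = cS S e := hctx.cS_idem (hσS S hSσ).1 he.idem
  have hcmem : cS S e ∈ fixAlg k (G ⊓ stab X σ) (G ⊓ stab X σ) := mem_fixAlg.2 ⟨hcK, hcinvK⟩
  have hcomm : cS S e * b = b * cS S e := (commute_of hcK hb.invBy)
  have hmul : cS S e * b = b := by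
    rcases hb.mul_eq hcmem hcc with h | h
    · rw [hcomm] at h; exact absurd h hbe
    · exact h
  have hres := resS_mul hR (hcinvK.mono hRN) (hb.invBy.mono hRN)
  rw [hmul] at hres
  obtain ⟨x, hx, hxb⟩ := hRb
  have h1 : resS (Subgroup.centralizer (R : Set A) : Set A) b ≠ 0 := by
    intro h0
    apply hxb
    have h2 := coeff_resS_of_mem b (S := (Subgroup.centralizer (R : Set A) : Set A)) hx
    rw [h0] at h2
    simpa using h2.symm
  have h2 : resS (Subgroup.centralizer (R : Set A) : Set A) (cS S e) ≠ 0 := by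
    intro h0
    rw [h0, zero_mul] at hres
    exact h1 hres
  by_contra hno
  apply h2
  ext y
  by_cases hy : y ∈ (Subgroup.centralizer (R : Set A) : Set A)
  · rw [coeff_resS_of_mem _ hy, coeff_resS]
    split_ifs with hyS
    · have h3 : e.coeff y = 0 := by
        by_contra h4
        refine hno ⟨y, ?_, h4⟩
        have h5 : R ⊔ S ≤ Subgroup.centralizer ({y} : Set A) := by
          apply sup_le
          · intro z hz
            rw [Subgroup.mem_centralizer_iff]
            intro w hw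
            rw [Set.mem_singleton_iff] at hw
            subst hw
            exact ((Subgroup.mem_centralizer_iff.1 hy) z hz).symm
          · intro z hz
            rw [Subgroup.mem_centralizer_iff]
            intro w hw
            rw [Set.mem_singleton_iff] at hw
            subst hw
            exact ((Subgroup.mem_centralizer_iff.1 hyS) z hz).symm
        rw [Subgroup.mem_centralizer_iff]
        intro z hz
        exact ((Subgroup.mem_centralizer_iff.1 (h5 hz)) y rfl).symm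
      rw [h3]
      rfl
    · rfl
  · rw [coeff_resS_of_notMem _ hy]
    rfl

/-- **Navarro's equality for nearly free actions.** -/
theorem nearly_free [Fact p.Prime] [CharP k p] [IsAlgClosed k] [Fintype A] {G : Subgroup A}
    (hn : G.Normal) (hp : ∀ x : A, ∃ n : ℕ, x ^ p ^ n ∈ G) {e : MonoidAlgebra k A}
    (he : IsBlock G e) (hinv : InvBy ⊤ e)
    (hD : ∀ D : Subgroup A, IsDefectGroup p ⊤ e D → ∀ Q : Subgroup A, Q ≤ D → G ⊔ Q = ⊤ →
      Nat.card ↥(D ⊓ Subgroup.normalizer (Q : Set A)) ≤ p * Nat.card Q) :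
    NavarroEq p G ⊤ e := by
  classical
  apply navarro_of_baw le_top (by rw [Subgroup.normalizer_eq_top]) (fun x _ => hp x) he hinv
  intro σ hne hσ hσS b hb hbe
  set S := σ.sup id with hSdef
  have hSσ : S ∈ σ := sup_mem_chain hne hσ
  obtain ⟨-, hSp, hGS⟩ := hσS S hSσ
  set K := G ⊓ stab ⊤ σ with hK
  have hKS : K ≤ Subgroup.normalizer (S : Set A) := fun x hx =>
    (mem_stab.1 (Subgroup.mem_inf.1 hx).2).2 S hSσ
  have hRp : IsPGroup p ↥(S ⊓ K) := hSp.to_le inf_le_left
  have hRn : K ≤ Subgroup.normalizer ((S ⊓ K : Subgroup A) : Set A) := by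
    intro x hx
    have h1 := hKS hx
    rw [← cg_eq_self_iff] at h1 ⊢
    rw [cg_inf, h1, cg_of_mem hx]
  apply navarro_infl (R := S ⊓ K) inf_le_right hRn hRp hb
  intro b' hb' hne'
  have : Fintype (NQ (S ⊓ K)) := Fintype.ofFinite _
  have : Fintype ↥(sec K (S ⊓ K)) := Fintype.ofFinite _
  apply navarro_transport hb'
  apply base (dn_isBlock hb')
  intro P hP hbr
  have hbr' := hasBr_up hbr
  have hP' : P.map (sec K (S ⊓ K)).subtype ≤ sec K (S ⊓ K) := by
    rintro _ ⟨y, _, rfl⟩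
    exact y.2
  obtain ⟨P₁, hRP, hPK, hpP, hbrP, hcard⟩ := hasBr_infl (p := p) inf_le_right hRn hRp
    hb.suppIn hb.invBy hb.idem hb' hne' hP' (hP.map _) hbr'
  have hcardP : Nat.card ↥(P.map (sec K (S ⊓ K)).subtype) = Nat.card P :=
    Nat.card_congr (Subgroup.equivMapOfInjective P _ (Subgroup.subtype_injective _)).toEquiv.symm
  rw [hcardP] at hcard
  have hPS : P₁ ≤ Subgroup.normalizer (S : Set A) := hPK.trans hKS
  have hsup : IsPGroup p ↥(P₁ ⊔ S) := hpP.to_sup_of_normal_right' hSp hPS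
  have hbrS : HasBr (P₁ ⊔ S) e :=
    hasBr_sup_of_chain_block le_top he hinv hne hσ hσS hb hbe hpP hPK hbrP
  obtain ⟨D, hDD, hle⟩ := exists_defect (p := p) (N := ⊤) le_top hsup hbrS
  have h1 := hD D hDD S (le_sup_right.trans hle) hGS
  have h2 : P₁ ⊔ S ≤ D ⊓ Subgroup.normalizer (S : Set A) :=
    le_inf hle (sup_le hPS Subgroup.le_normalizer)
  have h3 : Nat.card ↥(P₁ ⊔ S) ≤ p * Nat.card S := (Subgroup.card_le_of_le h2).trans h1
  have h4 : Nat.card ↥(P₁ ⊔ S) * Nat.card ↥(P₁ ⊓ S) = Nat.card P₁ * Nat.card S := by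
    have h := card_sup_mul hPS
    rw [sup_comm, inf_comm, h, mul_comm]
  have h5 : P₁ ⊓ S ≤ S ⊓ K := le_inf inf_le_right (inf_le_left.trans hPK)
  have h6 : Nat.card ↥(P₁ ⊓ S) ≤ Nat.card ↥(S ⊓ K) := Subgroup.card_le_of_le h5
  have h7 : 0 < Nat.card S := Nat.card_pos
  have h8 : 0 < Nat.card ↥(S ⊓ K) := Nat.card_pos
  have h9 : Nat.card P₁ * Nat.card S ≤ (p * Nat.card ↥(S ⊓ K)) * Nat.card S := by
    rw [← h4]
    calc Nat.card ↥(P₁ ⊔ S) * Nat.card ↥(P₁ ⊓ S) ≤ (p * Nat.card S) * Nat.card ↥(S ⊓ K) :=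
          Nat.mul_le_mul h3 h6
      _ = (p * Nat.card ↥(S ⊓ K)) * Nat.card S := by ring
  have h10 := Nat.le_of_mul_le_mul_right h9 h7
  rw [hcard] at h10
  have h11 : Nat.card ↥(S ⊓ K) * Nat.card P ≤ Nat.card ↥(S ⊓ K) * p := by
    rw [mul_comm (Nat.card ↥(S ⊓ K)) p]; exact h10
  exact Nat.le_of_mul_le_mul_left h11 h8

/-- a block is a relative trace from one of its defect groups -/
theorem exists_trace_gen [Fact p.Prime] [CharP k p] [IsAlgClosed k] [Fintype A]
    {e : MonoidAlgebra k A} (he : IsBlock ⊤ e) :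
    ∃ (P : Subgroup A) (a : MonoidAlgebra k A), IsPGroup p P ∧ HasBr P e ∧ InvBy P a ∧
      ∀ X : Finset A, Reps X ⊤ P → ∑ q ∈ X, cj q a = e := by
  classical
  obtain ⟨y, -, hey, -, w, hw, hwe⟩ := exists_class (p := p) he he.invBy le_rfl
    Subgroup.le_normalizer (fun x _ => ⟨0, Subgroup.mem_top _⟩)
  set C : Subgroup A := Subgroup.centralizer {y} with hC
  obtain ⟨P, hS⟩ := exists_isSyl (p := p) C
  have hyP : y ∈ Subgroup.centralizer (P : Set A) := by
    rw [Subgroup.mem_centralizer_iff]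
    intro h hh
    exact (Subgroup.mem_centralizer_iff.1 (hS.le hh) y rfl).symm
  have hBr : HasBr P e := ⟨y, hyP, hey⟩
  have hm : ((P.relIndex C : ℕ) : k) ≠ 0 := by
    intro h
    exact hS.ndvd ((CharP.cast_eq_zero_iff k p _).1 h)
  have hw' : w * e ∈ fixAlg k ⊤ ⊤ := (fixAlg k ⊤ ⊤).mul_mem hw he.mem
  have hw'inv : InvBy (⊤ : Subgroup A) (w * e) := (mem_fixAlg.1 hw').2
  set a : MonoidAlgebra k A := (e.coeff y / (P.relIndex C : ℕ)) • (single y 1 * (w * e)) with ha
  have hainv : InvBy P a := by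
    have h1 : InvBy P (single y (1:k)) := by
      rw [invBy_iff_commute]
      intro g hg
      have h2 := Subgroup.mem_centralizer_iff.1 hyP g hg
      change single g 1 * single y 1 = single y 1 * single g 1
      rw [single_mul_single, single_mul_single, h2]
    have h2 : InvBy P (single y (1:k) * (w * e)) := by
      rw [invBy_iff_commute] at h1 ⊢
      intro g hg
      exact (h1 g hg).mul_right (invBy_iff_commute.1 hw'inv g (Subgroup.mem_top _))
    intro g hg x
    rw [ha, coeff_smul_apply, coeff_smul_apply, h2 g hg]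
  refine ⟨P, a, hS.isPGroup, hBr, hainv, ?_⟩
  intro X hX
  have h1 : ∑ q ∈ X, cj q (single y (1:k)) =
      ((P.relIndex C : ℕ) : k) • ((e.coeff y)⁻¹ • resS (cls ⊤ y : Set A) e) := by
    ext z
    rw [coeff_smul_apply, coeff_smul_apply, coeff_sum, Finsupp.finsetSum_apply]
    by_cases hz : z ∈ cls ⊤ y
    · obtain ⟨g, _, hg⟩ := mem_cls.1 hz
      rw [coeff_resS_of_mem _ (Finset.mem_coe.2 hz)]
      have h2 : e.coeff z = e.coeff y := by rw [hg]; exact he.invBy g (Subgroup.mem_top _) y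
      rw [h2, smul_eq_mul, smul_eq_mul, inv_mul_cancel₀ hey, mul_one,
        ← BrAAux.card_reps hX hS.le g, Finset.card_filter, Nat.cast_sum]
      refine Finset.sum_congr rfl (fun q _ => ?_)
      rw [coeff_cj, coeff_single, Finsupp.single_apply, Nat.cast_ite, Nat.cast_one, Nat.cast_zero]
      congr 1
      rw [hg, hC, Subgroup.mem_centralizer_iff]
      apply propext
      constructor
      · intro h t ht
        rw [Set.mem_singleton_iff] at ht
        subst ht
        calc t * (g⁻¹ * q) = g⁻¹ * q * (q⁻¹ * (g * t * g⁻¹) * q) := by group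
          _ = g⁻¹ * q * t := by rw [← h]
      · intro h
        have := h y rfl
        calc y = (g⁻¹ * q)⁻¹ * ((g⁻¹ * q) * y) := by group
          _ = (g⁻¹ * q)⁻¹ * (y * (g⁻¹ * q)) := by rw [this]
          _ = _ := by group
    · rw [coeff_resS_of_notMem _ (fun h => hz (Finset.mem_coe.1 h)), smul_zero, smul_zero]
      apply Finset.sum_eq_zero
      intro q _
      rw [coeff_cj, coeff_single, Finsupp.single_apply, if_neg]
      intro h
      apply hz
      refine mem_cls.2 ⟨q, Subgroup.mem_top _, ?_⟩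
      calc z = q * (q⁻¹ * z * q) * q⁻¹ := by group
        _ = q * y * q⁻¹ := by rw [← h]
  have h2 : ∀ q ∈ X, cj q a =
      (e.coeff y / (P.relIndex C : ℕ)) • (cj q (single y 1) * (w * e)) := by
    intro q _
    rw [ha, cj_smul, cj_mul, invBy_iff_cj.1 hw'inv q (Subgroup.mem_top _)]
  rw [Finset.sum_congr rfl h2, ← Finset.smul_sum, ← Finset.sum_mul, h1, smul_mul_assoc,
    smul_mul_assoc, smul_smul, smul_smul, ← mul_assoc, hwe]
  have h3 : e.coeff y / ((P.relIndex C : ℕ) : k) * ((P.relIndex C : ℕ) : k) * (e.coeff y)⁻¹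
      = 1 := by
    rw [div_mul_cancel₀ _ hm, mul_inv_cancel₀ hey]
  rw [h3, one_smul]

/-- the defect groups of a block are conjugate -/
theorem defect_conj [Fact p.Prime] [CharP k p] [IsAlgClosed k] [Fintype A]
    {e : MonoidAlgebra k A} (he : IsBlock ⊤ e) {D D' : Subgroup A}
    (hD : IsDefectGroup p ⊤ e D) (hD' : IsDefectGroup p ⊤ e D') : ∃ g : A, D' = cg g D := by
  obtain ⟨P, a, hP, hbr, ha, hsum⟩ := exists_trace_gen (p := p) he
  obtain ⟨X, hX⟩ := exists_reps (le_top : P ≤ ⊤)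
  have key : ∀ E : Subgroup A, IsDefectGroup p ⊤ e E → ∃ g, E = cg g P := by
    intro E hE
    obtain ⟨g, hg⟩ := conj_of_hasBr (p := p) hX ha (hsum X hX) hE.isPGroup hE.br
    refine ⟨g, ?_⟩
    have h1 : HasBr (cg g P) e := by
      have := hasBr_cg hbr g
      rwa [invBy_iff_cj.1 he.invBy g (Subgroup.mem_top g)] at this
    exact (hE.max (cg g P) le_top (isPGroup_cg hP) h1 hg).symm
  obtain ⟨g, hg⟩ := key D hD
  obtain ⟨g', hg'⟩ := key D' hD'
  refine ⟨g' * g⁻¹, ?_⟩
  rw [hg, cg_cg, hg']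
  congr 1
  group

/-- **Navarro's equality for nearly free actions**, with the hypothesis on one defect group. -/
theorem nearly_free_one [Fact p.Prime] [CharP k p] [IsAlgClosed k] [Fintype A] {G : Subgroup A}
    (hn : G.Normal) (hp : ∀ x : A, ∃ n : ℕ, x ^ p ^ n ∈ G) {e : MonoidAlgebra k A}
    (he : IsBlock G e) (hinv : InvBy ⊤ e) (D : Subgroup A) (hDe : IsDefectGroup p ⊤ e D)
    (hD : ∀ Q : Subgroup A, Q ≤ D → G ⊔ Q = ⊤ →
      Nat.card ↥(D ⊓ Subgroup.normalizer (Q : Set A)) ≤ p * Nat.card Q) :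
    NavarroEq p G ⊤ e := by
  have heT : IsBlock (⊤ : Subgroup A) e := isBlock_up' le_top
    (by rw [Subgroup.normalizer_eq_top]) (fun x _ => hp x) he hinv
  apply nearly_free hn hp he hinv
  intro D' hD' Q hQ hGQ
  obtain ⟨g, rfl⟩ := defect_conj heT hDe hD'
  have h1 : cg g⁻¹ Q ≤ D := by
    have := cg_le_cg (g := g⁻¹) hQ
    rwa [cg_cg, inv_mul_cancel, cg_one] at this
  have hG : cg g⁻¹ G = G := cg_eq_self_iff.2 (by
    rw [Subgroup.normalizer_eq_top]; exact Subgroup.mem_top _)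
  have h2 : G ⊔ cg g⁻¹ Q = ⊤ := by
    have h3 : cg g⁻¹ (G ⊔ Q) = cg g⁻¹ G ⊔ cg g⁻¹ Q := Subgroup.map_sup _ _ _
    rw [hG, hGQ] at h3
    rw [← h3]
    exact cg_eq_self_iff.2 (by rw [Subgroup.normalizer_eq_top]; exact Subgroup.mem_top _)
  have h3 := hD (cg g⁻¹ Q) h1 h2
  rw [card_cg] at h3
  have h4 : Nat.card ↥(cg g D ⊓ Subgroup.normalizer (Q : Set A))
      = Nat.card ↥(D ⊓ Subgroup.normalizer ((cg g⁻¹ Q : Subgroup A) : Set A)) := by
    rw [← card_cg g⁻¹, cg_inf, cg_cg, inv_mul_cancel, cg_one, cg_normalizer]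
  rw [h4]
  exact h3

end Pool.Agent.Lib.P0c8ca5.Rk
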