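import Mathlib
import Pool.Agent.Lib.P0c8ca5.Comb

/-!
# The hypothesis of `nearly_free` for an abelian defect group and a cyclic factor group
-/

namespace Pool.Agent.Lib.P0c8ca5.Rk

variable {p : ℕ} {A : Type*} [Group A]

/-- `d ↦ s d s⁻¹ d⁻¹` on an abelian subgroup normalized by `s` -/
def comm {D : Subgroup A} (hab : ∀ x ∈ D, ∀ y ∈ D, x * y = y * x) {s : A}
    (hs : s ∈ Subgroup.normalizer (D : Set A)) : D →* D where
  toFun d := ⟨s * d * s⁻¹ * (d : A)⁻¹,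
    D.mul_mem ((Subgroup.mem_normalizer_iff.1 hs d).1 d.2) (D.inv_mem d.2)⟩
  map_one' := by
    apply Subtype.ext
    change s * 1 * s⁻¹ * 1⁻¹ = 1
    group
  map_mul' d d' := by
    apply Subtype.ext
    have h1 : s * (d' : A) * s⁻¹ ∈ D := (Subgroup.mem_normalizer_iff.1 hs d').1 d'.2
    have h2 := hab _ (D.inv_mem d.2) _ (D.mul_mem h1 (D.inv_mem d'.2))
    change s * ((d : A) * d') * s⁻¹ * ((d : A) * d')⁻¹
      = s * d * s⁻¹ * (d : A)⁻¹ * (s * d' * s⁻¹ * (d' : A)⁻¹)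
    have e1 : s * (d : A) * s⁻¹ * (d : A)⁻¹ * (s * d' * s⁻¹ * (d' : A)⁻¹)
        = s * d * s⁻¹ * ((d : A)⁻¹ * (s * d' * s⁻¹ * (d' : A)⁻¹)) := by group
    have e2 : s * ((d : A) * d') * s⁻¹ * ((d : A) * d')⁻¹
        = s * d * s⁻¹ * (s * d' * s⁻¹ * (d' : A)⁻¹ * (d : A)⁻¹) := by group
    rw [e1, e2, h2]

theorem card_le_of_abelian [Finite A] {G E : Subgroup A} (hG : G.Normal)
    (hcyc : IsCyclic (A ⧸ G)) (hab : ∀ x ∈ E ⊓ G, ∀ y ∈ E ⊓ G, x * y = y * x)
    (hfix : Nat.card ↥(E ⊓ G ⊓ Subgroup.centralizer (E : Set A)) ≤ p) {Q : Subgroup A}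
    (hQ : Q ≤ E) (hGQ : G ⊔ Q = ⊤) :
    Nat.card ↥(E ⊓ Subgroup.normalizer (Q : Set A)) ≤ p * Nat.card Q := by
  classical
  -- a generator in `Q`
  obtain ⟨t, ht⟩ := hcyc.exists_generator
  obtain ⟨a, rfl⟩ := QuotientGroup.mk_surjective t
  have hmul : ∀ x : A, ∃ g ∈ G, ∃ q ∈ Q, x = g * q := by
    intro x
    have hx : x ∈ G ⊔ Q := by rw [hGQ]; exact Subgroup.mem_top x
    obtain ⟨g, hg, q, hq, h⟩ := Subgroup.mem_sup_of_normal_left.1 hx
    exact ⟨g, hg, q, hq, h.symm⟩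
  obtain ⟨g₀, hg₀, s, hs, ha⟩ := hmul a
  have hgen : ∀ x : A, ∃ n : ℤ, (s ^ n)⁻¹ * x ∈ G := by
    intro x
    obtain ⟨n, hn⟩ := ht (x : A ⧸ G)
    refine ⟨n, ?_⟩
    have h1 : ((a : A ⧸ G)) = (s : A ⧸ G) := by
      rw [ha, QuotientGroup.mk_mul, (QuotientGroup.eq_one_iff g₀).2 hg₀, one_mul]
    have h2 : ((s ^ n : A) : A ⧸ G) = (x : A ⧸ G) := by
      rw [← hn, h1]
      rfl
    exact QuotientGroup.eq.1 h2
  set D := E ⊓ G with hD
  have hsE : s ∈ E := hQ hs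
  have hnD : ∀ x ∈ E, x ∈ Subgroup.normalizer (D : Set A) := by
    have key : ∀ x ∈ E, ∀ y ∈ D, x * y * x⁻¹ ∈ D := fun x hx y hy =>
      Subgroup.mem_inf.2 ⟨E.mul_mem (E.mul_mem hx (Subgroup.mem_inf.1 hy).1) (E.inv_mem hx),
        hG.conj_mem y (Subgroup.mem_inf.1 hy).2 x⟩
    intro x hx
    rw [Subgroup.mem_normalizer_iff]
    intro y
    refine ⟨key x hx y, fun h => ?_⟩
    have := key x⁻¹ (E.inv_mem hx) _ h
    have e1 : x⁻¹ * (x * y * x⁻¹) * x⁻¹⁻¹ = y := by group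
    rwa [e1] at this
  let c := comm hab (hnD s hsE)
  -- the kernel of `c`
  have hker : Nat.card c.ker ≤ p := by
    refine le_trans ?_ hfix
    apply Nat.card_le_card_of_injective
      (fun x : c.ker => (⟨((x : D) : A), ?_⟩ : ↥(D ⊓ Subgroup.centralizer (E : Set A))))
    · intro x y h
      have h1 := congrArg Subtype.val h
      exact Subtype.ext (Subtype.ext h1)
    · refine Subgroup.mem_inf.2 ⟨(x : D).2, ?_⟩
      have h1 : s * ((x : D) : A) * s⁻¹ * ((x : D) : A)⁻¹ = 1 := congrArg Subtype.val x.2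
      have h2 : Commute s ((x : D) : A) := by
        have h3 : s * ((x : D) : A) * s⁻¹ = ((x : D) : A) := mul_inv_eq_one.1 h1
        exact mul_inv_eq_iff_eq_mul.1 h3
      rw [Subgroup.mem_centralizer_iff]
      intro y hy
      obtain ⟨n, hn⟩ := hgen y
      have h4 : (s ^ n)⁻¹ * y ∈ D := Subgroup.mem_inf.2
        ⟨E.mul_mem (E.inv_mem (E.zpow_mem hsE n)) hy, hn⟩
      have h5 := hab _ h4 _ (x : D).2
      have h6 : Commute (s ^ n) ((x : D) : A) := h2.zpow_left n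
      calc y * ((x : D) : A) = s ^ n * ((s ^ n)⁻¹ * y * ((x : D) : A)) := by group
        _ = s ^ n * (((x : D) : A) * ((s ^ n)⁻¹ * y)) := by rw [h5]
        _ = s ^ n * ((x : D) : A) * ((s ^ n)⁻¹ * y) := by group
        _ = ((x : D) : A) * s ^ n * ((s ^ n)⁻¹ * y) := by rw [h6.eq]
        _ = ((x : D) : A) * y := by group
  -- the preimage of `Q ⊓ G`
  set D' := D ⊓ Subgroup.normalizer (Q : Set A) with hD'
  have hcomap : Nat.card ↥((Q.subgroupOf D).comap c) ≤ p * Nat.card ↥(Q ⊓ G) := by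
    have h1 : Nat.card ↥((Q.subgroupOf D).comap c)
        = Nat.card c.ker * Nat.card ↥(((Q.subgroupOf D).comap c).map c) := by
      have h2 := Subgroup.card_mul_index (c.ker.subgroupOf ((Q.subgroupOf D).comap c))
      have h3 : c.ker ≤ (Q.subgroupOf D).comap c := by
        intro x hx
        rw [Subgroup.mem_comap, MonoidHom.mem_ker.1 hx]
        exact Subgroup.one_mem _
      rw [Nat.card_congr (Subgroup.subgroupOfEquivOfLe h3).toEquiv] at h2
      rw [← h2]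
      congr 1
      have h4 := Nat.card_congr (QuotientGroup.quotientKerEquivRange
        (c.comp ((Q.subgroupOf D).comap c).subtype)).toEquiv
      rw [Subgroup.index_eq_card]
      have h5 : (c.comp ((Q.subgroupOf D).comap c).subtype).ker
          = c.ker.subgroupOf ((Q.subgroupOf D).comap c) := rfl
      have h6 : (c.comp ((Q.subgroupOf D).comap c).subtype).range
          = ((Q.subgroupOf D).comap c).map c := by
        rw [MonoidHom.range_comp, Subgroup.range_subtype]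
      rw [← h5, h4, h6]
    have h7 : Nat.card ↥(((Q.subgroupOf D).comap c).map c) ≤ Nat.card ↥(Q ⊓ G) := by
      apply Nat.card_le_card_of_injective
        (fun x : ↥(((Q.subgroupOf D).comap c).map c) =>
          (⟨((x : D) : A), ?_⟩ : ↥(Q ⊓ G)))
      · intro x y h
        have h9 : (((x : D)) : A) = ((y : D) : A) := by
          have h10 := congrArg (fun z : ↥(Q ⊓ G) => (z : A)) h
          exact h10
        exact Subtype.ext (Subtype.ext h9)
      · have h8 : (x : D) ∈ Q.subgroupOf D := Subgroup.map_comap_le _ _ x.2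
        exact Subgroup.mem_inf.2 ⟨Subgroup.mem_subgroupOf.1 h8, (Subgroup.mem_inf.1 (x : D).2).2⟩
    rw [h1]
    exact Nat.mul_le_mul hker h7
  have hcardD' : Nat.card D' ≤ p * Nat.card ↥(Q ⊓ G) := by
    refine le_trans ?_ hcomap
    apply Nat.card_le_card_of_injective
      (fun x : D' => (⟨⟨(x : A), (Subgroup.mem_inf.1 x.2).1⟩, ?_⟩ :
        ↥((Q.subgroupOf D).comap c)))
    · intro x y h
      exact Subtype.ext (congrArg (fun z => ((z.1 : D) : A)) h)
    · rw [Subgroup.mem_comap, Subgroup.mem_subgroupOf]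
      change s * (x : A) * s⁻¹ * (x : A)⁻¹ ∈ Q
      have h1 := (Subgroup.mem_normalizer_iff.1 (Subgroup.mem_inf.1 x.2).2 s⁻¹).1 (Q.inv_mem hs)
      have h2 := Q.mul_mem hs h1
      have e1 : s * ((x : A) * s⁻¹ * (x : A)⁻¹) = s * (x : A) * s⁻¹ * (x : A)⁻¹ := by group
      rwa [e1] at h2
  -- the product formula
  have hle : E ⊓ Subgroup.normalizer (Q : Set A) ≤ Q ⊔ D' := by
    intro x hx
    obtain ⟨hxE, hxN⟩ := Subgroup.mem_inf.1 hx
    obtain ⟨g, hg, q, hq, h⟩ := hmul x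
    have h1 : g = x * q⁻¹ := by rw [h]; group
    have h2 : g ∈ D' := by
      refine Subgroup.mem_inf.2 ⟨Subgroup.mem_inf.2 ⟨?_, hg⟩, ?_⟩
      · rw [h1]; exact E.mul_mem hxE (E.inv_mem (hQ hq))
      · rw [h1]
        exact (Subgroup.normalizer (Q : Set A)).mul_mem hxN
          ((Subgroup.normalizer (Q : Set A)).inv_mem (Subgroup.le_normalizer hq))
    rw [h]
    exact (Q ⊔ D').mul_mem (le_sup_right (a := Q) h2) (le_sup_left (b := D') hq)
  have h1 := card_sup_mul (L := Q) (D := D') inf_le_right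
  have h2 : Q ⊓ D' = Q ⊓ G := by
    apply le_antisymm
    · intro x hx
      obtain ⟨hx1, hx2⟩ := Subgroup.mem_inf.1 hx
      exact Subgroup.mem_inf.2 ⟨hx1, (Subgroup.mem_inf.1 (Subgroup.mem_inf.1 hx2).1).2⟩
    · intro x hx
      obtain ⟨hx1, hx2⟩ := Subgroup.mem_inf.1 hx
      exact Subgroup.mem_inf.2 ⟨hx1, Subgroup.mem_inf.2 ⟨Subgroup.mem_inf.2 ⟨hQ hx1, hx2⟩,
        Subgroup.le_normalizer hx1⟩⟩
  rw [h2] at h1
  have hpos : 0 < Nat.card ↥(Q ⊓ G) := Nat.card_pos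
  have h3 : Nat.card ↥(Q ⊔ D') * Nat.card ↥(Q ⊓ G)
      ≤ (p * Nat.card Q) * Nat.card ↥(Q ⊓ G) := by
    rw [h1]
    calc Nat.card Q * Nat.card D' ≤ Nat.card Q * (p * Nat.card ↥(Q ⊓ G)) :=
          Nat.mul_le_mul_left _ hcardD'
      _ = (p * Nat.card Q) * Nat.card ↥(Q ⊓ G) := by ring
  exact (Subgroup.card_le_of_le hle).trans (Nat.le_of_mul_le_mul_right h3 hpos)

end Pool.Agent.Lib.P0c8ca5.Rk
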